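import Mathlib

/-!
# Full twists and cups in a Temperley-Lieb setting

An algebra `A` with elements `u i` (cups) and `a i` (caps) satisfying the planar relations on
infinitely many strands.
-/

namespace Pool.Agent.Helper57.TW

/-- Cups `u` and caps `a` in an algebra, at a unit `z` with inverse `w`. -/
structure TL {R A : Type*} [CommRing R] [Ring A] [Algebra R A] (z w : R) (u a : ℕ → A) : Prop where
  zw : z * w = 1
  r1 : ∀ i, a i * u i = (-(z * z + w * w)) • (1 : A)
  r2 : ∀ i, a (i + 1) * u i = 1
  r3 : ∀ i, a i * u (i + 1) = 1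
  r4 : ∀ i k, a (i + k + 2) * u i = u i * a (i + k)
  r5 : ∀ i k, a i * u (i + k + 2) = u (i + k) * a i
  r6 : ∀ i k, u (i + k + 2) * u i = u i * u (i + k)
  r7 : ∀ i k, a (i + k) * a i = a i * a (i + k + 2)

variable {R A : Type*} [CommRing R] [Ring A] [Algebra R A] {z w : R} {u a : ℕ → A}

/-- The crossing. -/
def cr (z w : R) (u a : ℕ → A) (i : ℕ) : A := z • (1 : A) + w • (u i * a i)

lemma TL.swap (h : TL z w u a) : TL w z u a where
  zw := by rw [mul_comm]; exact h.zw
  r1 := fun i => by rw [h.r1, add_comm]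
  r2 := h.r2
  r3 := h.r3
  r4 := h.r4
  r5 := h.r5
  r6 := h.r6
  r7 := h.r7

section basic

variable (h : TL z w u a)
include h

lemma TL.wz : w * z = 1 := by rw [mul_comm]; exact h.zw

/-- `x` and its inverse. -/
lemma TL.inv (i : ℕ) : cr z w u a i * cr w z u a i = 1 := by
  have e : u i * a i * (u i * a i) = (-(z * z + w * w)) • (u i * a i) := by
    rw [mul_assoc, ← mul_assoc (a i), h.r1, smul_mul_assoc, one_mul, mul_smul_comm]
  simp only [cr, add_mul, mul_add, smul_mul_assoc, mul_smul_comm, one_mul, mul_one, e, smul_smul,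
    smul_add, h.wz, one_smul]
  have h3 : w * w + (z * z + z * (w * -(z * z + w * w))) = 0 := by
    linear_combination (-(z * z + w * w)) * h.zw
  rw [add_assoc, ← add_smul, ← add_smul, h3, zero_smul, add_zero]

lemma TL.cr_u (i : ℕ) : cr z w u a i * u i = (-(w * w * w)) • u i := by
  have e : u i * a i * u i = (-(z * z + w * w)) • u i := by
    rw [mul_assoc, h.r1, mul_smul_comm, mul_one]
  simp only [cr, add_mul, smul_mul_assoc, one_mul, e, smul_smul]
  rw [← add_smul]
  congr 1
  linear_combination (-z) * h.zw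

lemma TL.a_cr (i : ℕ) : a i * cr z w u a i = (-(w * w * w)) • a i := by
  have e : a i * (u i * a i) = (-(z * z + w * w)) • a i := by
    rw [← mul_assoc, h.r1, smul_mul_assoc, one_mul]
  simp only [cr, mul_add, mul_smul_comm, mul_one, e, smul_smul]
  rw [← add_smul]
  congr 1
  linear_combination (-z) * h.zw

lemma TL.cr_u1 (i : ℕ) : cr z w u a i * u (i + 1) = z • u (i + 1) + w • u i := by
  have e : u i * a i * u (i + 1) = u i := by rw [mul_assoc, h.r3, mul_one]
  simp only [cr, add_mul, smul_mul_assoc, one_mul, e]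

lemma TL.cr1_u (i : ℕ) : cr z w u a (i + 1) * u i = z • u i + w • u (i + 1) := by
  have e : u (i + 1) * a (i + 1) * u i = u (i + 1) := by rw [mul_assoc, h.r2, mul_one]
  simp only [cr, add_mul, smul_mul_assoc, one_mul, e]

lemma TL.cr_cr1_u (i : ℕ) : cr z w u a i * (cr z w u a (i + 1) * u i) = u (i + 1) := by
  rw [h.cr1_u, mul_add, mul_smul_comm, mul_smul_comm, h.cr_u, h.cr_u1, smul_add, smul_smul,
    smul_smul, smul_smul, h.wz, one_smul, add_comm (u (i + 1)), ← add_assoc, ← add_smul]
  have : z * -(w * w * w) + w * w = 0 := by linear_combination (-(w * w)) * h.zw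
  rw [this, zero_smul, zero_add]

lemma TL.cr1_cr_u (i : ℕ) : cr z w u a (i + 1) * (cr z w u a i * u (i + 1)) = u i := by
  rw [h.cr_u1, mul_add, mul_smul_comm, mul_smul_comm, h.cr_u, h.cr1_u, smul_add, smul_smul,
    smul_smul, smul_smul, h.wz, one_smul, add_comm (u i), ← add_assoc, ← add_smul]
  have : z * -(w * w * w) + w * w = 0 := by linear_combination (-(w * w)) * h.zw
  rw [this, zero_smul, zero_add]

lemma TL.a1_cr (i : ℕ) : a (i + 1) * cr z w u a i = z • a (i + 1) + w • a i := by
  have e : a (i + 1) * (u i * a i) = a i := by rw [← mul_assoc, h.r2, one_mul]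
  simp only [cr, mul_add, mul_smul_comm, mul_one, e]

lemma TL.a_cr1 (i : ℕ) : a i * cr z w u a (i + 1) = z • a i + w • a (i + 1) := by
  have e : a i * (u (i + 1) * a (i + 1)) = a (i + 1) := by rw [← mul_assoc, h.r3, one_mul]
  simp only [cr, mul_add, mul_smul_comm, mul_one, e]

lemma TL.a1_cr_cr1 (i : ℕ) : a (i + 1) * (cr z w u a i * cr z w u a (i + 1)) = a i := by
  rw [← mul_assoc, h.a1_cr, add_mul, smul_mul_assoc, smul_mul_assoc, h.a_cr, h.a_cr1, smul_add,
    smul_smul, smul_smul, smul_smul, h.wz, one_smul, add_comm (a i), ← add_assoc, ← add_smul]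
  have : z * -(w * w * w) + w * w = 0 := by linear_combination (-(w * w)) * h.zw
  rw [this, zero_smul, zero_add]

/-- The braid relation. -/
lemma TL.braid (i : ℕ) : cr z w u a i * cr z w u a (i + 1) * cr z w u a i =
    cr z w u a (i + 1) * cr z w u a i * cr z w u a (i + 1) := by
  have e1 : cr z w u a i * cr z w u a (i + 1) * cr z w u a i =
      z • (cr z w u a i * cr z w u a (i + 1)) + w • (u (i + 1) * a i) := by
    conv_lhs => rw [cr.eq_def z w u a i]
    rw [← cr.eq_def z w u a i]
    have : cr z w u a i * cr z w u a (i + 1) * (z • (1 : A) + w • (u i * a i)) =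
      z • (cr z w u a i * cr z w u a (i + 1)) +
        w • (cr z w u a i * (cr z w u a (i + 1) * u i) * a i) := by
      simp only [mul_add, mul_smul_comm, mul_one, mul_assoc]
    rw [← h.cr_cr1_u i]
    rw [← this]
    rfl
  have e2 : cr z w u a (i + 1) * cr z w u a i * cr z w u a (i + 1) =
      z • (cr z w u a i * cr z w u a (i + 1)) + w • (u (i + 1) * a i) := by
    have : (z • (1 : A) + w • (u (i + 1) * a (i + 1))) * (cr z w u a i * cr z w u a (i + 1)) =
      z • (cr z w u a i * cr z w u a (i + 1)) +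
        w • (u (i + 1) * (a (i + 1) * (cr z w u a i * cr z w u a (i + 1)))) := by
      simp only [add_mul, smul_mul_assoc, one_mul, mul_assoc]
    rw [mul_assoc]
    conv_lhs => rw [cr.eq_def z w u a (i + 1)]
    rw [← cr.eq_def z w u a (i + 1), ← h.a1_cr_cr1 i]
    rw [← this]
    rfl
  rw [e1, e2]

end basic

end Pool.Agent.Helper57.TW
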