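import Mathlib

/-!
# Anticoncentration for words with two special letters
-/

namespace Pool.Agent.Helper57.TW

open Finset

lemma central_bound (k : ℕ) : (Nat.centralBinom k) ^ 2 * (2 * k + 1) ≤ 16 ^ k := by
  induction k with
  | zero => simp
  | succ k ih =>
    have h := Nat.succ_mul_centralBinom_succ k
    have h1 : (k + 1) ^ 2 * ((Nat.centralBinom (k + 1)) ^ 2 * (2 * (k + 1) + 1)) =
        4 * (2 * k + 1) * (2 * k + 3) * ((Nat.centralBinom k) ^ 2 * (2 * k + 1)) := by
      have h2 : ((k + 1) * Nat.centralBinom (k + 1)) ^ 2 =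
          (2 * (2 * k + 1) * Nat.centralBinom k) ^ 2 := by rw [h]
      calc (k + 1) ^ 2 * ((Nat.centralBinom (k + 1)) ^ 2 * (2 * (k + 1) + 1))
          = ((k + 1) * Nat.centralBinom (k + 1)) ^ 2 * (2 * k + 3) := by ring
        _ = _ := by rw [h2]; ring
    have h3 : 4 * (2 * k + 1) * (2 * k + 3) ≤ 16 * (k + 1) ^ 2 := by nlinarith
    have h4 : (k + 1) ^ 2 * ((Nat.centralBinom (k + 1)) ^ 2 * (2 * (k + 1) + 1)) ≤
        (k + 1) ^ 2 * 16 ^ (k + 1) := by
      rw [h1]
      calc 4 * (2 * k + 1) * (2 * k + 3) * ((Nat.centralBinom k) ^ 2 * (2 * k + 1))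
          ≤ (16 * (k + 1) ^ 2) * 16 ^ k := Nat.mul_le_mul h3 ih
        _ = (k + 1) ^ 2 * 16 ^ (k + 1) := by rw [pow_succ]; ring
    exact Nat.le_of_mul_le_mul_left h4 (by positivity)

lemma middle_bound (m : ℕ) : (m.choose (m / 2)) ^ 2 * (m + 1) ≤ 4 ^ m := by
  rcases Nat.even_or_odd' m with ⟨k, rfl | rfl⟩
  · have := central_bound k
    have e : 2 * k / 2 = k := by omega
    rw [e, pow_mul]
    exact this
  · have h := central_bound (k + 1)
    have e : (2 * k + 1) / 2 = k := by omega
    have e2 : Nat.centralBinom (k + 1) = 2 * (2 * k + 1).choose k := by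
      rw [Nat.centralBinom_eq_two_mul_choose]
      have h1 : 2 * (k + 1) = (2 * k + 1) + 1 := by ring
      rw [h1, Nat.choose_succ_succ]
      have h2 : (2 * k + 1).choose (k + 1) = (2 * k + 1).choose k := by
        rw [← Nat.choose_symm_half k]
      rw [h2]; ring
    rw [e2] at h
    rw [e]
    have h3 : (16 : ℕ) ^ (k + 1) = 4 * 4 ^ (2 * k + 1) := by
      rw [show (16 : ℕ) = 4 ^ 2 by norm_num, ← pow_mul]
      have : 2 * (k + 1) = (2 * k + 1) + 1 := by ring
      rw [this, pow_succ]; ring
    rw [h3] at h
    have h4 : 4 * ((2 * k + 1).choose k ^ 2 * (2 * k + 1 + 1)) ≤ 4 * 4 ^ (2 * k + 1) := by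
      refine le_trans ?_ h
      nlinarith [Nat.zero_le ((2 * k + 1).choose k ^ 2)]
    exact Nat.le_of_mul_le_mul_left h4 (by norm_num)

/-- Sign choices with a given weighted sum. -/
lemma sign_count (M : ℕ) (cc : Fin M → ℤ) (hc : ∀ j, cc j = 0 ∨ cc j = 1 ∨ cc j = -1) (k : ℤ) :
    (univ.filter (fun v : Fin M → Bool => ∑ j, (if v j then -cc j else cc j) = k)).card ≤
      2 ^ (M - (univ.filter (fun j => cc j ≠ 0)).card) *
        ((univ.filter (fun j => cc j ≠ 0)).card).choose
          ((univ.filter (fun j => cc j ≠ 0)).card / 2) := by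
  classical
  set J := univ.filter (fun j => cc j ≠ 0) with hJ
  set m := J.card with hm
  -- the set where the sign is positive
  let S : (Fin M → Bool) → Finset (Fin M) := fun v =>
    J.filter (fun j => (if v j then -cc j else cc j) = 1)
  let U : (Fin M → Bool) → Finset (Fin M) := fun v => Jᶜ.filter (fun j => v j = true)
  have hsum : ∀ v, ∑ j, (if v j then -cc j else cc j) = 2 * ((S v).card : ℤ) - m := by
    intro v
    have h1 : ∑ j, (if v j then -cc j else cc j) =
        ∑ j ∈ J, (if v j then -cc j else cc j) := by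
      symm
      apply Finset.sum_subset (Finset.subset_univ _)
      intro j _ hj
      have : cc j = 0 := by
        by_contra hne
        exact hj (Finset.mem_filter.2 ⟨Finset.mem_univ _, hne⟩)
      simp [this]
    have h2 : ∀ j ∈ J, (if v j then -cc j else cc j) =
        2 * (if (if v j then -cc j else cc j) = 1 then 1 else 0) - 1 := by
      intro j hj
      have hne := (Finset.mem_filter.1 hj).2
      rcases hc j with h | h | h
      · exact absurd h hne
      · cases v j <;> simp [h]
      · cases v j <;> simp [h]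
    rw [h1, Finset.sum_congr rfl h2, Finset.sum_sub_distrib, ← Finset.mul_sum,
      Finset.sum_boole]
    simp [hm, S]
  by_cases hk : ∃ s : ℕ, 2 * (s : ℤ) - m = k ∧ s ≤ m
  · obtain ⟨s, hs, hsm⟩ := hk
    have hmap : (univ.filter (fun v : Fin M → Bool =>
        ∑ j, (if v j then -cc j else cc j) = k)).card ≤
        (Jᶜ.powerset ×ˢ J.powersetCard s).card := by
      refine Finset.card_le_card_of_injOn (fun v => (U v, S v)) ?_ ?_
      · intro v hv
        rw [Finset.mem_coe, Finset.mem_filter] at hv
        rw [Finset.mem_coe, Finset.mem_product, Finset.mem_powerset, Finset.mem_powersetCard]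
        refine ⟨Finset.filter_subset _ _, Finset.filter_subset _ _, ?_⟩
        have := hsum v
        rw [hv.2] at this
        have h3 : 2 * (s : ℤ) - m = 2 * ((S v).card : ℤ) - m := by rw [hs, this]
        change (S v).card = s
        omega
      · intro v _ v' _ hvv
        simp only [Prod.mk.injEq] at hvv
        obtain ⟨h1, h2⟩ := hvv
        funext j
        by_cases hj : j ∈ J
        · have h3 : j ∈ S v ↔ j ∈ S v' := by rw [h2]
          simp only [S, Finset.mem_filter, hj, true_and] at h3
          have hne := (Finset.mem_filter.1 hj).2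
          rcases hc j with h | h | h
          · exact absurd h hne
          · cases hv : v j <;> cases hv' : v' j <;> simp [h, hv, hv'] at h3 ⊢
          · cases hv : v j <;> cases hv' : v' j <;> simp [h, hv, hv'] at h3 ⊢
        · have h3 : j ∈ U v ↔ j ∈ U v' := by rw [h1]
          simp only [U, Finset.mem_filter, Finset.mem_compl, hj, not_false_iff, true_and] at h3
          cases hv : v j <;> cases hv' : v' j <;> simp [hv, hv'] at h3 ⊢
    refine hmap.trans ?_
    rw [Finset.card_product, Finset.card_powerset, Finset.card_powersetCard, Finset.card_compl,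
      Fintype.card_fin]
    exact Nat.mul_le_mul_left _ (Nat.choose_le_middle _ _)
  · have : (univ.filter (fun v : Fin M → Bool =>
        ∑ j, (if v j then -cc j else cc j) = k)) = ∅ := by
      rw [Finset.filter_eq_empty_iff]
      intro v _ hv
      apply hk
      refine ⟨(S v).card, ?_, ?_⟩
      · rw [← hsum v]; exact hv
      · exact Finset.card_le_card (Finset.filter_subset _ _)
    rw [this]
    simp

end Pool.Agent.Helper57.TW
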