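import Pool.Agent.Helper57.TW.Anti

/-!
# Anticoncentration for words with two special letters, continued
-/

namespace Pool.Agent.Helper57.TW

open Finset

set_option linter.unusedSectionVars false

section

variable {X : Type} [Fintype X] [DecidableEq X] (a b : X)

/-- The sign of a letter. -/
def kap (v : X) : ℤ := if v = a then 1 else if v = b then -1 else 0

/-- Exchange the two special letters at the marked places. -/
def tog {M : ℕ} (x : Fin M → X) (v : Fin M → Bool) : Fin M → X := fun j =>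
  if v j then Equiv.swap a b (x j) else x j

/-- The sum of the signs of the letters. -/
def ks {M : ℕ} (x : Fin M → X) : ℤ := ∑ j, kap a b (x j)

variable {a b}

lemma kap_swap (hab : a ≠ b) (v : X) : kap a b (Equiv.swap a b v) = - kap a b v := by
  by_cases h1 : v = a
  · subst h1
    rw [Equiv.swap_apply_left]
    simp [kap, hab.symm]
  · by_cases h2 : v = b
    · subst h2
      rw [Equiv.swap_apply_right]
      simp [kap, hab.symm]
    · rw [Equiv.swap_apply_of_ne_of_ne h1 h2]
      simp [kap, h1, h2]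

lemma kap_cases (v : X) : kap a b v = 0 ∨ kap a b v = 1 ∨ kap a b v = -1 := by
  unfold kap
  split_ifs
  · right; left; rfl
  · right; right; rfl
  · left; rfl

lemma tog_tog {M : ℕ} (x : Fin M → X) (v : Fin M → Bool) : tog a b (tog a b x v) v = x := by
  funext j
  simp only [tog]
  split_ifs
  · simp
  · rfl

/-- The number of special letters. -/
def msp {M : ℕ} (x : Fin M → X) : ℕ := (univ.filter (fun j => kap a b (x j) ≠ 0)).card

lemma N_bound (hab : a ≠ b) {M : ℕ} (Bad : (Fin M → X) → Prop) [DecidablePred Bad]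
    (H : ∀ x (u v w : Fin M → Bool), Bad (tog a b x u) → Bad (tog a b x v) → Bad (tog a b x w) →
      ks a b (tog a b x u) = ks a b (tog a b x v) ∨ ks a b (tog a b x u) = ks a b (tog a b x w) ∨
      ks a b (tog a b x v) = ks a b (tog a b x w)) (x : Fin M → X) :
    (univ.filter (fun u : Fin M → Bool => Bad (tog a b x u))).card ≤
      (2 ^ (M - msp (a := a) (b := b) x) * (msp (a := a) (b := b) x).choose
        (msp (a := a) (b := b) x / 2)) * 2 := by
  set E := univ.filter (fun u : Fin M → Bool => Bad (tog a b x u)) with hE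
  have h1 : (E.image (fun u => ks a b (tog a b x u))).card ≤ 2 := by
    by_contra hcon
    obtain ⟨p, q, r, hp, hq, hr, hpq, hpr, hqr⟩ := Finset.two_lt_card_iff.1 (not_le.1 hcon)
    obtain ⟨u, hu, rfl⟩ := Finset.mem_image.1 hp
    obtain ⟨v, hv, rfl⟩ := Finset.mem_image.1 hq
    obtain ⟨w, hw, rfl⟩ := Finset.mem_image.1 hr
    rcases H x u v w (Finset.mem_filter.1 hu).2 (Finset.mem_filter.1 hv).2
      (Finset.mem_filter.1 hw).2 with h | h | h
    · exact hpq h
    · exact hpr h
    · exact hqr h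
  refine (Finset.card_le_mul_card_image E _ ?_).trans (Nat.mul_le_mul_left _ h1)
  intro k _
  refine le_trans ?_ (sign_count M (fun j => kap a b (x j)) (fun j => kap_cases _) k)
  apply Finset.card_le_card
  intro u hu
  rw [Finset.mem_filter] at hu ⊢
  refine ⟨Finset.mem_univ _, ?_⟩
  rw [← hu.2, ks]
  apply Finset.sum_congr rfl
  intro j _
  simp only [tog]
  split_ifs
  · rw [kap_swap hab]
  · rfl

lemma bad_sum (hab : a ≠ b) {M : ℕ} (Bad : (Fin M → X) → Prop) [DecidablePred Bad]
    (H : ∀ x (u v w : Fin M → Bool), Bad (tog a b x u) → Bad (tog a b x v) → Bad (tog a b x w) →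
      ks a b (tog a b x u) = ks a b (tog a b x v) ∨ ks a b (tog a b x u) = ks a b (tog a b x w) ∨
      ks a b (tog a b x v) = ks a b (tog a b x w)) :
    2 ^ M * (univ.filter Bad).card ≤ ∑ x : Fin M → X,
      (2 ^ (M - msp (a := a) (b := b) x) * (msp (a := a) (b := b) x).choose
        (msp (a := a) (b := b) x / 2)) * 2 := by
  have h1 : ∀ u : Fin M → Bool, (univ.filter (fun x : Fin M → X => Bad (tog a b x u))).card =
      (univ.filter Bad).card := by
    intro u
    apply Finset.card_bij (fun x _ => tog a b x u)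
    · intro x hx
      rw [Finset.mem_filter] at hx ⊢
      exact ⟨Finset.mem_univ _, hx.2⟩
    · intro x _ y _ hxy
      have := congrArg (fun z => tog a b z u) hxy
      simpa [tog_tog] using this
    · intro y hy
      refine ⟨tog a b y u, ?_, tog_tog y u⟩
      rw [Finset.mem_filter] at hy ⊢
      exact ⟨Finset.mem_univ _, by rw [tog_tog]; exact hy.2⟩
  have h2 : ∑ u : Fin M → Bool, (univ.filter (fun x : Fin M → X => Bad (tog a b x u))).card =
      ∑ x : Fin M → X, (univ.filter (fun u : Fin M → Bool => Bad (tog a b x u))).card := by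
    simp only [Finset.card_filter]
    exact Finset.sum_comm
  have h3 : ∑ u : Fin M → Bool, (univ.filter (fun x : Fin M → X => Bad (tog a b x u))).card =
      2 ^ M * (univ.filter Bad).card := by
    rw [Finset.sum_congr rfl (fun u _ => h1 u), Finset.sum_const, smul_eq_mul,
      Finset.card_univ, Fintype.card_fun, Fintype.card_bool, Fintype.card_fin]
  rw [← h3, h2]
  exact Finset.sum_le_sum (fun x _ => N_bound hab Bad H x)

lemma bad_real (hab : a ≠ b) {M : ℕ} (Bad : (Fin M → X) → Prop) [DecidablePred Bad]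
    (H : ∀ x (u v w : Fin M → Bool), Bad (tog a b x u) → Bad (tog a b x v) → Bad (tog a b x w) →
      ks a b (tog a b x u) = ks a b (tog a b x v) ∨ ks a b (tog a b x u) = ks a b (tog a b x w) ∨
      ks a b (tog a b x v) = ks a b (tog a b x w)) :
    ((univ.filter Bad).card : ℝ) ≤ 2 * ∑ x : Fin M → X,
      Real.sqrt (1 / ((msp (a := a) (b := b) x : ℝ) + 1)) := by
  have h := bad_sum hab Bad H
  have hm : ∀ x : Fin M → X, msp (a := a) (b := b) x ≤ M := fun x => by
    refine (Finset.card_le_univ _).trans ?_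
    simp
  have hterm : ∀ x : Fin M → X, ((2 ^ (M - msp (a := a) (b := b) x) *
      (msp (a := a) (b := b) x).choose (msp (a := a) (b := b) x / 2) * 2 : ℕ) : ℝ) ≤
      2 ^ M * (2 * Real.sqrt (1 / ((msp (a := a) (b := b) x : ℝ) + 1))) := by
    intro x
    set m := msp (a := a) (b := b) x with hmdef
    have h1 : ((m.choose (m / 2) : ℕ) : ℝ) ≤ 2 ^ m * Real.sqrt (1 / ((m : ℝ) + 1)) := by
      have h2 : ((m.choose (m / 2) : ℕ) : ℝ) ^ 2 * ((m : ℝ) + 1) ≤ 4 ^ m := by
        exact_mod_cast middle_bound m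
      have h3 : (0 : ℝ) < (m : ℝ) + 1 := by positivity
      have h4 : ((m.choose (m / 2) : ℕ) : ℝ) ^ 2 ≤
          (2 ^ m * Real.sqrt (1 / ((m : ℝ) + 1))) ^ 2 := by
        rw [mul_pow, Real.sq_sqrt (by positivity), mul_one_div, le_div_iff₀ h3]
        calc ((m.choose (m / 2) : ℕ) : ℝ) ^ 2 * ((m : ℝ) + 1) ≤ 4 ^ m := h2
          _ = (2 ^ m) ^ 2 := by rw [← pow_mul, mul_comm m 2, pow_mul]; norm_num
      exact le_of_sq_le_sq h4 (by positivity)
    have h5 : (2 : ℝ) ^ M = 2 ^ (M - m) * 2 ^ m := by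
      rw [← pow_add, Nat.sub_add_cancel (hm x)]
    push_cast
    rw [h5]
    have h6 : (0 : ℝ) ≤ 2 ^ (M - m) := by positivity
    nlinarith [mul_le_mul_of_nonneg_left h1 h6]
  have h7 : (2 : ℝ) ^ M * ((univ.filter Bad).card : ℝ) ≤ 2 ^ M * (2 * ∑ x : Fin M → X,
      Real.sqrt (1 / ((msp (a := a) (b := b) x : ℝ) + 1))) := by
    calc (2 : ℝ) ^ M * ((univ.filter Bad).card : ℝ)
        = ((2 ^ M * (univ.filter Bad).card : ℕ) : ℝ) := by push_cast; ring
      _ ≤ ((∑ x : Fin M → X, (2 ^ (M - msp (a := a) (b := b) x) *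
          (msp (a := a) (b := b) x).choose (msp (a := a) (b := b) x / 2)) * 2 : ℕ) : ℝ) := by
          exact_mod_cast h
      _ ≤ ∑ x : Fin M → X, 2 ^ M * (2 * Real.sqrt (1 / ((msp (a := a) (b := b) x : ℝ) + 1))) := by
          rw [Nat.cast_sum]
          exact Finset.sum_le_sum fun x _ => hterm x
      _ = _ := by rw [← Finset.mul_sum, ← Finset.mul_sum]
  exact le_of_mul_le_mul_left h7 (by positivity)

lemma sum_pow_msp (hab : a ≠ b) (M : ℕ) (s : ℝ) : ∑ x : Fin M → X, s ^ (msp (a := a) (b := b) x) =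
    (2 * s + ((Fintype.card X : ℝ) - 2)) ^ M := by
  have h1 : ∑ v : X, (if kap a b v ≠ 0 then s else 1) = 2 * s + ((Fintype.card X : ℝ) - 2) := by
    have h2 : ∀ v : X, (if kap a b v ≠ 0 then s else 1) =
        1 + ((if v = a then s - 1 else 0) + (if v = b then s - 1 else 0)) := by
      intro v
      by_cases h1 : v = a
      · subst h1
        simp [kap, hab]
      · by_cases h2 : v = b
        · subst h2
          simp [kap, h1]
        · simp [kap, h1, h2]
    rw [Finset.sum_congr rfl (fun v _ => h2 v), Finset.sum_add_distrib, Finset.sum_add_distrib,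
      Finset.sum_ite_eq', Finset.sum_ite_eq']
    simp
    ring
  rw [← h1, Fintype.sum_pow]
  apply Finset.sum_congr rfl
  intro x _
  rw [msp, Finset.prod_ite, Finset.prod_const, Finset.prod_const_one, mul_one]

lemma sum_inv_msp (hab : a ≠ b) (M : ℕ) :
    ∑ x : Fin M → X, 1 / ((msp (a := a) (b := b) x : ℝ) + 1) ≤
      (Fintype.card X : ℝ) ^ (M + 1) / (2 * (M + 1)) := by
  have ht : (2 : ℝ) ≤ Fintype.card X := by
    have : 1 < Fintype.card X := Fintype.one_lt_card_iff.2 ⟨a, b, hab⟩
    exact_mod_cast this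
  have h1 : ∫ s in (0 : ℝ)..1, ∑ x : Fin M → X, s ^ (msp (a := a) (b := b) x) =
      ∑ x : Fin M → X, 1 / ((msp (a := a) (b := b) x : ℝ) + 1) := by
    rw [intervalIntegral.integral_finsetSum]
    · apply Finset.sum_congr rfl
      intro x _
      rw [integral_pow]
      simp
    · intro x _
      exact (continuous_pow _).intervalIntegrable _ _
  have h2 : ∫ s in (0 : ℝ)..1, ∑ x : Fin M → X, s ^ (msp (a := a) (b := b) x) =
      ∫ s in (0 : ℝ)..1, (fun y : ℝ => y ^ M) (2 * s + ((Fintype.card X : ℝ) - 2)) := by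
    apply intervalIntegral.integral_congr
    intro s _
    exact sum_pow_msp hab M s
  rw [← h1, h2, intervalIntegral.integral_comp_mul_add (fun y : ℝ => y ^ M)
    (by norm_num : (2 : ℝ) ≠ 0), integral_pow, smul_eq_mul]
  have e1 : (2 : ℝ) * 1 + ((Fintype.card X : ℝ) - 2) = Fintype.card X := by ring
  have e2 : (2 : ℝ) * 0 + ((Fintype.card X : ℝ) - 2) = Fintype.card X - 2 := by ring
  rw [e1, e2]
  have h3 : (0 : ℝ) ≤ ((Fintype.card X : ℝ) - 2) ^ (M + 1) := by
    apply pow_nonneg; linarith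
  rw [show (2 : ℝ)⁻¹ * (((Fintype.card X : ℝ) ^ (M + 1) - ((Fintype.card X : ℝ) - 2) ^ (M + 1)) /
    ((M : ℝ) + 1)) = ((Fintype.card X : ℝ) ^ (M + 1) - ((Fintype.card X : ℝ) - 2) ^ (M + 1)) /
    (2 * ((M : ℝ) + 1)) by field_simp]
  gcongr
  linarith

theorem bad_final (hab : a ≠ b) {M : ℕ} (Bad : (Fin M → X) → Prop) [DecidablePred Bad]
    (H : ∀ x (u v w : Fin M → Bool), Bad (tog a b x u) → Bad (tog a b x v) → Bad (tog a b x w) →
      ks a b (tog a b x u) = ks a b (tog a b x v) ∨ ks a b (tog a b x u) = ks a b (tog a b x w) ∨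
      ks a b (tog a b x v) = ks a b (tog a b x w)) :
    ((univ.filter Bad).card : ℝ) ≤ (Fintype.card X : ℝ) ^ M *
      Real.sqrt (2 * Fintype.card X / (M + 1)) := by
  have h1 := bad_real hab Bad H
  have h2 := sum_inv_msp (X := X) hab M
  set t : ℝ := (Fintype.card X : ℝ) with ht
  have ht0 : 0 ≤ t := by rw [ht]; positivity
  have hcs : (∑ x : Fin M → X, Real.sqrt (1 / ((msp (a := a) (b := b) x : ℝ) + 1))) ^ 2 ≤
      t ^ M * ∑ x : Fin M → X, 1 / ((msp (a := a) (b := b) x : ℝ) + 1) := by
    have := sq_sum_le_card_mul_sum_sq (s := (univ : Finset (Fin M → X)))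
      (f := fun x => Real.sqrt (1 / ((msp (a := a) (b := b) x : ℝ) + 1)))
    rw [Finset.card_univ, Fintype.card_fun, Fintype.card_fin] at this
    push_cast at this
    refine this.trans (le_of_eq ?_)
    congr 1
    apply Finset.sum_congr rfl
    intro x _
    rw [Real.sq_sqrt (by positivity)]
  set Sg := ∑ x : Fin M → X, Real.sqrt (1 / ((msp (a := a) (b := b) x : ℝ) + 1)) with hSg
  have hSg0 : 0 ≤ Sg := Finset.sum_nonneg fun _ _ => Real.sqrt_nonneg _
  have h3 : (2 * Sg) ^ 2 ≤ (t ^ M * Real.sqrt (2 * t / (M + 1))) ^ 2 := by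
    rw [mul_pow, mul_pow, Real.sq_sqrt (by positivity)]
    calc (2 : ℝ) ^ 2 * Sg ^ 2 ≤ 2 ^ 2 * (t ^ M * (t ^ (M + 1) / (2 * (M + 1)))) := by
          gcongr
          exact hcs.trans (mul_le_mul_of_nonneg_left h2 (by positivity))
      _ = (t ^ M) ^ 2 * (2 * t / (M + 1)) := by
          rw [pow_succ]
          field_simp
          ring
  exact h1.trans (le_of_sq_le_sq h3 (by positivity))

end

end Pool.Agent.Helper57.TW
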