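import Pool.Agent.Helper57.TW.Two

/-!
# At most two members of a family with `|l| ≥ 2`: end of the proof
-/

namespace Pool.Agent.Helper57.TW

open Pool.Agent.Helper2 LaurentPolynomial

lemma unip {A : Type*} [Ring A] (U : Aˣ) (X : A) (hU : (U : A) = 1 + X) (hX : X * X * X = 0)
    (k : ℤ) : (2 : ℤ) • ((U ^ k : Aˣ) : A) =
      (2 : ℤ) • (1 : A) + (2 * k) • X + (k * (k - 1)) • (X * X) := by
  have step : ∀ k : ℤ, ((2 : ℤ) • (1 : A) + (2 * k) • X + (k * (k - 1)) • (X * X)) * (U : A) =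
      (2 : ℤ) • (1 : A) + (2 * (k + 1)) • X + ((k + 1) * ((k + 1) - 1)) • (X * X) := by
    intro k
    rw [hU]
    simp only [add_mul, mul_add, smul_mul_assoc, one_mul, mul_one, hX, smul_zero, add_zero]
    module
  induction k using Int.induction_on with
  | zero => simp
  | succ k ih =>
    rw [zpow_add_one, Units.val_mul, ← smul_mul_assoc, ih, step]
  | pred k ih =>
    have h1 := step (-(k : ℤ) - 1)
    rw [sub_add_cancel] at h1
    rw [zpow_sub_one, Units.val_mul, ← smul_mul_assoc, ih, ← h1, mul_assoc, Units.mul_inv, mul_one]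

theorem at_most_two_aux {R : Type} [CommRing R] (S : Small R) (P Q : List Slice) (o : List Bool) (hP : dirsAbove P [] = some o) (i n : ℕ)
    (hin : i + n ≤ o.length) (hn : 1 ≤ n) (hK : IsKnotDiagram (P ++ Q))
    (hl : 2 ≤ |strength o i n|) (k₁ k₂ k₃ : ℤ) (h12 : k₁ ≠ k₂) (h13 : k₁ ≠ k₃) (h23 : k₂ ≠ k₃)
    (h1 : fPoly (P ++ (twists i n k₁ ++ Q)) = 1) (h2 : fPoly (P ++ (twists i n k₂ ++ Q)) = 1)
    (h3 : fPoly (P ++ (twists i n k₃ ++ Q)) = 1) : False := by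
  set l := strength o i n with hldef
  set s : ℕ → Bool := fun _ => true
  set v : (ℕ → Bool) → R := (VO S.z).run P (fun _ => 1) with hv
  -- first order
  obtain ⟨Y, hY⟩ : Cong S.e (F (xs S.z true) i n) (1 + S.e • t1 i n) := by
    have := F_first (R := R) (ε := S.e) S.cube (rfl : (S.z : R) = 1 + S.e)
      (rfl : ((S.z⁻¹ : Rˣ) : R) = 1 - S.e + S.e * S.e) i n
    exact this
  set c0 : Rˣ := S.z ^ (-3 * (l ^ 2 - n)) with hc0
  obtain ⟨r, hr⟩ := S.z_pow (-3 * (l ^ 2 - n))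
  set X : EE R := (c0 : R) • F (xs S.z true) i n - 1 with hX
  set N1 : EE R := Cas i n - (3 * (l : R) ^ 2) • (1 : EE R) with hN1
  have hN1' : N1 = t1 i n + (((-3 * (l ^ 2 - n) : ℤ)) : R) • (1 : EE R) := by
    rw [hN1, cas_eq]
    push_cast
    module
  obtain ⟨Z, hZ⟩ : ∃ Z : EE R, X = S.e • (N1 + S.e • Z) := by
    refine ⟨r • (1 : EE R) + (((-3 * (l ^ 2 - n) : ℤ)) : R) • t1 i n + Y + S.e • (r • t1 i n +
      (((-3 * (l ^ 2 - n) : ℤ)) : R) • Y) + (S.e * S.e) • (r • Y), ?_⟩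
    rw [hX, hY, hN1', hc0, hr]
    module
  have hXX : X * X = (S.e * S.e) • (N1 * N1) := by
    rw [hZ]
    simp only [smul_mul_assoc, mul_smul_comm, mul_add, add_mul, smul_add, smul_smul]
    have e1 : S.e * S.e * S.e = 0 := S.cube
    have e2 : S.e * (S.e * S.e) = 0 := by rw [← mul_assoc]; exact e1
    simp only [e2, mul_assoc, zero_smul, add_zero, mul_zero]
  have hXXX : X * X * X = 0 := by
    rw [hXX, hZ]
    simp only [smul_mul_assoc, mul_smul_comm, smul_smul]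
    have e1 : S.e * (S.e * S.e) = 0 := by rw [← mul_assoc]; exact S.cube
    rw [e1, zero_smul]
  -- the unit
  set U : (EE R)ˣ := (Units.map (algebraMap R (EE R)).toMonoidHom c0) * fu S.z i n with hU
  have hUX : (U : EE R) = 1 + X := by
    rw [hX, hU, Units.val_mul]
    have e1 : ((Units.map (algebraMap R (EE R)).toMonoidHom c0 : (EE R)ˣ) : EE R) =
      algebraMap R (EE R) (c0 : R) := rfl
    have e2 : ((fu S.z i n : (EE R)ˣ) : EE R) = F (xs S.z true) i n := rfl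
    rw [e1, e2, ← Algebra.smul_def]
    abel
  have hUk : ∀ k : ℤ, ((U ^ k : (EE R)ˣ) : EE R) =
      ((c0 ^ k : Rˣ) : R) • ((fu S.z i n ^ k : (EE R)ˣ) : EE R) := by
    intro k
    have hcomm : Commute (Units.map (algebraMap R (EE R)).toMonoidHom c0) (fu S.z i n) := by
      apply Units.ext
      exact Algebra.commutes _ _
    rw [hU, hcomm.mul_zpow, Units.val_mul, ← map_zpow, Algebra.smul_def]
    rfl
  -- linear functional
  have hadd : ∀ φ ψ : (ℕ → Bool) → R, (VO S.z).run Q (φ + ψ) s =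
      (VO S.z).run Q φ s + (VO S.z).run Q ψ s := fun φ ψ =>
    congrFun ((VM S.z).run_add S.z Q φ ψ) s
  have hsmul : ∀ (c : R) (ψ : (ℕ → Bool) → R), (VO S.z).run Q (c • ψ) s =
      c * (VO S.z).run Q ψ s := fun c ψ => congrFun ((VM S.z).run_smul S.z Q c ψ) s
  set a := (VO S.z).run Q v s with ha
  set b := (VO S.z).run Q (X v) s with hb
  set c := (VO S.z).run Q ((X * X) v) s with hc
  have hG : ∀ k : ℤ, (2 : R) * ((c0 ^ k : Rˣ) * (VO S.z).run Q
      (((fu S.z i n ^ k : (EE R)ˣ) : EE R) v) s) =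
      2 * a + (2 * k : ℤ) * b + (k * (k - 1) : ℤ) * c := by
    intro k
    rw [← hsmul]
    have e1 : ((c0 ^ k : Rˣ) : R) • (((fu S.z i n ^ k : (EE R)ˣ) : EE R) v) =
        ((U ^ k : (EE R)ˣ) : EE R) v := by rw [hUk]; rfl
    rw [e1, ← hsmul]
    have e2 := congrArg (fun T : EE R => T v) (unip U X hUX hXXX k)
    beta_reduce at e2
    have e3 : ((2 : ℤ) • ((U ^ k : (EE R)ˣ) : EE R)) v =
        (2 : R) • (((U ^ k : (EE R)ˣ) : EE R) v) := by
      rw [LinearMap.smul_apply]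
      funext t
      simp
    have e4 : ((2 : ℤ) • (1 : EE R) + (2 * k) • X + (k * (k - 1)) • (X * X)) v =
        ((2 : R) • v + ((2 * k : ℤ) : R) • (X v)) + ((k * (k - 1) : ℤ) : R) • ((X * X) v) := by
      funext t
      simp
      ring
    rw [e3, e4] at e2
    rw [e2, hadd, hadd, hsmul, hsmul, hsmul]
  -- the values
  set u0 : R := (-1) ^ (writhe (P ++ Q)).natAbs * ((S.z ^ (-3 * writhe (P ++ Q)) : Rˣ) : R)
    with hu0
  have hu0unit : IsUnit u0 := by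
    rw [hu0]
    exact ((isUnit_one.neg).pow _).mul (Units.isUnit _)
  have hval : ∀ k : ℤ, fPoly (P ++ (twists i n k ++ Q)) = 1 →
      2 * ev S.z loopVal = u0 * (2 * a + (2 * k : ℤ) * b + (k * (k - 1) : ℤ) * c) := by
    intro k hk
    have e1 := twist_formula S.z P Q o hP i n hin hK.1 hn s k
    rw [hk, map_one, mul_one, ← hldef, ← hc0, ← hu0, ← hv] at e1
    rw [e1, ← hG k]
    ring
  have hdiv := S.div
  have hdiff : ∀ k k' : ℤ, k ≠ k' → fPoly (P ++ (twists i n k ++ Q)) = 1 →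
      fPoly (P ++ (twists i n k' ++ Q)) = 1 → 2 * b + ((k + k' - 1 : ℤ) : R) * c = 0 := by
    intro k k' hkk hk hk'
    have e1 := (hval k hk).symm.trans (hval k' hk')
    have e2 := hu0unit.mul_left_cancel e1
    apply hdiv (k - k') _ (sub_ne_zero.2 hkk)
    push_cast at e2 ⊢
    linear_combination e2
  have g12 := hdiff k₁ k₂ h12 h1 h2
  have g13 := hdiff k₁ k₃ h13 h1 h3
  have hc0' : c = 0 := by
    apply hdiv (k₂ - k₃) _ (sub_ne_zero.2 h23)
    push_cast at g12 g13 ⊢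
    linear_combination g12 - g13
  -- reduction
  have hc1 : S.e * S.e * (VO S.z).run Q ((N1 * N1) v) s = 0 := by
    rw [← hc0', hc, hXX, LinearMap.smul_apply, hsmul]
  have hc2 := S.sq _ hc1
  rw [run_tp S] at hc2
  have hvt : (fun t => S.p (v t)) = (VO (1 : ℚˣ)).run P (fun _ => 1) := by
    funext t
    rw [hv, run_tp S]
    simp only [map_one]
  have hN1v : ∀ ψ : (ℕ → Bool) → R, (fun t => S.p (N1 ψ t)) =
      (Cas i n - (3 * (l : ℚ) ^ 2) • (1 : EE ℚ) : EE ℚ) (fun t => S.p (ψ t)) := by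
    intro ψ
    funext t
    have e1 : N1 ψ t = Cas i n ψ t - 3 * (l : R) ^ 2 * ψ t := rfl
    have e2 : ((Cas i n - (3 * (l : ℚ) ^ 2) • (1 : EE ℚ) : EE ℚ) fun t => S.p (ψ t)) t =
      Cas i n (fun t => S.p (ψ t)) t - 3 * (l : ℚ) ^ 2 * S.p (ψ t) := rfl
    rw [e1, e2, ← Cas_tp S, map_sub, map_mul, map_mul, map_pow, map_intCast]
    have t3 : S.p 3 = 3 := map_ofNat S.p 3
    rw [t3]
  have hc3 : (fun t => S.p (((N1 * N1) v) t)) =
      ((Cas i n - (3 * (l : ℚ) ^ 2) • (1 : EE ℚ)) * (Cas i n - (3 * (l : ℚ) ^ 2) • (1 : EE ℚ)) :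
        EE ℚ) ((VO (1 : ℚˣ)).run P (fun _ => 1)) := by
    rw [← hvt, Module.End.mul_apply, Module.End.mul_apply, hN1v, hN1v]
  rw [hc3, phi_value P Q o hP i n hin hn hK s] at hc2
  have hl2 : (4 * (l : ℚ) ^ 2 - 4 * (l : ℚ) ^ 4) ≠ 0 := by
    have e1 : (4 : ℤ) ≤ l ^ 2 := by
      rw [← sq_abs]; nlinarith
    have e2 : (4 * l ^ 2 - 4 * l ^ 4 : ℤ) ≠ 0 := by
      nlinarith
    exact_mod_cast e2
  have hzero := (mul_eq_zero.1 hc2).resolve_left hl2
  -- contradiction at `z = 1`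
  have hF1 : fu (1 : ℚˣ) i n = 1 := by
    apply Units.ext
    obtain ⟨Y', hY'⟩ := F_first (R := ℚ) (ε := 0) (z := 1) (w := 1) (by simp) (by simp) (by simp)
      i n
    have e1 : ((fu (1 : ℚˣ) i n : (EE ℚ)ˣ) : EE ℚ) =
        F (cr (1 : ℚ) (1 : ℚ) (sCup (1 : ℚ)) (sCap (1 : ℚ))) i n := by
      change F (xs (1 : ℚˣ) true) i n = _
      simp [xs]
    rw [e1, hY']
    simp
  have e1 := twist_formula (1 : ℚˣ) P Q o hP i n hin hK.1 hn s k₁
  rw [h1, map_one, mul_one, hF1, one_zpow, one_zpow, one_zpow, one_zpow] at e1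
  have e2 : ((1 : (EE ℚ)ˣ) : EE ℚ) ((VO (1 : ℚˣ)).run P (fun _ => 1)) =
    (VO (1 : ℚˣ)).run P (fun _ => 1) := rfl
  rw [e2, hzero, mul_zero, mul_zero, loopVal, map_neg, map_add, ev_T, ev_T, one_zpow,
    one_zpow] at e1
  norm_num at e1

theorem at_most_two (P Q : List Slice) (o : List Bool) (hP : dirsAbove P [] = some o) (i n : ℕ)
    (hin : i + n ≤ o.length) (hn : 1 ≤ n) (hK : IsKnotDiagram (P ++ Q))
    (hl : 2 ≤ |strength o i n|) (k₁ k₂ k₃ : ℤ) (h12 : k₁ ≠ k₂) (h13 : k₁ ≠ k₃) (h23 : k₂ ≠ k₃)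
    (h1 : fPoly (P ++ (twists i n k₁ ++ Q)) = 1) (h2 : fPoly (P ++ (twists i n k₂ ++ Q)) = 1)
    (h3 : fPoly (P ++ (twists i n k₃ ++ Q)) = 1) : False :=
  at_most_two_aux smallTR P Q o hP i n hin hn hK hl k₁ k₂ k₃ h12 h13 h23 h1 h2 h3

end Pool.Agent.Helper57.TW
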