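import Mathlib

/-!
# Real exponential sums with few terms have few zeros
-/

namespace Pool.Agent.Helper57.TW

open Polynomial

lemma signVar_lt (n : ℕ) : ∀ (p : ℝ[X]), p.support.card = n → p ≠ 0 →
    p.signVariations + 1 ≤ n := by
  induction n with
  | zero =>
    intro p h hp
    exact absurd (Polynomial.card_support_eq_zero.1 h) hp
  | succ n ih =>
    intro p h hp
    have h1 := signVariations_eq_eraseLead_add_ite hp
    have h2 : p.eraseLead.support.card = n := Polynomial.card_support_eraseLead' h
    by_cases h0 : p.eraseLead = 0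
    · rw [h0] at h1
      have h3 : p.signVariations = 0 := by
        have : p = C p.leadingCoeff * X ^ p.natDegree := by
          have := Polynomial.eraseLead_add_C_mul_X_pow p
          rw [h0, zero_add] at this
          exact this.symm
        rw [this, Polynomial.C_mul_X_pow_eq_monomial]
        exact signVariations_monomial _ _
      omega
    · have h3 := ih _ h2 h0
      have h4 : p.signVariations ≤ p.eraseLead.signVariations + 1 := by
        rw [h1]
        split_ifs <;> omega
      omega

lemma sparse (E : Finset ℕ) (p : ℝ[X]) (hp : p.support ⊆ E) (S : Finset ℝ)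
    (hpos : ∀ x ∈ S, 0 < x) (hroot : ∀ x ∈ S, p.eval x = 0) (hcard : E.card ≤ S.card) :
    p = 0 := by
  by_contra hne
  have h1 := signVar_lt _ p rfl hne
  have h2 := Finset.card_le_card hp
  have h3 := roots_countP_pos_le_signVariations p
  have h4 : S.card ≤ p.roots.countP (0 < ·) := by
    rw [Multiset.countP_eq_card_filter]
    have : S.val ≤ p.roots.filter (0 < ·) := by
      rw [Multiset.le_iff_subset S.nodup]
      intro x hx
      rw [Multiset.mem_filter, Polynomial.mem_roots hne]
      exact ⟨hroot x hx, hpos x hx⟩
    exact Multiset.card_le_card this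
  omega

/-- An exponential sum with as many zeros as terms vanishes. -/
theorem expsum_zero (z : ℝ) (hz : 1 < z) (E : Finset ℤ) (c : ℤ → ℝ) (S : Finset ℤ)
    (h : ∀ k ∈ S, ∑ e ∈ E, c e * z ^ (k * e) = 0) (hcard : E.card ≤ S.card) :
    ∀ e ∈ E, c e = 0 := by
  classical
  obtain ⟨N, hN⟩ : ∃ N : ℕ, ∀ e ∈ E, 0 ≤ e + N := by
    refine ⟨∑ e ∈ E, e.natAbs, fun e he => ?_⟩
    have : e.natAbs ≤ ∑ e ∈ E, e.natAbs :=
      Finset.single_le_sum (f := fun e : ℤ => e.natAbs) (fun _ _ => Nat.zero_le _) he
    omega
  have hz0 : (0 : ℝ) < z := by linarith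
  set p : ℝ[X] := ∑ e ∈ E, monomial (e + N).toNat (c e) with hp
  have hinj : Set.InjOn (fun e : ℤ => (e + N).toNat) E := by
    intro a ha b hb hab
    have h1 := hN a ha
    have h2 := hN b hb
    simp only at hab
    omega
  have hcoef : ∀ e ∈ E, p.coeff (e + N).toNat = c e := by
    intro e he
    rw [hp, Polynomial.finsetSum_coeff, Finset.sum_eq_single e]
    · simp
    · intro b hb hne
      rw [Polynomial.coeff_monomial, if_neg]
      intro hcon
      exact hne (hinj hb he hcon)
    · intro hcon; exact absurd he hcon
  have hsupp : p.support ⊆ E.image (fun e : ℤ => (e + N).toNat) := by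
    intro m hm
    rw [Polynomial.mem_support_iff] at hm
    by_contra hcon
    apply hm
    rw [hp, Polynomial.finsetSum_coeff]
    apply Finset.sum_eq_zero
    intro e he
    rw [Polynomial.coeff_monomial, if_neg]
    intro h1
    exact hcon (Finset.mem_image.2 ⟨e, he, h1⟩)
  have hmono : Function.Injective (fun k : ℤ => z ^ k) := zpow_right_injective₀ hz0 hz.ne'
  have hzero : p = 0 := by
    refine sparse _ p hsupp (S.image fun k : ℤ => z ^ k) ?_ ?_ ?_
    · intro x hx
      obtain ⟨k, _, rfl⟩ := Finset.mem_image.1 hx
      positivity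
    · intro x hx
      obtain ⟨k, hk, rfl⟩ := Finset.mem_image.1 hx
      have h1 := h k hk
      rw [hp, Polynomial.eval_finsetSum]
      have h2 : ∀ e ∈ E, (monomial (e + N).toNat (c e)).eval (z ^ k) =
          z ^ (k * N) * (c e * z ^ (k * e)) := by
        intro e he
        rw [Polynomial.eval_monomial, ← zpow_natCast, ← zpow_mul, Int.toNat_of_nonneg (hN e he),
          mul_add, zpow_add₀ hz0.ne']
        ring
      rw [Finset.sum_congr rfl h2, ← Finset.mul_sum, h1, mul_zero]
    · rw [Finset.card_image_of_injOn hinj, Finset.card_image_of_injective _ hmono]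
      exact hcard
  intro e he
  rw [← hcoef e he, hzero]
  simp

end Pool.Agent.Helper57.TW
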