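import Mathlib

/-!
# Spectral decomposition
-/

namespace Pool.Agent.Helper57.TW

open Polynomial

theorem spectral {K A : Type*} [Field K] [Ring A] [Algebra K A] (f : Aˣ) (N : ℕ) (hN : N ≠ 0)
    (μ : ℕ → K) (hinj : Set.InjOn μ (Finset.range N : Set ℕ)) (hμ : ∀ t, μ t ≠ 0)
    (h : aeval (f : A) (∏ t ∈ Finset.range N, (X - C (μ t))) = 0) :
    ∃ e : ℕ → A, ∀ k : ℤ, ((f ^ k : Aˣ) : A) = ∑ t ∈ Finset.range N, (μ t ^ k) • e t := by
  classical
  refine ⟨fun t => aeval (f : A) (Lagrange.basis (Finset.range N) μ t), fun k => ?_⟩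
  have hone : ∑ t ∈ Finset.range N, Lagrange.basis (Finset.range N) μ t = 1 :=
    Lagrange.sum_basis hinj (by simpa using hN)
  have hbas : ∀ t ∈ Finset.range N, (X - C (μ t)) * Lagrange.basis (Finset.range N) μ t =
      C (Lagrange.nodalWeight (Finset.range N) μ t) *
        (∏ s ∈ Finset.range N, (X - C (μ s))) := by
    intro t ht
    rw [Lagrange.basis_eq_prod_sub_inv_mul_nodal_div ht, ← Lagrange.nodal_erase_eq_nodal_div ht]
    have := Lagrange.nodal_eq_mul_nodal_erase (v := μ) ht
    have h2 : (∏ s ∈ Finset.range N, (X - C (μ s))) = Lagrange.nodal (Finset.range N) μ := rfl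
    rw [h2, this]
    ring
  have hf : ∀ t ∈ Finset.range N, (f : A) * aeval (f : A) (Lagrange.basis (Finset.range N) μ t) =
      (μ t) • aeval (f : A) (Lagrange.basis (Finset.range N) μ t) := by
    intro t ht
    have := congrArg (aeval (f : A)) (hbas t ht)
    rw [map_mul, map_mul, h, mul_zero, map_sub, aeval_X, aeval_C, sub_mul, sub_eq_zero] at this
    rw [this, Algebra.smul_def]
  have hfinv : ∀ t ∈ Finset.range N, ((f⁻¹ : Aˣ) : A) *
      aeval (f : A) (Lagrange.basis (Finset.range N) μ t) =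
      (μ t)⁻¹ • aeval (f : A) (Lagrange.basis (Finset.range N) μ t) := by
    intro t ht
    have h1 := hf t ht
    have h2 := congrArg (fun x => (μ t)⁻¹ • (((f⁻¹ : Aˣ) : A) * x)) h1
    simp only [mul_smul_comm, smul_smul, inv_mul_cancel₀ (hμ t), one_smul] at h2
    rw [← mul_assoc, Units.inv_mul, one_mul] at h2
    exact h2.symm
  have hpow : ∀ t ∈ Finset.range N, ∀ m : ℕ, ((f : A)) ^ m *
      aeval (f : A) (Lagrange.basis (Finset.range N) μ t) =
      (μ t ^ m) • aeval (f : A) (Lagrange.basis (Finset.range N) μ t) := by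
    intro t ht m
    induction m with
    | zero => simp
    | succ m ih => rw [pow_succ, mul_assoc, hf t ht, mul_smul_comm, ih, smul_smul, pow_succ,
        mul_comm]
  have hpow' : ∀ t ∈ Finset.range N, ∀ m : ℕ, (((f⁻¹ : Aˣ) : A)) ^ m *
      aeval (f : A) (Lagrange.basis (Finset.range N) μ t) =
      ((μ t)⁻¹ ^ m) • aeval (f : A) (Lagrange.basis (Finset.range N) μ t) := by
    intro t ht m
    induction m with
    | zero => simp
    | succ m ih => rw [pow_succ, mul_assoc, hfinv t ht, mul_smul_comm, ih, smul_smul, pow_succ,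
        mul_comm]
  have hk : ∀ t ∈ Finset.range N, ((f ^ k : Aˣ) : A) *
      aeval (f : A) (Lagrange.basis (Finset.range N) μ t) =
      (μ t ^ k) • aeval (f : A) (Lagrange.basis (Finset.range N) μ t) := by
    intro t ht
    rcases le_or_gt 0 k with hk | hk
    · obtain ⟨m, rfl⟩ := Int.eq_ofNat_of_zero_le hk
      rw [zpow_natCast, zpow_natCast, Units.val_pow_eq_pow_val]
      exact hpow t ht m
    · obtain ⟨m, rfl⟩ := Int.exists_eq_neg_ofNat hk.le
      rw [zpow_neg, zpow_neg, zpow_natCast, zpow_natCast, ← inv_pow, ← inv_pow,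
        Units.val_pow_eq_pow_val]
      exact hpow' t ht m
  calc ((f ^ k : Aˣ) : A) = ((f ^ k : Aˣ) : A) *
        aeval (f : A) (∑ t ∈ Finset.range N, Lagrange.basis (Finset.range N) μ t) := by
        rw [hone, map_one, mul_one]
    _ = ∑ t ∈ Finset.range N, (μ t ^ k) •
        aeval (f : A) (Lagrange.basis (Finset.range N) μ t) := by
        rw [map_sum, Finset.mul_sum]
        exact Finset.sum_congr rfl hk

end Pool.Agent.Helper57.TW
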