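import Pool.Agent.Helper57.TW.Run
import Pool.Agent.Helper57.TW.Spec
import Pool.Agent.Helper57.TW.ExpSum

/-!
# The twisting theorem: the exponential sum argument
-/

namespace Pool.Agent.Helper57.TW

open Pool.Agent.Helper2 LaurentPolynomial

/-- A Laurent polynomial vanishing at all real numbers larger than one is zero. -/
lemma laurent_zero (p : LaurentPolynomial ℤ) (h : ∀ z : ℝˣ, 1 < (z : ℝ) → ev z p = 0) :
    p = 0 := by
  obtain ⟨N, q, hq⟩ := p.exists_T_pow
  have h1 : ∀ x : ℝ, 1 < x → (q.map (Int.castRingHom ℝ)).eval x = 0 := by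
    intro x hx
    have hx0 : x ≠ 0 := by linarith
    have h2 := h (Units.mk0 x hx0) hx
    have h3 := congrArg (ev (Units.mk0 x hx0)) hq
    rw [map_mul, h2, zero_mul, ev, LaurentPolynomial.eval₂_toLaurent] at h3
    rw [Polynomial.eval_map]
    exact h3
  have h2 : q.map (Int.castRingHom ℝ) = 0 := by
    apply Polynomial.eq_zero_of_infinite_isRoot
    apply Set.Infinite.mono (s := Set.Ioi (1 : ℝ)) _ (Set.Ioi_infinite 1)
    intro x hx
    exact h1 x hx
  have h3 : q = 0 := by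
    have hinj : Function.Injective (Polynomial.map (Int.castRingHom ℝ)) :=
      Polynomial.map_injective _ (RingHom.injective_int _)
    apply hinj
    rw [h2, Polynomial.map_zero]
  rw [h3, map_zero] at hq
  have h4 : p * T N * T (-N : ℤ) = p := by
    rw [mul_assoc, ← T_add, add_neg_cancel, T_zero, mul_one]
  rw [← h4, ← hq, zero_mul]

section diagram

variable (P Q : List Slice) (o : List Bool) (hP : dirsAbove P [] = some o) (i n : ℕ)
  (hin : i + n ≤ o.length)

include hP hin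

lemma twist_dirs (k : ℤ) :
    dirsAbove (P ++ (twists i n k ++ Q)) [] = dirsAbove (P ++ Q) [] ∧
    writhe (P ++ (twists i n k ++ Q)) = writhe (P ++ Q) + k * (strength o i n ^ 2 - n) := by
  obtain ⟨t1, t2⟩ := twists_dirs o i n hin k
  obtain ⟨a1, a2⟩ := dirsAbove_append P (twists i n k ++ Q) [] o hP
  obtain ⟨b1, b2⟩ := dirsAbove_append P Q [] o hP
  obtain ⟨c1, c2⟩ := dirsAbove_append (twists i n k) Q o o t1
  refine ⟨by rw [a1, b1, c1], ?_⟩
  rw [writhe, writhe, a2, b2, c2, t2]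
  ring

lemma twist_curves (k : ℤ) : curves (P ++ (twists i n k ++ Q)) = curves (P ++ Q) := by
  have hok := ok_of_dirs P [] o hP
  have h2 := run_cnt P ⟨0, [], 0⟩ o.length ⟨by simp, by simp⟩ hok
  rw [curves, curves, List.foldl_append, List.foldl_append, List.foldl_append,
    twists_step _ i n (by rw [h2.2]; exact hin)]

theorem twist_knot (hK : IsKnotDiagram (P ++ Q)) (k : ℤ) :
    IsKnotDiagram (P ++ (twists i n k ++ Q)) := by
  obtain ⟨h1, h2⟩ := hK
  refine ⟨?_, ?_⟩
  · rw [IsDiagram, (twist_dirs P Q o hP i n hin k).1]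
    exact h1
  · rw [twist_curves P Q o hP i n hin k]
    exact h2

end diagram

/-- The exponents. -/
def ex (n : ℕ) (l : ℤ) (t : ℕ) : ℤ :=
  ((n - 2 * t : ℕ) : ℤ) ^ 2 + 2 * ((n - 2 * t : ℕ) : ℤ) - 3 * l ^ 2

lemma ex_inj (n : ℕ) (l : ℤ) : Set.InjOn (ex n l) (Finset.range (n / 2 + 1) : Set ℕ) := by
  intro s hs t ht h
  simp only [Finset.coe_range, Set.mem_Iio] at hs ht
  simp only [ex] at h
  have h1 : ((n - 2 * s : ℕ) : ℤ) = ((n - 2 * t : ℕ) : ℤ) := by
    have ha : (0 : ℤ) ≤ ((n - 2 * s : ℕ) : ℤ) := Int.natCast_nonneg _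
    have hb : (0 : ℤ) ≤ ((n - 2 * t : ℕ) : ℤ) := Int.natCast_nonneg _
    nlinarith [sq_nonneg (((n - 2 * s : ℕ) : ℤ) - ((n - 2 * t : ℕ) : ℤ))]
  omega

lemma mu_zpow (z : ℝˣ) (n t : ℕ) :
    mu (z : ℝ) ((z⁻¹ : ℝˣ) : ℝ) n t =
      (z : ℝ) ^ (((n - 2 * t : ℕ) : ℤ) ^ 2 - ((n - 2 * t : ℕ) : ℤ) - 6 * t) := by
  set m := n - 2 * t with hm
  have h1 : ((m * (m - 1) : ℕ) : ℤ) = (m : ℤ) ^ 2 - m := by
    cases m with
    | zero => simp
    | succ m => simp; ring
  rw [mu, ← hm, Units.val_inv_eq_inv_val, ← zpow_natCast, h1, inv_pow, ← zpow_natCast,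
    sub_eq_add_neg ((m : ℤ) ^ 2 - m), zpow_add₀ z.ne_zero, zpow_neg]
  push_cast
  rfl

theorem twist_sum (P Q : List Slice) (o : List Bool) (hP : dirsAbove P [] = some o) (i n : ℕ)
    (hin : i + n ≤ o.length) (hD : IsDiagram (P ++ Q)) (hne : 1 ≤ n) (z : ℝˣ)
    (hz : 1 < (z : ℝ)) : ∃ W : ℕ → ℝ, ∀ k : ℤ,
      ev z loopVal * ev z (fPoly (P ++ (twists i n k ++ Q))) =
        ∑ t ∈ Finset.range (n / 2 + 1), W t * (z : ℝ) ^ (k * ex n (strength o i n) t) := by
  set l := strength o i n with hl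
  have hz0 : (0 : ℝ) < z := by linarith
  have hPne : P ≠ [] := by
    rintro rfl
    simp only [dirsAbove, Option.some.injEq] at hP
    subst hP
    simp at hin
    omega
  -- parity
  have hpar : ∃ c : ℤ, l ^ 2 - n = 2 * c := by
    obtain ⟨pre, mid, rest, h0, h1, h2⟩ := split3 o i n hin
    have h3 : l = esum mid := by rw [hl, h0, strength_eq _ _ _ _ _ h1 h2]
    have h4 : ∀ L : List Bool, ∃ c : ℤ, esum L - L.length = 2 * c := by
      intro L
      induction L with
      | nil => exact ⟨0, by simp [esum]⟩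
      | cons b L ih =>
        obtain ⟨c, hc⟩ := ih
        cases b
        · refine ⟨c - 1, ?_⟩
          simp only [esum, List.map_cons, List.sum_cons, eps, List.length_cons] at hc ⊢
          push_cast
          linarith
        · refine ⟨c, ?_⟩
          simp only [esum, List.map_cons, List.sum_cons, eps, List.length_cons] at hc ⊢
          push_cast
          linarith
    obtain ⟨c, hc⟩ := h4 mid
    rw [← h3, h2] at hc
    have h5 : Even (l * (l - 1)) := Int.even_mul_pred_self l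
    obtain ⟨d, hd⟩ := h5
    exact ⟨c + d, by nlinarith⟩
  obtain ⟨c, hc⟩ := hpar
  -- the spectral decomposition
  have hann : Polynomial.aeval ((fu z i n : (Module.End ℝ ((ℕ → Bool) → ℝ))ˣ) :
      Module.End ℝ ((ℕ → Bool) → ℝ)) (∏ t ∈ Finset.range (n / 2 + 1),
        (Polynomial.X - Polynomial.C (mu (z : ℝ) ((z⁻¹ : ℝˣ) : ℝ) n t))) = 0 :=
    (vTL z).ann_F i n
  have hinj : Set.InjOn (mu (z : ℝ) ((z⁻¹ : ℝˣ) : ℝ) n)
      (Finset.range (n / 2 + 1) : Set ℕ) := by
    intro s hs t ht h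
    have hs' := hs
    have ht' := ht
    simp only [Finset.coe_range, Set.mem_Iio] at hs' ht'
    rw [mu_zpow z n s, mu_zpow z n t] at h
    have h1 := zpow_right_injective₀ hz0 hz.ne' h
    apply ex_inj n l hs ht
    simp only [ex]
    have e1 : ((n - 2 * s : ℕ) : ℤ) = n - 2 * s := by omega
    have e2 : ((n - 2 * t : ℕ) : ℤ) = n - 2 * t := by omega
    rw [e1, e2] at h1 ⊢
    linarith
  have hμ : ∀ t, mu (z : ℝ) ((z⁻¹ : ℝˣ) : ℝ) n t ≠ 0 := by
    intro t
    rw [mu]
    exact mul_ne_zero (pow_ne_zero _ z.ne_zero) (pow_ne_zero _ (z⁻¹).ne_zero)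
  obtain ⟨e, he⟩ := spectral (fu z i n) (n / 2 + 1) (by omega) _ hinj hμ hann
  set v : (ℕ → Bool) → ℝ := (VO z).run P (fun _ => 1) with hv
  set s0 : ℕ → Bool := fun _ => true
  have hadd : ∀ φ ψ : (ℕ → Bool) → ℝ, (VO z).run Q (φ + ψ) s0 =
      (VO z).run Q φ s0 + (VO z).run Q ψ s0 := by
    intro φ ψ
    have := (VM z).run_add z Q φ ψ
    exact congrFun this s0
  have hsmul : ∀ (c : ℝ) (ψ : (ℕ → Bool) → ℝ), (VO z).run Q (c • ψ) s0 =
      c * (VO z).run Q ψ s0 := by
    intro c ψ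
    have := (VM z).run_smul z Q c ψ
    exact congrFun this s0
  have hsum : ∀ (S : Finset ℕ) (φ : ℕ → (ℕ → Bool) → ℝ) (a : ℕ → ℝ),
      (VO z).run Q (∑ t ∈ S, a t • φ t) s0 = ∑ t ∈ S, a t * (VO z).run Q (φ t) s0 := by
    classical
    intro S φ a
    induction S using Finset.induction_on with
    | empty =>
      have := hsmul 0 0
      simpa using this
    | insert t S ht ih =>
      rw [Finset.sum_insert ht, Finset.sum_insert ht, hadd, hsmul, ih]
  set w0 := writhe (P ++ Q) with hw0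
  refine ⟨fun t => (-1) ^ w0.natAbs * (z : ℝ) ^ (-3 * w0) * (VO z).run Q (e t v) s0,
    fun k => ?_⟩
  obtain ⟨d1, d2⟩ := twist_dirs P Q o hP i n hin k
  have hok : Ok (P ++ (twists i n k ++ Q)) 0 0 := by
    apply ok_of_dirs _ [] []
    rw [d1]
    exact hD
  have hbr := congrFun (run_bracket z (P ++ (twists i n k ++ Q)) hok (by simp [hPne])) s0
  simp only [Pi.smul_apply, smul_eq_mul, mul_one] at hbr
  rw [Ops.run_append, Ops.run_append, run_twists, he k] at hbr
  have e1 : (∑ t ∈ Finset.range (n / 2 + 1),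
      (mu (z : ℝ) ((z⁻¹ : ℝˣ) : ℝ) n t ^ k) • e t) v =
      ∑ t ∈ Finset.range (n / 2 + 1), (mu (z : ℝ) ((z⁻¹ : ℝˣ) : ℝ) n t ^ k) • (e t v) := by
    rw [LinearMap.sum_apply]
    rfl
  rw [← hv, e1, hsum] at hbr
  have hf : ev z (fPoly (P ++ (twists i n k ++ Q))) = (-1) ^ w0.natAbs *
      ((z : ℝ) ^ (-3 * w0) * (z : ℝ) ^ (-3 * (k * (l ^ 2 - n)))) *
        ev z (bracket (P ++ (twists i n k ++ Q))) := by
    rw [fPoly, map_mul, map_mul, map_pow, map_neg, map_one, ev_T, d2, ← hl]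
    have h1 : ((-1 : ℝ)) ^ (w0 + k * (l ^ 2 - n)).natAbs = (-1) ^ w0.natAbs := by
      rw [hc]
      have h2 : (w0 + k * (2 * c)).natAbs % 2 = w0.natAbs % 2 := by
        have : (w0 + k * (2 * c)) = w0 + 2 * (k * c) := by ring
        rw [this]
        omega
      rw [← Nat.div_add_mod (w0 + k * (2 * c)).natAbs 2, ← Nat.div_add_mod w0.natAbs 2, h2,
        pow_add, pow_mul, pow_add, pow_mul]
      norm_num
    rw [h1, mul_add, ← zpow_add₀ z.ne_zero]
    congr 2
    rw [Units.val_zpow_eq_zpow_val]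
  rw [hf]
  have h3 : ev z loopVal * ((-1) ^ w0.natAbs * ((z : ℝ) ^ (-3 * w0) *
      (z : ℝ) ^ (-3 * (k * (l ^ 2 - n)))) * ev z (bracket (P ++ (twists i n k ++ Q)))) =
      (-1) ^ w0.natAbs * ((z : ℝ) ^ (-3 * w0) * (z : ℝ) ^ (-3 * (k * (l ^ 2 - n)))) *
      (ev z loopVal * ev z (bracket (P ++ (twists i n k ++ Q)))) := by ring
  rw [h3, ← hbr, Finset.mul_sum]
  apply Finset.sum_congr rfl
  intro t ht
  rw [Finset.mem_range] at ht
  rw [mu_zpow z n t, ← zpow_mul]
  have h4 : (z : ℝ) ^ (k * ex n l t) = (z : ℝ) ^ (-3 * (k * (l ^ 2 - n))) *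
      (z : ℝ) ^ ((((n - 2 * t : ℕ) : ℤ) ^ 2 - ((n - 2 * t : ℕ) : ℤ) - 6 * t) * k) := by
    rw [← zpow_add₀ z.ne_zero]
    congr 1
    simp only [ex]
    have e1 : ((n - 2 * t : ℕ) : ℤ) = n - 2 * t := by omega
    rw [e1]
    ring
  rw [h4]
  ring

/-- The exponential sum argument. -/
theorem twist_base (P Q : List Slice) (o : List Bool) (hP : dirsAbove P [] = some o) (i n : ℕ)
    (hin : i + n ≤ o.length) (hD : IsDiagram (P ++ Q)) (hne : 1 ≤ n) (g : LaurentPolynomial ℤ)
    (S : Finset ℤ) (hS : ∀ k ∈ S, fPoly (P ++ (twists i n k ++ Q)) = g)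
    (hcard : (insert 0 ((Finset.range (n / 2 + 1)).image (ex n (strength o i n)))).card ≤ S.card) :
    (∀ k, fPoly (P ++ (twists i n k ++ Q)) = g) ∧
      ((0 : ℤ) ∉ (Finset.range (n / 2 + 1)).image (ex n (strength o i n)) → g = 0) := by
  classical
  set l := strength o i n with hl
  set I := (Finset.range (n / 2 + 1)).image (ex n l) with hI
  have hδ : ∀ z : ℝˣ, 1 < (z : ℝ) → ev z loopVal ≠ 0 := by
    intro z hz
    rw [loopVal, map_neg, map_add, ev_T, ev_T, Units.val_zpow_eq_zpow_val,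
      Units.val_zpow_eq_zpow_val]
    have h1 : (0 : ℝ) < z := by linarith
    have h2 : (0 : ℝ) < (z : ℝ) ^ (2 : ℤ) := by positivity
    have h3 : (0 : ℝ) < (z : ℝ) ^ (-2 : ℤ) := by positivity
    intro h4
    linarith
  have key : ∀ z : ℝˣ, 1 < (z : ℝ) →
      (∀ k, ev z (fPoly (P ++ (twists i n k ++ Q))) = ev z g) ∧ ((0 : ℤ) ∉ I → ev z g = 0) := by
    intro z hz
    obtain ⟨W, hW⟩ := twist_sum P Q o hP i n hin hD hne z hz
    have hz0 : (z : ℝ) ≠ 0 := z.ne_zero
    set cc : ℤ → ℝ := fun x => (∑ t ∈ (Finset.range (n / 2 + 1)).filter (fun t => ex n l t = x),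
      W t) - (if x = 0 then ev z loopVal * ev z g else 0) with hcc
    have hfib : ∀ k : ℤ, ∑ x ∈ insert 0 I, cc x * (z : ℝ) ^ (k * x) =
        (∑ t ∈ Finset.range (n / 2 + 1), W t * (z : ℝ) ^ (k * ex n l t)) -
          ev z loopVal * ev z g := by
      intro k
      have h1 : ∑ x ∈ insert 0 I, (∑ t ∈ (Finset.range (n / 2 + 1)).filter
          (fun t => ex n l t = x), W t) * (z : ℝ) ^ (k * x) =
          ∑ t ∈ Finset.range (n / 2 + 1), W t * (z : ℝ) ^ (k * ex n l t) := by
        rw [← Finset.sum_fiberwise_of_maps_to (s := Finset.range (n / 2 + 1)) (t := insert 0 I)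
          (g := ex n l)]
        · apply Finset.sum_congr rfl
          intro x _
          rw [Finset.sum_mul]
          apply Finset.sum_congr rfl
          intro t ht
          rw [(Finset.mem_filter.1 ht).2]
        · intro t ht
          exact Finset.mem_insert_of_mem (Finset.mem_image_of_mem _ ht)
      have h2 : ∑ x ∈ insert 0 I, (if x = 0 then ev z loopVal * ev z g else 0) *
          (z : ℝ) ^ (k * x) = ev z loopVal * ev z g := by
        rw [Finset.sum_eq_single 0]
        · simp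
        · intro b _ hb
          rw [if_neg hb, zero_mul]
        · intro hcon
          exact absurd (Finset.mem_insert_self _ _) hcon
      simp only [hcc, sub_mul, Finset.sum_sub_distrib]
      rw [h1, h2]
    have hzero : ∀ k ∈ S, ∑ x ∈ insert 0 I, cc x * (z : ℝ) ^ (k * x) = 0 := by
      intro k hk
      rw [hfib, ← hW k, hS k hk, sub_self]
    have hall := expsum_zero (z : ℝ) hz (insert 0 I) cc S hzero hcard
    constructor
    · intro k
      have h1 := hfib k
      rw [Finset.sum_eq_zero (fun x hx => by rw [hall x hx, zero_mul]), ← hW k] at h1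
      have h2 := sub_eq_zero.1 h1.symm
      exact mul_left_cancel₀ (hδ z hz) h2
    · intro h0
      have h1 := hall 0 (Finset.mem_insert_self _ _)
      have h2 : (Finset.range (n / 2 + 1)).filter (fun t => ex n l t = 0) = ∅ := by
        rw [Finset.filter_eq_empty_iff]
        intro t ht h3
        exact h0 (Finset.mem_image.2 ⟨t, ht, h3⟩)
      simp only [hcc, h2, Finset.sum_empty, if_true, zero_sub, neg_eq_zero] at h1
      exact (mul_eq_zero.1 h1).resolve_left (hδ z hz)
  constructor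
  · intro k
    rw [← sub_eq_zero]
    apply laurent_zero
    intro z hz
    rw [map_sub, (key z hz).1 k, sub_self]
  · intro h0
    apply laurent_zero
    intro z hz
    exact (key z hz).2 h0

end Pool.Agent.Helper57.TW
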