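import Pool.Agent.Helper2.Diagram

/-!
# Closed braids
-/

namespace Pool.Agent.Helper57.TW

open Pool.Agent.Helper2

/-- The braid given by a word on `n` strands: the letter `(j, p)` is a crossing of the kind `p` of
the strands in positions `j` and `j + 1`. -/
def braidWord {n : ℕ} (w : List (Fin (n - 1) × Bool)) : List Slice :=
  w.map fun c => .cross (c.1 : ℕ) c.2

/-- The closure of a braid on `n` strands, all directed upwards. -/
def braidClosure (n : ℕ) (w : List (Fin (n - 1) × Bool)) : List Slice :=
  ((List.range n).map fun i => .cup i true) ++
    (braidWord w ++ ((List.range n).reverse.map Slice.cap))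

end Pool.Agent.Helper57.TW
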