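import Pool.Agent.Helper57.TW.Family
import Pool.Agent.Helper57.TW.BraidDefs

/-!
# Full twists inside braid words
-/

namespace Pool.Agent.Helper57.TW

open Pool.Agent.Helper2 LaurentPolynomial

/-- Braid words on the first `n` strands. -/
def BW (n : ℕ) (γ : List Slice) : Prop := ∀ s ∈ γ, ∃ (j : ℕ) (p : Bool), s = .cross j p ∧ j + 2 ≤ n

lemma BW.append {n : ℕ} {γ γ' : List Slice} (h : BW n γ) (h' : BW n γ') : BW n (γ ++ γ') := by
  intro s hs
  rcases List.mem_append.1 hs with hs | hs
  · exact h s hs
  · exact h' s hs

lemma around_bw (n : ℕ) (p : Bool) (k : ℕ) : k + 1 ≤ n → BW n (around 0 k p) := by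
  induction k with
  | zero => intro _ s hs; simp [around] at hs
  | succ k ih =>
    intro hk s hs
    rw [around, List.mem_cons, List.mem_append, List.mem_singleton] at hs
    rcases hs with rfl | hs | rfl
    · exact ⟨0 + k, p, rfl, by omega⟩
    · exact ih (by omega) s hs
    · exact ⟨0 + k, p, rfl, by omega⟩

lemma fullTwist_bw (n : ℕ) (p : Bool) (k : ℕ) : k ≤ n → BW n (fullTwist 0 k p) := by
  induction k with
  | zero => intro _ s hs; simp [fullTwist] at hs
  | succ k ih =>
    intro hk
    rw [fullTwist]
    exact (ih (by omega)).append (around_bw n p k hk)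

lemma around_kind (i : ℕ) (p : Bool) (k : ℕ) : ∀ s ∈ around i k p, ∃ j, s = .cross j p := by
  induction k with
  | zero => intro s hs; simp [around] at hs
  | succ k ih =>
    intro s hs
    rw [around, List.mem_cons, List.mem_append, List.mem_singleton] at hs
    rcases hs with rfl | hs | rfl
    · exact ⟨_, rfl⟩
    · exact ih s hs
    · exact ⟨_, rfl⟩

lemma fullTwist_kind (i : ℕ) (p : Bool) (k : ℕ) : ∀ s ∈ fullTwist i k p, ∃ j, s = .cross j p := by
  induction k with
  | zero => intro s hs; simp [fullTwist] at hs
  | succ k ih =>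
    intro s hs
    rw [fullTwist, List.mem_append] at hs
    rcases hs with hs | hs
    · exact ih s hs
    · exact around_kind i p k s hs

lemma around_length (i : ℕ) (p : Bool) (k : ℕ) : (around i k p).length = 2 * k := by
  induction k with
  | zero => rfl
  | succ k ih =>
    rw [around, List.length_cons, List.length_append, ih, List.length_singleton]
    ring

lemma fullTwist_length (i : ℕ) (p : Bool) (n : ℕ) : (fullTwist i n p).length = n * (n - 1) := by
  induction n with
  | zero => rfl
  | succ n ih =>
    rw [fullTwist, List.length_append, ih, around_length]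
    cases n with
    | zero => rfl
    | succ n => simp only [Nat.add_sub_cancel]; ring

lemma fullTwist_ne (i n : ℕ) (hn : 2 ≤ n) : fullTwist i n true ≠ fullTwist i n false := by
  intro h
  have hlen : 0 < (fullTwist i n true).length := by
    rw [fullTwist_length]
    exact Nat.mul_pos (by omega) (by omega)
  obtain ⟨s, hs⟩ := List.exists_mem_of_length_pos hlen
  obtain ⟨j, hj⟩ := fullTwist_kind i true n s hs
  rw [h] at hs
  obtain ⟨j', hj'⟩ := fullTwist_kind i false n s hs
  rw [hj] at hj'
  simp at hj'

section op

variable {R : Type} [CommRing R]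

lemma xs_comm_F (z : Rˣ) (n j : ℕ) (hj : j + 2 ≤ n) (p : Bool) :
    Commute (xs z p j) ((fu z 0 n : (EE R)ˣ) : EE R) := by
  have h1 : Commute (xs z true j) (F (xs z true) 0 n) :=
    (vTL z).F_comm 0 n j (Nat.zero_le _) (by omega)
  have hxy : xs z true j * xs z false j = 1 := (vTL z).inv j
  have hyx : xs z false j * xs z true j = 1 := (vTL z).yx j
  change Commute (xs z p j) (F (xs z true) 0 n)
  cases p
  · change xs z false j * F (xs z true) 0 n = F (xs z true) 0 n * xs z false j
    have h2 := h1.eq
    generalize xs z true j = x at *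
    generalize xs z false j = y at *
    generalize F (xs z true) 0 n = f at *
    calc y * f = y * (f * (x * y)) := by rw [hxy, mul_one]
      _ = y * (f * x) * y := by simp only [mul_assoc]
      _ = (y * x) * f * y := by rw [← h2]; simp only [mul_assoc]
      _ = f * y := by rw [hyx, one_mul]
  · exact h1

lemma run_comm_F (z : Rˣ) (n : ℕ) (γ : List Slice) (hγ : BW n γ) (k : ℤ) :
    ∀ ψ : (ℕ → Bool) → R, (VO z).run γ (((fu z 0 n ^ k : (EE R)ˣ) : EE R) ψ) =
      ((fu z 0 n ^ k : (EE R)ˣ) : EE R) ((VO z).run γ ψ) := by
  induction γ with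
  | nil => intro ψ; rfl
  | cons s γ ih =>
    intro ψ
    obtain ⟨j, p, rfl, hj⟩ := hγ s List.mem_cons_self
    have hc : Commute (xs z p j) ((fu z 0 n ^ k : (EE R)ˣ) : EE R) :=
      (xs_comm_F z n j hj p).units_zpow_right k
    have h2 : xs z p j (((fu z 0 n ^ k : (EE R)ˣ) : EE R) ψ) =
        ((fu z 0 n ^ k : (EE R)ˣ) : EE R) (xs z p j ψ) := LinearMap.congr_fun hc.eq ψ
    rw [Ops.run, Ops.run, act_cross, act_cross, h2]
    exact ih (fun s hs => hγ s (List.mem_cons_of_mem _ hs)) _

end op

/-- Remove full twists from a block. -/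
def fixw (n : ℕ) (x : List Slice) : List Slice :=
  if x = fullTwist 0 n true then [] else if x = fullTwist 0 n false then [] else x

/-- The sign of a block. -/
def sgw (n : ℕ) (x : List Slice) : ℤ :=
  if x = fullTwist 0 n true then 1 else if x = fullTwist 0 n false then -1 else 0

/-- Sum of the signs of the blocks. -/
def sgs (n : ℕ) (bs : List (List Slice)) : ℤ := (bs.map (sgw n)).sum

/-- The rest of the blocks. -/
def rest (n : ℕ) (bs : List (List Slice)) : List Slice := (bs.map (fixw n)).flatten

lemma rest_bw (n : ℕ) (bs : List (List Slice)) (h : ∀ x ∈ bs, BW n x) : BW n (rest n bs) := by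
  intro s hs
  rw [rest, List.mem_flatten] at hs
  obtain ⟨y, hy, hsy⟩ := hs
  rw [List.mem_map] at hy
  obtain ⟨x, hx, rfl⟩ := hy
  unfold fixw at hsy
  split_ifs at hsy
  · simp at hsy
  · simp at hsy
  · exact h x hx s hsy

lemma run_blocks {R : Type} [CommRing R] (z : Rˣ) (n : ℕ) (bs : List (List Slice)) :
    (∀ x ∈ bs, BW n x) → ∀ ψ : (ℕ → Bool) → R, (VO z).run bs.flatten ψ =
      (VO z).run (rest n bs) (((fu z 0 n ^ (sgs n bs) : (EE R)ˣ) : EE R) ψ) := by
  induction bs with
  | nil => intro _ ψ; simp [rest, sgs, Ops.run]
  | cons x bs ih =>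
    intro h ψ
    have hx := h x List.mem_cons_self
    have hbs : ∀ y ∈ bs, BW n y := fun y hy => h y (List.mem_cons_of_mem _ hy)
    rw [List.flatten_cons, Ops.run_append, ih hbs]
    have e1 : rest n (x :: bs) = fixw n x ++ rest n bs := rfl
    have e2 : sgs n (x :: bs) = sgw n x + sgs n bs := by simp [sgs]
    rw [e1, e2, Ops.run_append]
    congr 1
    by_cases h1 : x = fullTwist 0 n true
    · have e3 : fixw n x = [] := by simp [fixw, h1]
      have e4 : sgw n x = 1 := by simp [sgw, h1]
      rw [e3, e4, h1, run_fullTwist, add_comm, zpow_add, zpow_one, Units.val_mul]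
      rfl
    · by_cases h2 : x = fullTwist 0 n false
      · have hne : fullTwist 0 n false ≠ fullTwist 0 n true := fun h => h1 (h2.trans h)
        have e3 : fixw n x = [] := by simp [fixw, h2]
        have e4 : sgw n x = -1 := by simp [sgw, h2, hne]
        rw [e3, e4, h2, run_fullTwist, add_comm, zpow_add, zpow_neg, zpow_one, Units.val_mul]
        rfl
      · have e3 : fixw n x = x := by simp [fixw, h1, h2]
        have e4 : sgw n x = 0 := by simp [sgw, h1, h2]
        rw [e3, e4, zero_add, run_comm_F z n x hx]

/-- Braid words keep the directions. -/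
lemma bw_dirs (n : ℕ) (r : List Bool) (γ : List Slice) : BW n γ →
    dirsAbove γ (List.replicate n true ++ r) = some (List.replicate n true ++ r) := by
  induction γ with
  | nil => intro _; rfl
  | cons s γ ih =>
    intro h
    obtain ⟨j, p, rfl, hj⟩ := h s List.mem_cons_self
    have e : List.replicate n true ++ r =
        List.replicate j true ++ true :: true :: (List.replicate (n - j - 2) true ++ r) := by
      have h1 : n = j + (1 + (1 + (n - j - 2))) := by omega
      conv_lhs => rw [h1, List.replicate_add, List.replicate_add, List.replicate_add]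
      simp
    have h2 := dirs_cross (List.replicate j true) (List.replicate (n - j - 2) true ++ r) j p true
      true (by simp)
    rw [dirsAbove, e, h2, ← e]
    exact ih (fun s hs => h s (List.mem_cons_of_mem _ hs))

lemma bw_names (n : ℕ) (γ : List Slice) : BW n γ → ∀ t : Trace, n ≤ t.names.length →
    n ≤ (γ.foldl Trace.step t).names.length := by
  induction γ with
  | nil => intro _ t ht; exact ht
  | cons s γ ih =>
    intro h t ht
    obtain ⟨j, p, rfl, hj⟩ := h s List.mem_cons_self
    rw [List.foldl_cons]
    apply ih (fun s hs => h s (List.mem_cons_of_mem _ hs))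
    obtain ⟨f, o, cl⟩ := t
    simp only at ht
    obtain ⟨a, b, q, ho⟩ : ∃ a b q, o.drop j = a :: b :: q := by
      have hl : 2 ≤ (o.drop j).length := by rw [List.length_drop]; omega
      rcases hd : o.drop j with _ | ⟨a, _ | ⟨b, q⟩⟩
      · rw [hd] at hl; simp at hl
      · rw [hd] at hl; simp at hl
      · exact ⟨a, b, q, rfl⟩
    have hlen : (o.drop j).length = q.length + 2 := by rw [ho]; simp
    rw [List.length_drop] at hlen
    simp only [Trace.step, ho]
    rw [List.length_append, List.length_take, List.length_cons, List.length_cons]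
    omega

lemma step_blocks (n : ℕ) (bs : List (List Slice)) : (∀ x ∈ bs, BW n x) → ∀ t : Trace,
    n ≤ t.names.length → bs.flatten.foldl Trace.step t = (rest n bs).foldl Trace.step t := by
  induction bs with
  | nil => intro _ t _; rfl
  | cons x bs ih =>
    intro h t ht
    have hx := h x List.mem_cons_self
    have hbs : ∀ y ∈ bs, BW n y := fun y hy => h y (List.mem_cons_of_mem _ hy)
    have e1 : rest n (x :: bs) = fixw n x ++ rest n bs := rfl
    have htw : ∀ p, (fullTwist 0 n p).foldl Trace.step t = t := by
      intro p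
      have h1 := twists_step t 0 n (by omega) (if p then 1 else -1)
      cases p
      · simpa [twists] using h1
      · simpa [twists] using h1
    rw [e1, List.flatten_cons, List.foldl_append, List.foldl_append]
    by_cases h1 : x = fullTwist 0 n true
    · have e3 : fixw n x = [] := by simp [fixw, h1]
      rw [e3, h1, htw]
      exact ih hbs t ht
    · by_cases h2 : x = fullTwist 0 n false
      · have e3 : fixw n x = [] := by simp [fixw, h2]
        rw [e3, h2, htw]
        exact ih hbs t ht
      · have e3 : fixw n x = x := by simp [fixw, h1, h2]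
        rw [e3]
        exact ih hbs _ (bw_names n x hx t ht)

lemma sign_blocks (n : ℕ) (r : List Bool) (bs : List (List Slice)) : (∀ x ∈ bs, BW n x) →
    signSum bs.flatten (List.replicate n true ++ r) =
      signSum (rest n bs) (List.replicate n true ++ r) + sgs n bs * ((n : ℤ) ^ 2 - n) := by
  induction bs with
  | nil => intro _; simp [rest, sgs, signSum]
  | cons x bs ih =>
    intro h
    have hx := h x List.mem_cons_self
    have hbs : ∀ y ∈ bs, BW n y := fun y hy => h y (List.mem_cons_of_mem _ hy)
    have e1 : rest n (x :: bs) = fixw n x ++ rest n bs := rfl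
    have e2 : sgs n (x :: bs) = sgw n x + sgs n bs := by simp [sgs]
    have hes : esum (List.replicate n true) = n := by simp [esum, eps]
    have htw : ∀ p, signSum (fullTwist 0 n p) (List.replicate n true ++ r) =
        sgn p * ((n : ℤ) ^ 2 - n) := by
      intro p
      have h1 := (fullTwist_dirs p 0 [] rfl n (List.replicate n true) r (by simp)).2
      rw [hes] at h1
      exact h1
    obtain ⟨-, d2⟩ := dirsAbove_append x bs.flatten _ _ (bw_dirs n r x hx)
    rw [List.flatten_cons, d2, ih hbs, e1, e2]
    by_cases h1 : x = fullTwist 0 n true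
    · have e3 : fixw n x = [] := by simp [fixw, h1]
      have e4 : sgw n x = 1 := by simp [sgw, h1]
      rw [e3, e4, h1, htw, List.nil_append]
      simp only [sgn, if_true]
      ring
    · by_cases h2 : x = fullTwist 0 n false
      · have hne : fullTwist 0 n false ≠ fullTwist 0 n true := fun h => h1 (h2.trans h)
        have e3 : fixw n x = [] := by simp [fixw, h2]
        have e4 : sgw n x = -1 := by simp [sgw, h2, hne]
        rw [e3, e4, h2, htw, List.nil_append]
        simp only [sgn, Bool.false_eq_true, if_false]
        ring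
      · have e3 : fixw n x = x := by simp [fixw, h1, h2]
        have e4 : sgw n x = 0 := by simp [sgw, h1, h2]
        obtain ⟨-, d4⟩ := dirsAbove_append x (rest n bs) _ _ (bw_dirs n r x hx)
        rw [e3, e4, d4]
        ring

/-- Full twists inside a braid word can be collected. -/
theorem collect (P Q : List Slice) (n : ℕ) (r : List Bool)
    (hP : dirsAbove P [] = some (List.replicate n true ++ r)) (hn : 1 ≤ n)
    (bs : List (List Slice)) (hbs : ∀ x ∈ bs, BW n x)
    (hD : IsDiagram (P ++ (bs.flatten ++ Q))) :
    fPoly (P ++ (bs.flatten ++ Q)) =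
      fPoly ((P ++ rest n bs) ++ (twists 0 n (sgs n bs) ++ Q)) ∧
    curves (P ++ (bs.flatten ++ Q)) = curves ((P ++ rest n bs) ++ Q) ∧
    IsDiagram ((P ++ rest n bs) ++ Q) ∧
    dirsAbove (P ++ rest n bs) [] = some (List.replicate n true ++ r) := by
  have hflat : BW n bs.flatten := by
    intro s hs
    obtain ⟨x, hx, hsx⟩ := List.mem_flatten.1 hs
    exact hbs x hx s hsx
  have hrest := rest_bw n bs hbs
  have hPne : P ≠ [] := by
    rintro rfl
    simp only [dirsAbove, Option.some.injEq] at hP
    have := congrArg List.length hP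
    simp at this
    omega
  have hPr : dirsAbove (P ++ rest n bs) [] = some (List.replicate n true ++ r) := by
    rw [(dirsAbove_append P _ [] _ hP).1]
    exact bw_dirs n r _ hrest
  have hQ : dirsAbove Q (List.replicate n true ++ r) = some [] := by
    have h1 := (dirsAbove_append P (bs.flatten ++ Q) [] _ hP).1
    have h2 := (dirsAbove_append bs.flatten Q _ _ (bw_dirs n r _ hflat)).1
    rw [← h2, ← h1]
    exact hD
  have hD2 : IsDiagram ((P ++ rest n bs) ++ Q) := by
    rw [IsDiagram, (dirsAbove_append _ Q [] _ hPr).1]
    exact hQ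
  have hstr : strength (List.replicate n true ++ r) 0 n = n := by
    have := strength_eq [] (List.replicate n true) r 0 n rfl (by simp)
    rw [List.nil_append] at this
    rw [this]
    simp [esum, eps]
  have hin : 0 + n ≤ (List.replicate n true ++ r).length := by simp
  have hnames := run_cnt P ⟨0, [], 0⟩ (List.replicate n true ++ r).length ⟨by simp, by simp⟩
    (ok_of_dirs P [] _ hP)
  refine ⟨?_, ?_, hD2, hPr⟩
  · -- writhe
    obtain ⟨t1, t2⟩ := twist_dirs (P ++ rest n bs) Q _ hPr 0 n hin (sgs n bs)
    have hwr : writhe (P ++ (bs.flatten ++ Q)) =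
        writhe ((P ++ rest n bs) ++ (twists 0 n (sgs n bs) ++ Q)) := by
      rw [t2, hstr, writhe, writhe, List.append_assoc,
        (dirsAbove_append P _ [] _ hP).2, (dirsAbove_append P _ [] _ hP).2,
        (dirsAbove_append bs.flatten Q _ _ (bw_dirs n r _ hflat)).2,
        (dirsAbove_append (rest n bs) Q _ _ (bw_dirs n r _ hrest)).2, sign_blocks n r bs hbs]
      ring
    have hok1 : Ok (P ++ (bs.flatten ++ Q)) 0 0 := ok_of_dirs _ [] [] hD
    have hok2 : Ok ((P ++ rest n bs) ++ (twists 0 n (sgs n bs) ++ Q)) 0 0 := by
      apply ok_of_dirs _ [] []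
      rw [t1]
      exact hD2
    have hbr : bracket (P ++ (bs.flatten ++ Q)) =
        bracket ((P ++ rest n bs) ++ (twists 0 n (sgs n bs) ++ Q)) := by
      rw [← sub_eq_zero]
      apply laurent_zero
      intro z hz
      rw [map_sub, sub_eq_zero]
      have h1 := congrFun (run_bracket z _ hok1 (by simp [hPne])) (fun _ => true)
      have h2 := congrFun (run_bracket z _ hok2 (by simp [hPne])) (fun _ => true)
      simp only [Pi.smul_apply, smul_eq_mul, mul_one] at h1 h2
      rw [Ops.run_append, Ops.run_append, run_blocks z n bs hbs] at h1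
      rw [Ops.run_append, Ops.run_append, Ops.run_append, run_twists] at h2
      rw [run_comm_F z n _ hrest] at h1
      rw [h1] at h2
      have hδ : ev z loopVal ≠ 0 := by
        rw [loopVal, map_neg, map_add, ev_T, ev_T, Units.val_zpow_eq_zpow_val,
          Units.val_zpow_eq_zpow_val]
        have h1 : (0 : ℝ) < z := by linarith
        have h2 : (0 : ℝ) < (z : ℝ) ^ (2 : ℤ) := by positivity
        have h3 : (0 : ℝ) < (z : ℝ) ^ (-2 : ℤ) := by positivity
        intro h4
        linarith
      exact mul_left_cancel₀ hδ h2
    rw [fPoly, fPoly, hwr, hbr]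
  · rw [curves, curves, List.foldl_append, List.foldl_append, List.foldl_append,
      List.foldl_append, step_blocks n bs hbs _ (by rw [hnames.2]; simp)]

end Pool.Agent.Helper57.TW
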