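import Mathlib

/-!
# Counting points of a set which is thin on lines
-/

namespace Pool.Agent.Helper57.TW

open Finset Function

theorem count_bound (r : ℕ) : ∀ (N : Fin r → ℕ) (Z : Set (Fin r → ℤ))
    (_ : ∀ k j, (∀ x, update k j x ∈ Z) ∨
      ∀ T : Finset ℤ, (∀ x ∈ T, update k j x ∈ Z) → T.card ≤ N j)
    (k0 : Fin r → ℤ) (_ : k0 ∉ Z) (S : Fin r → Finset ℤ) (C : Finset (Fin r → ℤ))
    (_ : ∀ k ∈ C, k ∈ Z ∧ ∀ j, k j ∈ S j),
    C.card ≤ ∑ j, N j * ∏ i ∈ univ.erase j, (S i).card := by
  classical
  induction r with
  | zero =>
    intro N Z _ k0 hk0 S C hC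
    have : C = ∅ := by
      rw [Finset.eq_empty_iff_forall_notMem]
      intro k hk
      have h1 := (hC k hk).1
      have : k = k0 := Subsingleton.elim _ _
      exact hk0 (this ▸ h1)
    rw [this]
    simp
  | succ r ih =>
    intro N Z hline k0 hk0 S C hC
    set y0 : Fin r → ℤ := Fin.tail k0 with hy0
    set T := (S 0).filter (fun x => (Fin.cons x y0 : Fin (r + 1) → ℤ) ∈ Z) with hT
    have hTcard : T.card ≤ N 0 := by
      rcases hline k0 0 with h | h
      · exfalso
        have := h (k0 0)
        rw [update_eq_self] at this
        exact hk0 this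
      · apply h
        intro x hx
        have h1 := (Finset.mem_filter.1 hx).2
        have h2 : update k0 0 x = (Fin.cons x y0 : Fin (r + 1) → ℤ) := by
          rw [← Fin.cons_self_tail k0, Fin.update_cons_zero]
        rw [h2]
        exact h1
    set P' := ∏ i : Fin r, (S i.succ).card with hP'
    set B' := ∑ j : Fin r, N j.succ * ∏ i ∈ univ.erase j, (S i.succ).card with hB'
    -- fibres
    have hfib : ∀ x ∈ S 0, (C.filter (fun k => k 0 = x)).card ≤
        if x ∈ T then P' else B' := by
      intro x hx
      set D := (C.filter (fun k => k 0 = x)).image Fin.tail with hD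
      have hcard : (C.filter (fun k => k 0 = x)).card = D.card := by
        rw [hD, Finset.card_image_of_injOn]
        intro a ha b hb hab
        rw [Finset.mem_coe, Finset.mem_filter] at ha hb
        rw [← Fin.cons_self_tail a, ← Fin.cons_self_tail b, hab, ha.2, hb.2]
      rw [hcard]
      have hmem : ∀ y ∈ D, (Fin.cons x y : Fin (r + 1) → ℤ) ∈ Z ∧ ∀ j, y j ∈ S j.succ := by
        intro y hy
        obtain ⟨k, hk, rfl⟩ := Finset.mem_image.1 hy
        rw [Finset.mem_filter] at hk
        obtain ⟨h1, h2⟩ := hC k hk.1
        rw [← hk.2, Fin.cons_self_tail]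
        exact ⟨h1, fun j => h2 j.succ⟩
      split_ifs with hxT
      · have hsub : D ⊆ Fintype.piFinset (fun j : Fin r => S j.succ) := by
          intro y hy
          rw [Fintype.mem_piFinset]
          exact (hmem y hy).2
        refine (Finset.card_le_card hsub).trans ?_
        rw [Fintype.card_piFinset]
      · have hx0 : (Fin.cons x y0 : Fin (r + 1) → ℤ) ∉ Z := by
          intro hcon
          exact hxT (Finset.mem_filter.2 ⟨hx, hcon⟩)
        refine ih (fun j => N j.succ) {y | (Fin.cons x y : Fin (r + 1) → ℤ) ∈ Z} ?_ y0 hx0
          (fun j => S j.succ) D hmem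
        intro k j
        have e : ∀ t, (Fin.cons x (update k j t) : Fin (r + 1) → ℤ) =
            update (Fin.cons x k : Fin (r + 1) → ℤ) j.succ t := fun t => by
          rw [Fin.cons_update]
        rcases hline (Fin.cons x k) j.succ with h | h
        · left
          intro t
          change (Fin.cons x (update k j t) : Fin (r + 1) → ℤ) ∈ Z
          rw [e]
          exact h t
        · right
          intro U hU
          apply h
          intro t ht
          rw [← e]
          exact hU t ht
    have hsum : C.card ≤ ∑ x ∈ S 0, (C.filter (fun k => k 0 = x)).card := by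
      rw [← Finset.card_eq_sum_card_fiberwise (f := fun k : Fin (r + 1) → ℤ => k 0)]
      intro k hk
      exact (hC k hk).2 0
    have htot : ∑ x ∈ S 0, (if x ∈ T then P' else B') ≤ N 0 * P' + (S 0).card * B' := by
      have h1 : ∀ x ∈ S 0, (if x ∈ T then P' else B') ≤ (if x ∈ T then P' else 0) + B' := by
        intro x _
        split_ifs <;> omega
      refine (Finset.sum_le_sum h1).trans ?_
      rw [Finset.sum_add_distrib, Finset.sum_const, smul_eq_mul, ← Finset.sum_filter,
        Finset.sum_const, smul_eq_mul]
      have h2 : (S 0).filter (fun x => x ∈ T) ⊆ T := by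
        intro x hx
        exact (Finset.mem_filter.1 hx).2
      exact Nat.add_le_add_right
        (Nat.mul_le_mul_right _ ((Finset.card_le_card h2).trans hTcard)) _
    refine hsum.trans ((Finset.sum_le_sum hfib).trans (htot.trans ?_))
    rw [Fin.sum_univ_succ]
    apply Nat.add_le_add
    · apply Nat.mul_le_mul_left
      have : (univ.erase (0 : Fin (r + 1))) = univ.map ⟨Fin.succ, Fin.succ_injective r⟩ := by
        ext i
        simp only [mem_erase, mem_univ, and_true, mem_map, true_and, Embedding.coeFn_mk]
        constructor
        · intro h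
          exact ⟨i.pred h, Fin.succ_pred i h⟩
        · rintro ⟨a, rfl⟩
          exact Fin.succ_ne_zero a
      rw [this, Finset.prod_map]
      exact le_rfl
    · rw [hB', Finset.mul_sum]
      apply Finset.sum_le_sum
      intro j _
      have : (univ.erase (j.succ : Fin (r + 1))) =
          insert 0 ((univ.erase j).map ⟨Fin.succ, Fin.succ_injective r⟩) := by
        ext i
        simp only [mem_erase, mem_univ, and_true, mem_insert, mem_map, Embedding.coeFn_mk]
        constructor
        · intro h
          by_cases h0 : i = 0
          · left; exact h0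
          · right
            refine ⟨i.pred h0, ?_, Fin.succ_pred i h0⟩
            intro hcon
            apply h
            rw [← hcon, Fin.succ_pred]
        · rintro (rfl | ⟨a, ha, rfl⟩)
          · exact (Fin.succ_ne_zero j).symm
          · intro hcon
            exact ha (Fin.succ_injective r hcon)
      rw [this, Finset.prod_insert, Finset.prod_map]
      · simp only [Embedding.coeFn_mk]
        rw [mul_left_comm]
      · simp only [mem_map, Embedding.coeFn_mk, not_exists, not_and]
        intro a _
        exact Fin.succ_ne_zero a

end Pool.Agent.Helper57.TW
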