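import Pool.Agent.Helper2.Diagram

/-!
# Twisting a diagram
-/

namespace Pool.Agent.Helper57.TW

open Pool.Agent.Helper2

/-- The strand in position `i + k` goes around the `k` strands in the positions
`i, ..., i + k - 1` and returns to its position; all `2 k` crossings are of the kind `p`. -/
def around (i : ℕ) : ℕ → Bool → List Slice
  | 0, _ => []
  | k + 1, p => .cross (i + k) p :: (around i k p ++ [.cross (i + k) p])

/-- A full twist of the `n` strands in the positions `i, ..., i + n - 1`, all of whose
`n (n - 1)` crossings are of the kind `p`. -/
def fullTwist (i : ℕ) : ℕ → Bool → List Slice
  | 0, _ => []
  | n + 1, p => fullTwist i n p ++ around i n p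

/-- `k` full twists of the `n` strands in the positions `i, ..., i + n - 1`; for negative `k`
these are `-k` full twists with the other kind of crossings. -/
def twists (i n : ℕ) (k : ℤ) : List Slice :=
  (List.replicate k.natAbs (fullTwist i n (decide (0 ≤ k)))).flatten

/-- The number of upward strands minus the number of downward strands among the `n` strands in
the positions `i, ..., i + n - 1`. -/
def strength (o : List Bool) (i n : ℕ) : ℤ :=
  (((o.drop i).take n).map fun b => if b then (1 : ℤ) else -1).sum

/-- A place of a diagram where strands will be twisted: the pieces `pieces` of the diagram which
lead to it from the previous place (or from the bottom), the list `dirs` of the directions of all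
strands at this height, and the group of the `num` strands in the positions
`pos, ..., pos + num - 1`. -/
structure Place where
  pieces : List Slice
  dirs : List Bool
  pos : ℕ
  num : ℕ

/-- The algebraic number of strands of the group of a place. -/
def Place.l (b : Place) : ℤ := strength b.dirs b.pos b.num

/-- The diagram with `k j` full twists at the place `B j` for all `j`; the pieces above the last
place are `Q`. -/
def family (Q : List Slice) : (r : ℕ) → (Fin r → Place) → (Fin r → ℤ) → List Slice
  | 0, _, _ => Q
  | r + 1, B, k => (B 0).pieces ++ (twists (B 0).pos (B 0).num (k 0) ++
      family Q r (fun j => B j.succ) (fun j => k j.succ))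

/-- The places fit to each other, starting with strands with the directions `o`: the directions
are the ones recorded, and every group exists and is not empty. -/
def Fits : (r : ℕ) → (Fin r → Place) → List Bool → Prop
  | 0, _, _ => True
  | r + 1, B, o => dirsAbove (B 0).pieces o = some (B 0).dirs ∧ 1 ≤ (B 0).num ∧
      (B 0).pos + (B 0).num ≤ (B 0).dirs.length ∧ Fits r (fun j => B j.succ) (B 0).dirs

/-- The bound for a place: `2` if the algebraic number of strands is at least two in absolute
value, and otherwise half the number of strands. -/
def Place.bound (b : Place) : ℕ := if 2 ≤ |b.l| then 2 else b.num / 2

end Pool.Agent.Helper57.TW
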