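import Pool.Agent.Helper57.TW.AtMostTwo
import Pool.Agent.Helper57.TW.Count

/-!
# Families with several places
-/

namespace Pool.Agent.Helper57.TW

open Pool.Agent.Helper2 LaurentPolynomial Function

lemma bound_zero_mem (n : ℕ) (l : ℤ) (hl : |l| ≤ 1) (hpar : ∃ c : ℤ, l ^ 2 - n = 2 * c) : (0 : ℤ) ∈ (Finset.range (n / 2 + 1)).image (ex n l) := by
  rw [abs_le] at hl
  obtain ⟨c, hc⟩ := hpar
  rw [Finset.mem_image]
  refine ⟨n / 2, Finset.mem_range.2 (Nat.lt_succ_self _), ?_⟩
  simp only [ex]
  have hl3 : l = -1 ∨ l = 0 ∨ l = 1 := by omega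
  rcases hl3 with rfl | rfl | rfl
  · have e1 : n - 2 * (n / 2) = 1 := by omega
    rw [e1]; norm_num
  · have e1 : n - 2 * (n / 2) = 0 := by omega
    rw [e1]; norm_num
  · have e1 : n - 2 * (n / 2) = 1 := by omega
    rw [e1]; norm_num

/-- One place. -/
theorem one_place (P Q : List Slice) (b : Place) (hP : dirsAbove P [] = some b.dirs)
    (hn : 1 ≤ b.num) (hin : b.pos + b.num ≤ b.dirs.length) (hK : IsKnotDiagram (P ++ Q)) :
    ((∀ x, fPoly (P ++ (twists b.pos b.num x ++ Q)) = 1) ∧ |b.l| ≤ 1) ∨
      ∀ T : Finset ℤ, (∀ x ∈ T, fPoly (P ++ (twists b.pos b.num x ++ Q)) = 1) →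
        T.card ≤ b.bound := by
  classical
  by_cases hl : 2 ≤ |b.l|
  · right
    intro T hT
    rw [Place.bound, if_pos hl]
    by_contra hcon
    obtain ⟨x, y, z, hx, hy, hz, hxy, hxz, hyz⟩ :=
      Finset.two_lt_card_iff.1 (not_le.1 hcon)
    exact at_most_two P Q b.dirs hP b.pos b.num hin hn hK hl x y z hxy hxz hyz
      (hT x hx) (hT y hy) (hT z hz)
  · have hl1 : |b.l| ≤ 1 := by omega
    by_cases hall : ∀ x, fPoly (P ++ (twists b.pos b.num x ++ Q)) = 1
    · exact Or.inl ⟨hall, hl1⟩
    · right
      intro T hT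
      rw [Place.bound, if_neg hl]
      by_contra hcon
      apply hall
      have h0 := bound_zero_mem b.num b.l hl1 (strength_par b.dirs b.pos b.num hin)
      refine (twist_base P Q b.dirs hP b.pos b.num hin hK.1 hn 1 T hT ?_).1
      have e1 : (Finset.range (b.num / 2 + 1)).image (ex b.num (strength b.dirs b.pos b.num)) =
        (Finset.range (b.num / 2 + 1)).image (ex b.num b.l) := rfl
      rw [e1, Finset.insert_eq_of_mem h0]
      refine Finset.card_image_le.trans ?_
      rw [Finset.card_range]
      omega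

lemma family_knot (Q : List Slice) (r : ℕ) : ∀ (B : Fin r → Place) (W : List Slice)
    (o : List Bool), dirsAbove W [] = some o → Fits r B o → ∀ k : Fin r → ℤ,
    IsKnotDiagram (W ++ family Q r B (fun _ => 0)) → IsKnotDiagram (W ++ family Q r B k) := by
  induction r with
  | zero => intro B W o _ _ k h; exact h
  | succ r ih =>
    intro B W o hW hB k h
    obtain ⟨h1, h2, h3, h4⟩ := hB
    have hP : dirsAbove (W ++ (B 0).pieces) [] = some (B 0).dirs := by
      rw [(dirsAbove_append W _ [] o hW).1]
      exact h1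
    have h0 : twists (B 0).pos (B 0).num 0 = [] := rfl
    have hk0 : IsKnotDiagram ((W ++ (B 0).pieces) ++
        family Q r (fun j => B j.succ) (fun _ => 0)) := by
      have e : (W ++ (B 0).pieces) ++ family Q r (fun j => B j.succ) (fun _ => 0) =
          W ++ family Q (r + 1) B (fun _ => 0) := by
        rw [family, h0, List.nil_append, List.append_assoc]
      rw [e]
      exact h
    have hk1 := ih (fun j => B j.succ) (W ++ (B 0).pieces) (B 0).dirs hP h4
      (fun j => k j.succ) hk0
    have hk2 := twist_knot _ _ _ hP (B 0).pos (B 0).num h3 hk1 (k 0)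
    rw [family, ← List.append_assoc]
    exact hk2

lemma family_update (Q : List Slice) (r : ℕ) : ∀ (B : Fin r → Place) (W : List Slice)
    (o : List Bool), dirsAbove W [] = some o → Fits r B o → ∀ (k : Fin r → ℤ) (j : Fin r),
    ∃ P' Q' : List Slice, dirsAbove P' [] = some (B j).dirs ∧
      (B j).pos + (B j).num ≤ (B j).dirs.length ∧ 1 ≤ (B j).num ∧
      ∀ x, W ++ family Q r B (update k j x) =
        P' ++ (twists (B j).pos (B j).num x ++ Q') := by
  induction r with
  | zero => intro B W o _ _ k j; exact j.elim0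
  | succ r ih =>
    intro B W o hW hB k j
    obtain ⟨h1, h2, h3, h4⟩ := hB
    have hP : dirsAbove (W ++ (B 0).pieces) [] = some (B 0).dirs := by
      rw [(dirsAbove_append W _ [] o hW).1]
      exact h1
    refine Fin.cases ?_ (fun j => ?_) j
    · refine ⟨W ++ (B 0).pieces, family Q r (fun j => B j.succ) (fun j => k j.succ), hP, h3, h2,
        fun x => ?_⟩
      rw [family, update_self, List.append_assoc]
      congr 4
    · have hT : dirsAbove ((W ++ (B 0).pieces) ++ twists (B 0).pos (B 0).num (k 0)) [] =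
          some (B 0).dirs := by
        rw [(dirsAbove_append _ _ [] _ hP).1]
        exact (twists_dirs _ _ _ h3 _).1
      obtain ⟨P', Q', e1, e2, e3, e4⟩ := ih (fun j => B j.succ) _ _ hT h4
        (fun j => k j.succ) j
      refine ⟨P', Q', e1, e2, e3, fun x => ?_⟩
      rw [← e4 x, family, update_of_ne (Fin.succ_ne_zero j).symm]
      simp only [List.append_assoc]
      congr 4
      funext m
      by_cases hm : m = j
      · subst hm; simp
      · rw [update_of_ne hm, update_of_ne (fun h => hm (Fin.succ_injective r h))]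

theorem family_main (r : ℕ) (B : Fin r → Place) (Q : List Slice) (hB : Fits r B [])
    (hK : IsKnotDiagram (family Q r B (fun _ => 0))) :
    (∀ k, IsKnotDiagram (family Q r B k)) ∧
    (((∀ k, fPoly (family Q r B k) = 1) ∧ ∀ j, |(B j).l| ≤ 1) ∨
      ∀ (S : Fin r → Finset ℤ) (C : Finset (Fin r → ℤ)),
        (∀ k ∈ C, (∀ j, k j ∈ S j) ∧ fPoly (family Q r B k) = 1) →
        C.card ≤ ∑ j, (B j).bound * ∏ i ∈ Finset.univ.erase j, (S i).card) := by
  classical
  have hk : ∀ k, IsKnotDiagram (family Q r B k) := fun k =>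
    family_knot Q r B [] [] rfl hB k hK
  refine ⟨hk, ?_⟩
  have hline : ∀ (k : Fin r → ℤ) (j : Fin r),
      ((∀ x, fPoly (family Q r B (update k j x)) = 1) ∧ |(B j).l| ≤ 1) ∨
      ∀ T : Finset ℤ, (∀ x ∈ T, fPoly (family Q r B (update k j x)) = 1) →
        T.card ≤ (B j).bound := by
    intro k j
    obtain ⟨P', Q', e1, e2, e3, e4⟩ := family_update Q r B [] [] rfl hB k j
    have hK' : IsKnotDiagram (P' ++ Q') := by
      have h0 := hk (update k j 0)
      have h1 := e4 0
      rw [List.nil_append] at h1
      rw [h1] at h0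
      exact h0
    have h2 := one_place P' Q' (B j) e1 e3 e2 hK'
    have h3 : ∀ x, family Q r B (update k j x) =
        P' ++ (twists (B j).pos (B j).num x ++ Q') := fun x => by
      rw [← e4 x, List.nil_append]
    simp only [h3]
    exact h2
  by_cases hall : ∀ k, fPoly (family Q r B k) = 1
  · by_cases hl : ∀ j, |(B j).l| ≤ 1
    · exact Or.inl ⟨hall, hl⟩
    · exfalso
      push Not at hl
      obtain ⟨j, hj⟩ := hl
      rcases hline (fun _ => 0) j with h | h
      · exact absurd h.2 (not_le.2 hj)
      · have := h (Finset.range ((B j).bound + 1) |>.image (fun n : ℕ => (n : ℤ)))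
          (fun x _ => hall _)
        rw [Finset.card_image_of_injective _ Nat.cast_injective, Finset.card_range] at this
        omega
  · right
    push Not at hall
    obtain ⟨k0, hk0⟩ := hall
    intro S C hC
    refine count_bound r (fun j => (B j).bound) {k | fPoly (family Q r B k) = 1} ?_ k0 hk0 S C
      (fun k hk => ⟨(hC k hk).2, (hC k hk).1⟩)
    intro k j
    rcases hline k j with h | h
    · exact Or.inl h.1
    · exact Or.inr h

end Pool.Agent.Helper57.TW
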