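import Pool.Agent.Helper57.TW.Seq

/-!
# The full twist to first order
-/

namespace Pool.Agent.Helper57.TW

/-- Congruence modulo the square of `ε`. -/
def Cong {R A : Type*} [CommRing R] [Ring A] [Algebra R A] (ε : R) (p q : A) : Prop :=
  ∃ Y : A, p = q + (ε * ε) • Y

section cong

variable {R A : Type*} [CommRing R] [Ring A] [Algebra R A] {ε : R}

lemma Cong.refl (p : A) : Cong ε p p := ⟨0, by simp⟩

lemma Cong.mul {p q p' q' : A} (h : Cong ε p q) (h' : Cong ε p' q') :
    Cong ε (p * p') (q * q') := by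
  obtain ⟨Y, rfl⟩ := h
  obtain ⟨Y', rfl⟩ := h'
  refine ⟨q * Y' + Y * q' + (ε * ε) • (Y * Y'), ?_⟩
  simp only [mul_add, add_mul, mul_smul_comm, smul_mul_assoc, smul_add, smul_smul]
  abel

lemma Cong.trans {p q r : A} (h : Cong ε p q) (h' : Cong ε q r) : Cong ε p r := by
  obtain ⟨Y, rfl⟩ := h
  obtain ⟨Y', rfl⟩ := h'
  exact ⟨Y' + Y, by rw [smul_add]; abel⟩

lemma Cong.one_mul_one (g g' : A) : Cong ε ((1 + ε • g) * (1 + ε • g')) (1 + ε • (g + g')) := by
  refine ⟨g * g', ?_⟩
  simp only [mul_add, add_mul, mul_smul_comm, smul_mul_assoc, smul_add, smul_smul, mul_one,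
    one_mul]
  abel

lemma Cong.conj (s x g : A) (hs : s * s = 1) (hx : x * s + s * x = (4 : R) • s - (2 : R) • 1) :
    Cong ε ((s + ε • x) * ((1 + ε • g) * (s + ε • x)))
      (1 + ε • ((4 : R) • s - (2 : R) • 1 + s * g * s)) := by
  refine ⟨x * x + x * g * s + s * g * x + ε • (x * g * x), ?_⟩
  rw [← hx]
  simp only [mul_add, add_mul, mul_smul_comm, smul_mul_assoc, smul_add, smul_smul,
    one_mul, mul_assoc, hs]
  module

end cong

variable {R : Type} [CommRing R]

/-- Exchange two entries. -/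
def Sw (a b : ℕ) : Module.End R ((ℕ → Bool) → R) where
  toFun ψ := fun s => ψ (s ∘ Equiv.swap a b)
  map_add' φ ψ := by funext s; rfl
  map_smul' c ψ := by funext s; rfl

/-- Multiplication by a function. -/
def Dg (d : (ℕ → Bool) → R) : Module.End R ((ℕ → Bool) → R) where
  toFun ψ := fun s => d s * ψ s
  map_add' φ ψ := by funext s; simp only [Pi.add_apply]; ring
  map_smul' c ψ := by funext s; simp only [Pi.smul_apply, smul_eq_mul, RingHom.id_apply]; ring

lemma Sw_apply (a b : ℕ) (ψ : (ℕ → Bool) → R) (s : ℕ → Bool) :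
    Sw a b ψ s = ψ (s ∘ Equiv.swap a b) := rfl

lemma Dg_apply (d ψ : (ℕ → Bool) → R) (s : ℕ → Bool) : Dg d ψ s = d s * ψ s := rfl

lemma Sw_sq (a b : ℕ) : (Sw a b : Module.End R ((ℕ → Bool) → R)) * Sw a b = 1 := by
  ext ψ s
  change ψ ((s ∘ Equiv.swap a b) ∘ Equiv.swap a b) = ψ s
  congr 1
  funext k
  simp

lemma Sw_conj (a b c : ℕ) (hab : a ≠ b) (hac : a ≠ c) :
    (Sw b c : Module.End R ((ℕ → Bool) → R)) * Sw a b * Sw b c = Sw a c := by
  ext ψ s
  change ψ (((s ∘ Equiv.swap b c) ∘ Equiv.swap a b) ∘ Equiv.swap b c) = ψ (s ∘ Equiv.swap a c)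
  congr 1
  funext k
  simp only [Function.comp]
  congr 1
  have := Equiv.swap_mul_swap_mul_swap (x := a) (y := b) (z := c) hab hac
  have h2 := congrArg (fun e : Equiv.Perm ℕ => e k) this
  simp only [Equiv.Perm.mul_apply] at h2
  rw [Equiv.swap_comm a c]
  exact h2

/-- The value of a spin. -/
def eta (b : Bool) : R := if b then 1 else -1

/-- The first order part of the crossing. -/
def x1 (j : ℕ) : Module.End R ((ℕ → Bool) → R) :=
  (2 : R) • 1 - Sw j (j + 1) - Dg (fun s => eta (s j) - eta (s (j + 1)))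

lemma ins_del (j : ℕ) (x y : Bool) (s : ℕ → Bool) (hx : s j = x) (hy : s (j + 1) = y) :
    ins j x y (del j s) = s := by
  funext k
  rcases Nat.lt_trichotomy k j with h1 | h1 | h1
  · rw [ins_lt _ _ _ _ h1, del_lt _ _ h1]
  · subst h1
    rw [ins_at, hx]
  · rcases Nat.eq_or_lt_of_le h1 with h2 | h2
    · have h3 : k = j + 1 := h2.symm
      subst h3
      rw [ins_at1, hy]
    · obtain ⟨m, rfl⟩ : ∃ m, k = m + 2 := ⟨k - 2, by omega⟩
      rw [ins_ge _ _ _ _ (by omega), del_ge _ _ (by omega)]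

lemma swap_ins (j : ℕ) (x y : Bool) (s : ℕ → Bool) :
    (ins j x y s) ∘ Equiv.swap j (j + 1) = ins j y x s := by
  funext k
  simp only [Function.comp]
  rcases Nat.lt_trichotomy k j with h1 | h1 | h1
  · rw [Equiv.swap_apply_of_ne_of_ne (by omega) (by omega), ins_lt _ _ _ _ h1, ins_lt _ _ _ _ h1]
  · subst h1
    rw [Equiv.swap_apply_left, ins_at1, ins_at]
  · rcases Nat.eq_or_lt_of_le h1 with h2 | h2
    · have h3 : k = j + 1 := h2.symm
      subst h3
      rw [Equiv.swap_apply_right, ins_at, ins_at1]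
    · obtain ⟨m, rfl⟩ : ∃ m, k = m + 2 := ⟨k - 2, by omega⟩
      rw [Equiv.swap_apply_of_ne_of_ne (by omega) (by omega), ins_ge _ _ _ _ (by omega),
        ins_ge _ _ _ _ (by omega)]

lemma exists_ins (j : ℕ) (s : ℕ → Bool) : ∃ s', s = ins j (s j) (s (j + 1)) s' :=
  ⟨del j s, (ins_del j _ _ s rfl rfl).symm⟩

/-- The second order part of the crossing. -/
def x2 (j : ℕ) : Module.End R ((ℕ → Bool) → R) where
  toFun ψ := fun s => if s j = s (j + 1) then 0 else
    (if s j then 0 else -6 * ψ s) + ψ (s ∘ Equiv.swap j (j + 1))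
  map_add' φ ψ := by
    funext s
    simp only [Pi.add_apply]
    split_ifs <;> ring
  map_smul' c ψ := by
    funext s
    simp only [Pi.smul_apply, smul_eq_mul, RingHom.id_apply]
    split_ifs <;> ring

lemma cr_first {ε z w : R} (hε : ε * ε * ε = 0) (hz : z = 1 + ε) (hw : w = 1 - ε + ε * ε)
    (j : ℕ) : cr z w (sCup w) (sCap z) j = Sw j (j + 1) + ε • x1 j + (ε * ε) • x2 j := by
  ext ψ s
  change z * ψ s + w * (sCup w j (sCap z j ψ) s) = ψ (s ∘ Equiv.swap j (j + 1)) +
    ε * ((2 : R) * ψ s - ψ (s ∘ Equiv.swap j (j + 1)) - (eta (s j) - eta (s (j + 1))) * ψ s) +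
    (ε * ε) * (if s j = s (j + 1) then 0 else
    (if s j then 0 else -6 * ψ s) + ψ (s ∘ Equiv.swap j (j + 1)))
  obtain ⟨s', hs⟩ := exists_ins j s
  generalize s j = x at hs ⊢
  generalize s (j + 1) = y at hs ⊢
  subst hs
  rw [sCup_apply, sCap_apply, del_ins, ins_at, ins_at1, swap_ins]
  subst hz hw
  cases x <;> cases y
  · simp only [cupW, eta, if_true, Bool.false_eq_true, if_false]
    ring
  · simp only [cupW, eta, Bool.false_eq_true, if_false, if_true]
    linear_combination (ψ (ins j false true s') * (7 - 6 * ε + 3 * ε ^ 2 - ε ^ 3) +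
      ψ (ins j true false s') * (2 - 2 * ε + 2 * ε ^ 2 + ε ^ 3 - ε ^ 4 + ε ^ 5)) * hε
  · simp only [cupW, eta, Bool.true_eq_false, Bool.false_eq_true, if_false, if_true]
    linear_combination (-(1 + ε) * ψ (ins j true false s')) * hε
  · simp only [cupW, eta, if_true]
    ring

lemma x1_swap (j : ℕ) : (x1 j : Module.End R ((ℕ → Bool) → R)) * Sw j (j + 1) +
    Sw j (j + 1) * x1 j = (4 : R) • Sw j (j + 1) - (2 : R) • 1 := by
  have h1 := Sw_sq (R := R) j (j + 1)
  have h2 : (Dg (fun s => eta (s j) - eta (s (j + 1))) : Module.End R ((ℕ → Bool) → R)) *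
      Sw j (j + 1) + Sw j (j + 1) * Dg (fun s => eta (s j) - eta (s (j + 1))) = 0 := by
    ext ψ s
    change (eta (s j) - eta (s (j + 1))) * ψ (s ∘ Equiv.swap j (j + 1)) +
      (eta ((s ∘ Equiv.swap j (j + 1)) j) - eta ((s ∘ Equiv.swap j (j + 1)) (j + 1))) *
        ψ (s ∘ Equiv.swap j (j + 1)) = 0
    simp only [Function.comp, Equiv.swap_apply_left, Equiv.swap_apply_right]
    ring
  have h3 : (Dg (fun s => eta (s j) - eta (s (j + 1))) : Module.End R ((ℕ → Bool) → R)) *
      Sw j (j + 1) = - (Sw j (j + 1) * Dg (fun s => eta (s j) - eta (s (j + 1)))) :=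
    eq_neg_of_add_eq_zero_left h2
  simp only [x1, sub_mul, mul_sub, smul_mul_assoc, mul_smul_comm, one_mul, mul_one, h1, h3]
  module

/-- First order part of a strand going around `k` strands. -/
noncomputable def g1 (i k : ℕ) : Module.End R ((ℕ → Bool) → R) :=
  ∑ b ∈ Finset.range k, ((4 : R) • Sw (i + b) (i + k) - (2 : R) • 1)

/-- First order part of the full twist. -/
noncomputable def t1 (i n : ℕ) : Module.End R ((ℕ → Bool) → R) :=
  ∑ k ∈ Finset.range n, g1 i k

lemma G_first {ε z w : R} (hε : ε * ε * ε = 0) (hz : z = 1 + ε) (hw : w = 1 - ε + ε * ε)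
    (i k : ℕ) : Cong ε (G (cr z w (sCup w) (sCap z)) i k) (1 + ε • g1 i k) := by
  induction k with
  | zero =>
    refine ⟨0, ?_⟩
    simp [G, g1]
  | succ k ih =>
    have hx : Cong ε (cr z w (sCup w) (sCap z) (i + k)) (Sw (i + k) (i + k + 1) +
        ε • x1 (i + k)) := ⟨x2 (i + k), cr_first hε hz hw (i + k)⟩
    have h1 := hx.mul (ih.mul hx)
    have h2 := Cong.conj (ε := ε) (Sw (i + k) (i + k + 1)) (x1 (i + k)) (g1 i k)
      (Sw_sq (R := R) _ _) (x1_swap (i + k))
    have h3 := h1.trans h2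
    have h4 : (4 : R) • Sw (i + k) (i + k + 1) - (2 : R) • (1 : Module.End R ((ℕ → Bool) → R)) +
        Sw (i + k) (i + k + 1) * g1 i k * Sw (i + k) (i + k + 1) = g1 i (k + 1) := by
      rw [g1, g1, Finset.sum_range_succ, add_comm]
      congr 1
      rw [Finset.mul_sum, Finset.sum_mul]
      apply Finset.sum_congr rfl
      intro b hb
      rw [Finset.mem_range] at hb
      have h5 := Sw_conj (R := R) (i + b) (i + k) (i + k + 1) (by omega) (by omega)
      have h6 := Sw_sq (R := R) (i + k) (i + k + 1)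
      rw [mul_sub, sub_mul, mul_smul_comm, smul_mul_assoc, h5, mul_smul_comm, mul_one,
        smul_mul_assoc, h6]
      rfl
    rw [h4] at h3
    exact h3

lemma F_first {ε z w : R} (hε : ε * ε * ε = 0) (hz : z = 1 + ε) (hw : w = 1 - ε + ε * ε)
    (i n : ℕ) : Cong ε (F (cr z w (sCup w) (sCap z)) i n) (1 + ε • t1 i n) := by
  induction n with
  | zero =>
    refine ⟨0, ?_⟩
    simp [F, t1]
  | succ n ih =>
    have h1 := (G_first hε hz hw i n).mul ih
    have h2 := h1.trans (Cong.one_mul_one (ε := ε) (g1 i n) (t1 i n))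
    have h3 : (g1 i n + t1 i n : Module.End R ((ℕ → Bool) → R)) = t1 i (n + 1) := by
      rw [t1, t1, Finset.sum_range_succ, add_comm]
    rw [h3] at h2
    exact h2

end Pool.Agent.Helper57.TW
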