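import Pool.Agent.Helper57.TW.Defs
import Pool.Agent.Helper2.Valid

/-!
# Directions, signs and curves of twisted diagrams
-/

namespace Pool.Agent.Helper57.TW

open Pool.Agent.Helper2

/-- The sign of a direction. -/
def eps (b : Bool) : ℤ := if b then 1 else -1

/-- The sign of a kind of crossing. -/
def sgn (p : Bool) : ℤ := if p then 1 else -1

lemma eps_sq (b : Bool) : eps b * eps b = 1 := by cases b <;> rfl

lemma sign_eq (p a b : Bool) : (if (a = b) ↔ (p = true) then (1 : ℤ) else -1) =
    sgn p * (eps a * eps b) := by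
  cases p <;> cases a <;> cases b <;> rfl

/-- Sum of the signs of the directions. -/
def esum (l : List Bool) : ℤ := (l.map eps).sum

lemma esum_append (l : List Bool) (c : Bool) : esum (l ++ [c]) = esum l + eps c := by
  simp [esum]

lemma around_dirs (p : Bool) (c : Bool) (i : ℕ) (pre : List Bool) (hpre : pre.length = i)
    (k : ℕ) : ∀ (mid : List Bool) (rest : List Bool), mid.length = k →
    dirsAbove (around i k p) (pre ++ (mid ++ c :: rest)) = some (pre ++ (mid ++ c :: rest)) ∧
    signSum (around i k p) (pre ++ (mid ++ c :: rest)) = sgn p * (2 * esum mid * eps c) := by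
  induction k with
  | zero =>
    intro mid rest h
    obtain rfl := List.length_eq_zero_iff.1 h
    simp [around, dirsAbove, signSum, esum]
  | succ k ih =>
    intro mid rest h
    obtain ⟨mid', b, rfl⟩ : ∃ mid' b, mid = mid' ++ [b] := by
      have hne : mid ≠ [] := by intro h0; simp [h0] at h
      exact ⟨mid.dropLast, mid.getLast hne, (List.dropLast_append_getLast hne).symm⟩
    have hm : mid'.length = k := by simpa using h
    have hlen : (pre ++ mid').length = i + k := by simp [hpre, hm]
    have d1 := dirs_cross (pre ++ mid') rest (i + k) p b c hlen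
    have d2 := dirs_cross (pre ++ mid') rest (i + k) p c b hlen
    have s1 := sign_cross (pre ++ mid') rest (i + k) p b c hlen
    have s2 := sign_cross (pre ++ mid') rest (i + k) p c b hlen
    obtain ⟨i1, i2⟩ := ih mid' (b :: rest) hm
    obtain ⟨e1, e2⟩ := dirsAbove_append (around i k p) [.cross (i + k) p] _ _ i1
    have o1 : pre ++ ((mid' ++ [b]) ++ c :: rest) = (pre ++ mid') ++ b :: c :: rest := by simp
    have o2 : pre ++ (mid' ++ c :: b :: rest) = (pre ++ mid') ++ c :: b :: rest := by simp
    rw [o1]
    rw [o2] at e1 e2 i2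
    constructor
    · simp only [around, dirsAbove, d1, Option.bind_some]
      rw [e1]
      simp only [dirsAbove, d2, Option.bind_some]
    · simp only [around, signSum, d1, Option.getD_some]
      rw [e2, i2, s1, sign_eq, esum_append]
      simp only [signSum]
      rw [s2, sign_eq]
      ring

lemma fullTwist_dirs (p : Bool) (i : ℕ) (pre : List Bool) (hpre : pre.length = i) (n : ℕ) :
    ∀ (mid : List Bool) (rest : List Bool), mid.length = n →
    dirsAbove (fullTwist i n p) (pre ++ (mid ++ rest)) = some (pre ++ (mid ++ rest)) ∧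
    signSum (fullTwist i n p) (pre ++ (mid ++ rest)) = sgn p * (esum mid ^ 2 - n) := by
  induction n with
  | zero =>
    intro mid rest h
    obtain rfl := List.length_eq_zero_iff.1 h
    simp [fullTwist, dirsAbove, signSum, esum]
  | succ n ih =>
    intro mid rest h
    obtain ⟨mid', c, rfl⟩ : ∃ mid' c, mid = mid' ++ [c] := by
      have hne : mid ≠ [] := by intro h0; simp [h0] at h
      exact ⟨mid.dropLast, mid.getLast hne, (List.dropLast_append_getLast hne).symm⟩
    have hm : mid'.length = n := by simpa using h
    obtain ⟨i1, i2⟩ := ih mid' (c :: rest) hm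
    obtain ⟨a1, a2⟩ := around_dirs p c i pre hpre n mid' rest hm
    obtain ⟨e1, e2⟩ := dirsAbove_append (fullTwist i n p) (around i n p) _ _ i1
    have o1 : pre ++ ((mid' ++ [c]) ++ rest) = pre ++ (mid' ++ c :: rest) := by simp
    rw [o1, fullTwist]
    refine ⟨by rw [e1, a1], ?_⟩
    rw [e2, i2, a2, esum_append]
    have := eps_sq c
    push_cast
    linear_combination (-(sgn p)) * this

lemma replicate_dirs (w : List Slice) (o : List Bool) (s : ℤ) (h : dirsAbove w o = some o)
    (hs : signSum w o = s) (m : ℕ) :
    dirsAbove (List.replicate m w).flatten o = some o ∧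
      signSum (List.replicate m w).flatten o = m * s := by
  induction m with
  | zero => simp [dirsAbove, signSum]
  | succ m ih =>
    rw [List.replicate_succ, List.flatten_cons]
    obtain ⟨e1, e2⟩ := dirsAbove_append w (List.replicate m w).flatten _ _ h
    rw [e1, e2, ih.1, ih.2, hs]
    refine ⟨rfl, ?_⟩
    push_cast
    ring

lemma strength_eq (pre mid rest : List Bool) (i n : ℕ) (h1 : pre.length = i)
    (h2 : mid.length = n) : strength (pre ++ (mid ++ rest)) i n = esum mid := by
  subst h1 h2
  simp only [strength, esum, List.drop_left, List.take_left]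
  rfl

lemma split3 (o : List Bool) (i n : ℕ) (h : i + n ≤ o.length) : ∃ pre mid rest,
    o = pre ++ (mid ++ rest) ∧ pre.length = i ∧ mid.length = n := by
  refine ⟨o.take i, (o.drop i).take n, (o.drop i).drop n, ?_, ?_, ?_⟩
  · rw [List.take_append_drop, List.take_append_drop]
  · rw [List.length_take]; omega
  · rw [List.length_take, List.length_drop]; omega

theorem twists_dirs (o : List Bool) (i n : ℕ) (h : i + n ≤ o.length) (k : ℤ) :
    dirsAbove (twists i n k) o = some o ∧
      signSum (twists i n k) o = k * (strength o i n ^ 2 - n) := by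
  obtain ⟨pre, mid, rest, rfl, h1, h2⟩ := split3 o i n h
  rw [strength_eq _ _ _ _ _ h1 h2]
  obtain ⟨e1, e2⟩ := fullTwist_dirs (decide (0 ≤ k)) i pre h1 n mid rest h2
  obtain ⟨e3, e4⟩ := replicate_dirs _ _ _ e1 e2 k.natAbs
  refine ⟨e3, ?_⟩
  rw [twists, e4]
  rcases le_or_gt 0 k with hk | hk
  · have : ((k.natAbs : ℕ) : ℤ) = k := by omega
    rw [this, decide_eq_true hk]
    simp [sgn]
  · have : ((k.natAbs : ℕ) : ℤ) = -k := by omega
    rw [this, decide_eq_false (by omega)]
    simp only [sgn, Bool.false_eq_true, if_false]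
    ring

/-! ### Curves -/

lemma step_cross (f cl : ℕ) (pre rest : List ℕ) (a b : ℕ) (i : ℕ) (p : Bool)
    (h : pre.length = i) :
    Trace.step ⟨f, pre ++ a :: b :: rest, cl⟩ (.cross i p) = ⟨f, pre ++ b :: a :: rest, cl⟩ := by
  subst h
  simp [Trace.step]

lemma around_step (p : Bool) (c : ℕ) (i f cl : ℕ) (pre : List ℕ) (hpre : pre.length = i)
    (k : ℕ) : ∀ (mid : List ℕ) (rest : List ℕ), mid.length = k →
    (around i k p).foldl Trace.step ⟨f, pre ++ (mid ++ c :: rest), cl⟩ =
      ⟨f, pre ++ (mid ++ c :: rest), cl⟩ := by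
  induction k with
  | zero =>
    intro mid rest h
    rfl
  | succ k ih =>
    intro mid rest h
    obtain ⟨mid', b, rfl⟩ : ∃ mid' b, mid = mid' ++ [b] := by
      have hne : mid ≠ [] := by intro h0; simp [h0] at h
      exact ⟨mid.dropLast, mid.getLast hne, (List.dropLast_append_getLast hne).symm⟩
    have hm : mid'.length = k := by simpa using h
    have hlen : (pre ++ mid').length = i + k := by simp [hpre, hm]
    have o1 : pre ++ ((mid' ++ [b]) ++ c :: rest) = (pre ++ mid') ++ b :: c :: rest := by simp
    have o2 : pre ++ (mid' ++ c :: b :: rest) = (pre ++ mid') ++ c :: b :: rest := by simp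
    have i1 := ih mid' (b :: rest) hm
    rw [o2] at i1
    rw [o1, around, List.foldl_cons, step_cross _ _ _ _ _ _ _ _ hlen, List.foldl_append, i1,
      List.foldl_cons, List.foldl_nil, step_cross _ _ _ _ _ _ _ _ hlen]

lemma fullTwist_step (p : Bool) (i f cl : ℕ) (pre : List ℕ) (hpre : pre.length = i) (n : ℕ) :
    ∀ (mid : List ℕ) (rest : List ℕ), mid.length = n →
    (fullTwist i n p).foldl Trace.step ⟨f, pre ++ (mid ++ rest), cl⟩ =
      ⟨f, pre ++ (mid ++ rest), cl⟩ := by
  induction n with
  | zero => intro mid rest h; rfl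
  | succ n ih =>
    intro mid rest h
    obtain ⟨mid', c, rfl⟩ : ∃ mid' c, mid = mid' ++ [c] := by
      have hne : mid ≠ [] := by intro h0; simp [h0] at h
      exact ⟨mid.dropLast, mid.getLast hne, (List.dropLast_append_getLast hne).symm⟩
    have hm : mid'.length = n := by simpa using h
    have o1 : pre ++ ((mid' ++ [c]) ++ rest) = pre ++ (mid' ++ c :: rest) := by simp
    rw [o1, fullTwist, List.foldl_append, ih mid' (c :: rest) hm,
      around_step p c i f cl pre hpre n mid' rest hm]

lemma twists_step (t : Trace) (i n : ℕ) (h : i + n ≤ t.names.length) (k : ℤ) :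
    (twists i n k).foldl Trace.step t = t := by
  obtain ⟨f, o, cl⟩ := t
  obtain ⟨pre, mid, rest, h0, h1, h2⟩ : ∃ pre mid rest, o = pre ++ (mid ++ rest) ∧
      pre.length = i ∧ mid.length = n := by
    simp only at h
    refine ⟨o.take i, (o.drop i).take n, (o.drop i).drop n, ?_, ?_, ?_⟩
    · rw [List.take_append_drop, List.take_append_drop]
    · rw [List.length_take]; omega
    · rw [List.length_take, List.length_drop]; omega
  subst h0
  have h3 := fullTwist_step (decide (0 ≤ k)) i f cl pre h1 n mid rest h2
  rw [twists]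
  induction k.natAbs with
  | zero => rfl
  | succ m ih => rw [List.replicate_succ, List.flatten_cons, List.foldl_append, h3, ih]

end Pool.Agent.Helper57.TW
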