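import Pool.Agent.Helper57.TW.Seq
import Pool.Agent.Helper57.TW.Word
import Pool.Agent.Helper2.FillVec

/-!
# The vertex model computes the bracket
-/

namespace Pool.Agent.Helper57.TW

open Pool.Agent.Helper2 LaurentPolynomial

variable {R : Type} [CommRing R]

/-- The vertex model at a unit. -/
noncomputable def VM (z : Rˣ) : Model R ((ℕ → Bool) → R) := sModel z.mul_inv

/-- The operators of the vertex model. -/
noncomputable def VO (z : Rˣ) : Ops ((ℕ → Bool) → R) := (VM z).ops ((VM z).X z)

/-- The crossings as elements of the algebra of endomorphisms. -/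
noncomputable def xs (z : Rˣ) (p : Bool) : ℕ → Module.End R ((ℕ → Bool) → R) :=
  if p then cr (z : R) ((z⁻¹ : Rˣ) : R) (sCup ((z⁻¹ : Rˣ) : R)) (sCap (z : R))
  else cr ((z⁻¹ : Rˣ) : R) (z : R) (sCup ((z⁻¹ : Rˣ) : R)) (sCap (z : R))

lemma vTL (z : Rˣ) : TL (A := Module.End R ((ℕ → Bool) → R)) (z : R) ((z⁻¹ : Rˣ) : R)
    (sCup ((z⁻¹ : Rˣ) : R)) (sCap (z : R)) := sTL z.mul_inv

lemma act_cross (z : Rˣ) (i : ℕ) (p : Bool) (ψ : (ℕ → Bool) → R) :
    (VO z).act (.cross i p) ψ = xs z p i ψ := by
  change (VM z).X z i p ψ = _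
  cases p
  · simp only [Model.X, xs, sg, Bool.false_eq_true, if_false, zpow_neg, zpow_one, inv_inv, cr]
    rfl
  · simp only [Model.X, xs, sg, if_true, zpow_neg, zpow_one, cr]
    rfl

lemma run_around (z : Rˣ) (i : ℕ) (p : Bool) (k : ℕ) : ∀ ψ : (ℕ → Bool) → R,
    (VO z).run (around i k p) ψ = G (xs z p) i k ψ := by
  induction k with
  | zero => intro ψ; rfl
  | succ k ih =>
    intro ψ
    rw [around, Ops.run, Ops.run_append, ih]
    change (VO z).act (.cross (i + k) p) (G (xs z p) i k ((VO z).act (.cross (i + k) p) ψ)) = _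
    rw [act_cross, act_cross]
    rfl

lemma run_fullTwist (z : Rˣ) (i : ℕ) (p : Bool) (n : ℕ) : ∀ ψ : (ℕ → Bool) → R,
    (VO z).run (fullTwist i n p) ψ = F (xs z p) i n ψ := by
  induction n with
  | zero => intro ψ; rfl
  | succ n ih =>
    intro ψ
    rw [fullTwist, Ops.run_append, ih, run_around]
    rfl

/-- The full twist as an invertible endomorphism. -/
noncomputable def fu (z : Rˣ) (i n : ℕ) : (Module.End R ((ℕ → Bool) → R))ˣ where
  val := F (xs z true) i n
  inv := F (xs z false) i n
  val_inv := by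
    have := (vTL z).swap.F_inv i n
    exact this
  inv_val := by
    have := (vTL z).F_inv i n
    exact this

lemma run_twists (z : Rˣ) (i n : ℕ) (k : ℤ) (ψ : (ℕ → Bool) → R) :
    (VO z).run (twists i n k) ψ = ((fu z i n ^ k : (Module.End R ((ℕ → Bool) → R))ˣ) :
      Module.End R ((ℕ → Bool) → R)) ψ := by
  have key : ∀ (p : Bool) (m : ℕ) (ψ : (ℕ → Bool) → R),
      (VO z).run (List.replicate m (fullTwist i n p)).flatten ψ = (F (xs z p) i n ^ m) ψ := by
    intro p m
    induction m with
    | zero => intro ψ; rfl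
    | succ m ih =>
      intro ψ
      rw [List.replicate_succ, List.flatten_cons, Ops.run_append, ih, run_fullTwist, pow_succ]
      rfl
  rw [twists, key]
  rcases le_or_gt 0 k with hk | hk
  · obtain ⟨m, rfl⟩ := Int.eq_ofNat_of_zero_le hk
    simp only [Int.natAbs_natCast, hk, decide_true, zpow_natCast, Units.val_pow_eq_pow_val]
    rfl
  · obtain ⟨m, rfl⟩ := Int.exists_eq_neg_ofNat hk.le
    have h1 : decide ((0 : ℤ) ≤ -(m : ℤ)) = false := decide_eq_false (by omega)
    rw [h1, Int.natAbs_neg, Int.natAbs_natCast, zpow_neg, zpow_natCast, ← inv_pow,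
      Units.val_pow_eq_pow_val]
    rfl

/-- The vertex model computes the Kauffman bracket. -/
theorem run_bracket (z : Rˣ) (D : List Slice) (h : Ok D 0 0) (hD : D ≠ []) :
    (VO z).run D (fun _ => 1) = (ev z loopVal * ev z (bracket D)) • (fun _ => (1 : R)) := by
  have hδ : (VM z).δ = ev z loopVal := by
    change -((z : R) * z + ((z⁻¹ : Rˣ) : R) * ((z⁻¹ : Rˣ) : R)) = _
    rw [loopVal, map_neg, map_add, ev_T, ev_T]
    have h1 : ((z ^ (2 : ℤ) : Rˣ) : R) = (z : R) * z := by
      rw [zpow_two, Units.val_mul]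
    have h2 : ((z ^ (-2 : ℤ) : Rˣ) : R) = ((z⁻¹ : Rˣ) : R) * ((z⁻¹ : Rˣ) : R) := by
      rw [zpow_neg, ← inv_zpow, zpow_two, Units.val_mul]
    rw [h1, h2]
  have hrun := (VM z).run_states z D (VM z).init
  have hinit : (VM z).init = fun _ => (1 : R) := rfl
  have e1 : (VO z).run D (fun _ => 1) = ((VM z).ops ((VM z).X z)).run D (VM z).init := rfl
  rw [e1, hrun]
  have hterm : ∀ s ∈ states D, ((z ^ s.1 : Rˣ) : R) •
      ((VM z).ops ((VM z).X z)).run s.2 (VM z).init =
      ev z (loopVal * (T s.1 * loopVal ^ (curves s.2 - 1))) • (VM z).init := by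
    intro s hs
    obtain ⟨h1, h2⟩ := states_ok D 0 0 h s hs
    have h3 := curves_pos s.2 h2 (states_ne D h hD s hs)
    obtain ⟨C', e, hC', H⟩ := run_smul_build s.2 h1 0 0 [] h2 CupsOk.nil
    cases hC'
    have h4 := H (VM z) ((VM z).X z) 1
    rw [one_smul, one_mul] at h4
    have h5 := H colModel (fun i _ => lift eX0 i) 1
    rw [run_ops_col, one_smul, one_mul] at h5
    have h6 := colour_curves s.2 h2
    have h7 : colOps.run s.2 (fun l => if l.length = 0 then 1 else 0) [] = (2 : ℤ) ^ e := by
      have := congrFun h5 []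
      simp only [Model.build, Pi.smul_apply, smul_eq_mul] at this
      have e2 : colModel.init = (fun l => if l.length = 0 then 1 else 0) := rfl
      rw [e2] at this
      rw [this]
      simp [colModel]
    rw [h7] at h6
    have h8 : e = curves s.2 := Int.pow_right_injective (a := 2) (by decide) h6
    have h9 : (VM z).build [] = (VM z).init := rfl
    rw [h9] at h4
    rw [h4, smul_smul, hδ, h8]
    congr 1
    obtain ⟨k, hk⟩ : ∃ k, curves s.2 = k + 1 := ⟨curves s.2 - 1, by omega⟩
    rw [hk, Nat.add_sub_cancel, map_mul, map_mul, ev_T, map_pow, pow_succ]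
    ring
  have hmap : ((states D).map fun s => ((z ^ s.1 : Rˣ) : R) •
      ((VM z).ops ((VM z).X z)).run s.2 (VM z).init) =
      (states D).map fun s => ev z (loopVal * (T s.1 * loopVal ^ (curves s.2 - 1))) •
        (VM z).init := List.map_congr_left hterm
  rw [hmap, bracket, ← map_mul]
  have hsum : ∀ L : List (ℤ × List Slice), (L.map fun s =>
      ev z (loopVal * (T s.1 * loopVal ^ (curves s.2 - 1))) • (VM z).init).sum =
      ev z (loopVal * (L.map fun s => T s.1 * loopVal ^ (curves s.2 - 1)).sum) • (VM z).init := by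
    intro L
    induction L with
    | nil => simp
    | cons s L ih =>
      rw [List.map_cons, List.sum_cons, ih, List.map_cons, List.sum_cons, mul_add, map_add,
        add_smul]
  exact hsum _

end Pool.Agent.Helper57.TW
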