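import Pool.Agent.Helper57.TW.Spin
import Pool.Agent.Helper57.TW.Run

/-!
# Invariance of cups, caps and crossings at `z = 1`
-/

namespace Pool.Agent.Helper57.TW

open Function (update)
open Pool.Agent.Helper2

variable {R : Type} [CommRing R]

lemma del_update_lt (i a : ℕ) (y : Bool) (s : ℕ → Bool) (h : a < i) :
    del i (update s a y) = update (del i s) a y := by
  funext k
  by_cases hk : k = a
  · subst hk
    rw [del_lt _ _ h, Function.update_self, Function.update_self]
  · rw [Function.update_of_ne hk]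
    by_cases h1 : k < i
    · rw [del_lt _ _ h1, del_lt _ _ h1, Function.update_of_ne hk]
    · rw [del_ge _ _ (by omega), del_ge _ _ (by omega), Function.update_of_ne (by omega)]

lemma del_update_ge (i a : ℕ) (y : Bool) (s : ℕ → Bool) (h : i ≤ a) :
    del i (update s (a + 2) y) = update (del i s) a y := by
  funext k
  by_cases hk : k = a
  · subst hk
    rw [del_ge _ _ h, Function.update_self, Function.update_self]
  · rw [Function.update_of_ne hk]
    by_cases h1 : k < i
    · rw [del_lt _ _ h1, del_lt _ _ h1, Function.update_of_ne (by omega)]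
    · rw [del_ge _ _ (by omega), del_ge _ _ (by omega), Function.update_of_ne (by omega)]

lemma del_update_at (i : ℕ) (y : Bool) (s : ℕ → Bool) : del i (update s i y) = del i s := by
  funext k
  by_cases h1 : k < i
  · rw [del_lt _ _ h1, del_lt _ _ h1, Function.update_of_ne (by omega)]
  · rw [del_ge _ _ (by omega), del_ge _ _ (by omega), Function.update_of_ne (by omega)]

lemma del_update_at1 (i : ℕ) (y : Bool) (s : ℕ → Bool) :
    del i (update s (i + 1) y) = del i s := by
  funext k
  by_cases h1 : k < i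
  · rw [del_lt _ _ h1, del_lt _ _ h1, Function.update_of_ne (by omega)]
  · rw [del_ge _ _ (by omega), del_ge _ _ (by omega), Function.update_of_ne (by omega)]

lemma ins_update_lt (i a : ℕ) (x y c : Bool) (s : ℕ → Bool) (h : a < i) :
    ins i x y (update s a c) = update (ins i x y s) a c := by
  have h0 := ins_del i x y (update (ins i x y s) a c)
    (by rw [Function.update_of_ne (by omega), ins_at])
    (by rw [Function.update_of_ne (by omega), ins_at1])
  rw [← h0, del_update_lt _ _ _ _ h, del_ins]

lemma ins_update_ge (i a : ℕ) (x y c : Bool) (s : ℕ → Bool) (h : i ≤ a) :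
    ins i x y (update s a c) = update (ins i x y s) (a + 2) c := by
  have h0 := ins_del i x y (update (ins i x y s) (a + 2) c)
    (by rw [Function.update_of_ne (by omega), ins_at])
    (by rw [Function.update_of_ne (by omega), ins_at1])
  rw [← h0, del_update_ge _ _ _ _ h, del_ins]

lemma ins_update_at (i : ℕ) (x y c : Bool) (s : ℕ → Bool) :
    update (ins i x y s) i c = ins i c y s := by
  have h0 := ins_del i c y (update (ins i x y s) i c)
    (by rw [Function.update_self])
    (by rw [Function.update_of_ne (by omega), ins_at1])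
  rw [← h0, del_update_at, del_ins]

lemma ins_update_at1 (i : ℕ) (x y c : Bool) (s : ℕ → Bool) :
    update (ins i x y s) (i + 1) c = ins i x c s := by
  have h0 := ins_del i x c (update (ins i x y s) (i + 1) c)
    (by rw [Function.update_of_ne (by omega), ins_at])
    (by rw [Function.update_self])
  rw [← h0, del_update_at1, del_ins]

section site

variable (m : Bool → Bool → R)

lemma cup_St_lt (w : R) (i a : ℕ) (h : a < i) :
    (sCup w i : Module.End R ((ℕ → Bool) → R)) * St m a = St m a * sCup w i := by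
  ext ψ s
  change sCup w i (St m a ψ) s = St m a (sCup w i ψ) s
  simp only [St_apply, sCup_apply, del_update_lt _ _ _ _ h, del_lt _ _ h]
  rw [Function.update_of_ne (by omega : i ≠ a), Function.update_of_ne (by omega : i + 1 ≠ a),
    Function.update_of_ne (by omega : i ≠ a), Function.update_of_ne (by omega : i + 1 ≠ a)]
  ring

lemma cup_St_ge (w : R) (i a : ℕ) (h : i ≤ a) :
    (sCup w i : Module.End R ((ℕ → Bool) → R)) * St m a = St m (a + 2) * sCup w i := by
  ext ψ s
  change sCup w i (St m a ψ) s = St m (a + 2) (sCup w i ψ) s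
  simp only [St_apply, sCup_apply, del_update_ge _ _ _ _ h, del_ge _ _ h]
  rw [Function.update_of_ne (by omega : i ≠ a + 2),
    Function.update_of_ne (by omega : i + 1 ≠ a + 2),
    Function.update_of_ne (by omega : i ≠ a + 2), Function.update_of_ne (by omega : i + 1 ≠ a + 2)]
  ring

lemma cup_St_at (hm : m true true + m false false = 0) (i : ℕ) :
    (St m i + St m (i + 1)) * (sCup 1 i : Module.End R ((ℕ → Bool) → R)) = 0 := by
  ext ψ s
  change St m i (sCup 1 i ψ) s + St m (i + 1) (sCup 1 i ψ) s = 0
  simp only [St_apply, sCup_apply, del_update_at, del_update_at1, Function.update_self]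
  rw [Function.update_of_ne (by omega : i + 1 ≠ i), Function.update_of_ne (by omega : i + 1 ≠ i),
    Function.update_of_ne (by omega : i ≠ i + 1), Function.update_of_ne (by omega : i ≠ i + 1)]
  have hm' : m false false = - m true true := by linear_combination hm
  cases h1 : s i <;> cases h2 : s (i + 1) <;> simp only [cupW, hm'] <;> ring

lemma cap_St_lt (z : R) (i a : ℕ) (h : a < i) :
    (sCap z i : Module.End R ((ℕ → Bool) → R)) * St m a = St m a * sCap z i := by
  ext ψ s
  change sCap z i (St m a ψ) s = St m a (sCap z i ψ) s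
  simp only [St_apply, sCap_apply, ← ins_update_lt _ _ _ _ _ _ h, ins_lt _ _ _ _ h]
  ring

lemma cap_St_ge (z : R) (i a : ℕ) (h : i ≤ a) :
    (sCap z i : Module.End R ((ℕ → Bool) → R)) * St m (a + 2) = St m a * sCap z i := by
  ext ψ s
  change sCap z i (St m (a + 2) ψ) s = St m a (sCap z i ψ) s
  simp only [St_apply, sCap_apply, ← ins_update_ge _ _ _ _ _ _ h, ins_ge _ _ _ _ h]
  ring

lemma cap_St_at (hm : m true true + m false false = 0) (i : ℕ) :
    (sCap 1 i : Module.End R ((ℕ → Bool) → R)) * (St m i + St m (i + 1)) = 0 := by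
  ext ψ s
  change sCap 1 i (St m i ψ + St m (i + 1) ψ) s = 0
  have e : ∀ t, (St m i ψ + St m (i + 1) ψ) t = St m i ψ t + St m (i + 1) ψ t := fun _ => rfl
  rw [sCap_apply, e, e]
  simp only [St_apply, ins_update_at, ins_update_at1, ins_at, ins_at1]
  have hm' : m false false = - m true true := by linear_combination hm
  rw [hm']
  ring

lemma cup_Tot (hm : m true true + m false false = 0) (N i : ℕ) (h : i ≤ N) :
    (sCup 1 i : Module.End R ((ℕ → Bool) → R)) * Tot m 0 N = Tot m 0 (N + 2) * sCup 1 i := by
  obtain ⟨k, rfl⟩ : ∃ k, N = i + k := ⟨N - i, by omega⟩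
  have e1 : i + k + 2 = i + (2 + k) := by ring
  rw [e1, Tot_add, Tot_add, Tot_add]
  have h1 : (sCup 1 i : Module.End R ((ℕ → Bool) → R)) * Tot m 0 i = Tot m 0 i * sCup 1 i := by
    rw [Tot, Finset.mul_sum, Finset.sum_mul]
    apply Finset.sum_congr rfl
    intro b hb
    rw [Finset.mem_range] at hb
    exact cup_St_lt m 1 i _ (by omega)
  have h2 : Tot m (0 + i) 2 * (sCup 1 i : Module.End R ((ℕ → Bool) → R)) = 0 := by
    rw [Tot_succ, Tot_succ, Tot_zero, zero_add]
    have := cup_St_at m hm i
    simpa using this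
  have h3 : (sCup 1 i : Module.End R ((ℕ → Bool) → R)) * Tot m (0 + i) k =
      Tot m (0 + i + 2) k * sCup 1 i := by
    rw [Tot, Tot, Finset.mul_sum, Finset.sum_mul]
    apply Finset.sum_congr rfl
    intro b _
    have h4 : 0 + i + 2 + b = 0 + i + b + 2 := by ring
    rw [h4]
    exact cup_St_ge m 1 i _ (by omega)
  rw [mul_add, add_mul, add_mul, h1, h2, h3]
  abel

lemma cap_Tot (hm : m true true + m false false = 0) (N i : ℕ) (h : i ≤ N) :
    (sCap 1 i : Module.End R ((ℕ → Bool) → R)) * Tot m 0 (N + 2) = Tot m 0 N * sCap 1 i := by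
  obtain ⟨k, rfl⟩ : ∃ k, N = i + k := ⟨N - i, by omega⟩
  have e1 : i + k + 2 = i + (2 + k) := by ring
  rw [e1, Tot_add, Tot_add, Tot_add]
  have h1 : (sCap 1 i : Module.End R ((ℕ → Bool) → R)) * Tot m 0 i = Tot m 0 i * sCap 1 i := by
    rw [Tot, Finset.mul_sum, Finset.sum_mul]
    apply Finset.sum_congr rfl
    intro b hb
    rw [Finset.mem_range] at hb
    exact cap_St_lt m 1 i _ (by omega)
  have h2 : (sCap 1 i : Module.End R ((ℕ → Bool) → R)) * Tot m (0 + i) 2 = 0 := by
    rw [Tot_succ, Tot_succ, Tot_zero, zero_add]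
    have := cap_St_at m hm i
    simpa using this
  have h3 : (sCap 1 i : Module.End R ((ℕ → Bool) → R)) * Tot m (0 + i + 2) k =
      Tot m (0 + i) k * sCap 1 i := by
    rw [Tot, Tot, Finset.mul_sum, Finset.sum_mul]
    apply Finset.sum_congr rfl
    intro b _
    have h4 : 0 + i + 2 + b = 0 + i + b + 2 := by ring
    rw [h4]
    exact cap_St_ge m 1 i _ (by omega)
  rw [mul_add, mul_add, add_mul, h1, h2, h3]
  abel

end site

lemma xs_one (p : Bool) (j : ℕ) : (xs (1 : Rˣ) p j : Module.End R ((ℕ → Bool) → R)) =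
    1 + sCup 1 j * sCap 1 j := by
  cases p <;> simp [xs, cr]

/-- Spin operators pass through diagrams at `z = 1`. -/
lemma run_Tot (m : Bool → Bool → R) (hm : m true true + m false false = 0) (w : List Slice) :
    ∀ (N M : ℕ) (ψ : (ℕ → Bool) → R), Ok w N M →
      (VO (1 : Rˣ)).run w (Tot m 0 N ψ) = Tot m 0 M ((VO (1 : Rˣ)).run w ψ) := by
  induction w with
  | nil =>
    intro N M ψ h
    simp only [Ok] at h
    subst h
    rfl
  | cons s w ih =>
    intro N M ψ h
    cases s with
    | cup i u =>
      have h1 := LinearMap.congr_fun (cup_Tot m hm N i h.1) ψ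
      have e1 : ∀ φ : (ℕ → Bool) → R, (VO (1 : Rˣ)).act (.cup i u) φ = sCup 1 i φ := by
        intro φ
        change sCup (((1 : Rˣ)⁻¹ : Rˣ) : R) i φ = _
        rw [inv_one, Units.val_one]
      have h2 : sCup (1 : R) i (Tot m 0 N ψ) = Tot m 0 (N + 2) (sCup 1 i ψ) := h1
      rw [Ops.run, Ops.run, e1, e1, h2]
      exact ih _ _ _ h.2
    | cap i =>
      obtain ⟨k, rfl⟩ : ∃ k, N = k + 2 := ⟨N - 2, by have := h.1; omega⟩
      have h1 := LinearMap.congr_fun (cap_Tot m hm k i (by have := h.1; omega)) ψ
      have e1 : ∀ φ : (ℕ → Bool) → R, (VO (1 : Rˣ)).act (.cap i) φ = sCap 1 i φ := by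
        intro φ
        change sCap (((1 : Rˣ)) : R) i φ = _
        rw [Units.val_one]
      have h2 : sCap (1 : R) i (Tot m 0 (k + 2) ψ) = Tot m 0 k (sCap 1 i ψ) := h1
      rw [Ops.run, Ops.run, e1, e1, h2]
      exact ih _ _ _ h.2
    | cross i p =>
      obtain ⟨k, rfl⟩ : ∃ k, N = k + 2 := ⟨N - 2, by have := h.1; omega⟩
      have h1 := cap_Tot m hm k i (by have := h.1; omega)
      have h2 := cup_Tot m hm k i (by have := h.1; omega)
      have h3 : (xs (1 : Rˣ) p i : Module.End R ((ℕ → Bool) → R)) * Tot m 0 (k + 2) =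
          Tot m 0 (k + 2) * xs (1 : Rˣ) p i := by
        rw [xs_one, add_mul, mul_add, one_mul, mul_one, mul_assoc, h1, ← mul_assoc, h2, mul_assoc]
      have h4 : xs (1 : Rˣ) p i (Tot m 0 (k + 2) ψ) = Tot m 0 (k + 2) (xs (1 : Rˣ) p i ψ) :=
        LinearMap.congr_fun h3 ψ
      rw [Ops.run, Ops.run, act_cross, act_cross, h4]
      exact ih _ _ _ h.2

end Pool.Agent.Helper57.TW
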