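import Pool.Agent.Helper57.TW.Twist

/-!
# The minimal polynomial of the full twist
-/

namespace Pool.Agent.Helper57.TW

open Polynomial

variable {R A : Type*} [CommRing R] [Ring A] [Algebra R A] {z w : R} {u a : ℕ → A}

section basic

variable (h : TL z w u a)
include h

lemma TL.G_inv (i n : ℕ) : G (cr w z u a) i n * G (cr z w u a) i n = 1 := by
  induction n with
  | zero => exact one_mul _
  | succ n ih =>
    change cr w z u a (i + n) * (G (cr w z u a) i n * cr w z u a (i + n)) *
      (cr z w u a (i + n) * (G (cr z w u a) i n * cr z w u a (i + n))) = 1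
    have hyx := h.yx (i + n)
    generalize cr z w u a (i + n) = p at *
    generalize cr w z u a (i + n) = q at *
    generalize G (cr z w u a) i n = g at *
    generalize G (cr w z u a) i n = g' at *
    calc q * (g' * q) * (p * (g * p)) = q * (g' * ((q * p) * g)) * p := by simp only [mul_assoc]
      _ = 1 := by rw [hyx, one_mul, ih, mul_one, hyx]

lemma TL.F_inv (i n : ℕ) : F (cr w z u a) i n * F (cr z w u a) i n = 1 := by
  induction n with
  | zero => exact one_mul _
  | succ n ih =>
    have hc := (h.F_G i n n le_rfl).eq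
    have hG := h.G_inv i n
    change G (cr w z u a) i n * F (cr w z u a) i n * (G (cr z w u a) i n * F (cr z w u a) i n) = 1
    rw [← hc, mul_assoc, ← mul_assoc (F (cr w z u a) i n), ih, one_mul, hG]

end basic

/-- The right ideal generated by the cups `u i, …, u (i + m - 1)`. -/
def J (u : ℕ → A) (i m : ℕ) (t : A) : Prop := ∃ b : ℕ → A, t = ∑ j ∈ Finset.range m, u (i + j) * b j

lemma J.zero (i m : ℕ) : J u i m 0 := ⟨fun _ => 0, by simp⟩

lemma J.add {i m : ℕ} {s t : A} (hs : J u i m s) (ht : J u i m t) : J u i m (s + t) := by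
  obtain ⟨b, rfl⟩ := hs
  obtain ⟨c, rfl⟩ := ht
  exact ⟨fun j => b j + c j, by simp only [mul_add, Finset.sum_add_distrib]⟩

lemma J.smul {i m : ℕ} {t : A} (ht : J u i m t) (r : R) : J u i m (r • t) := by
  obtain ⟨c, rfl⟩ := ht
  exact ⟨fun j => r • c j, by simp only [mul_smul_comm, Finset.smul_sum]⟩

lemma J.mul {i m : ℕ} {t : A} (ht : J u i m t) (s : A) : J u i m (t * s) := by
  obtain ⟨c, rfl⟩ := ht
  exact ⟨fun j => c j * s, by simp only [Finset.sum_mul, mul_assoc]⟩

lemma J.cup {i m : ℕ} {j : ℕ} (hj : j < m) (s : A) : J u i m (u (i + j) * s) := by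
  classical
  refine ⟨fun k => if k = j then s else 0, ?_⟩
  rw [Finset.sum_eq_single j]
  · simp
  · intro b _ hb
    simp [hb]
  · intro hcon
    exact absurd (Finset.mem_range.2 hj) hcon

/-- `p` acts as the scalar `α` modulo the right ideal. -/
structure Res (u : ℕ → A) (i m : ℕ) (p : A) (α : R) : Prop where
  val : J u i m (p - α • (1 : A))
  stab : ∀ t, J u i m t → J u i m (p * t)

lemma Res.one (i m : ℕ) : Res (R := R) u i m 1 1 where
  val := by
    rw [one_smul, sub_self]
    exact J.zero i m
  stab := fun t ht => by rwa [one_mul]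

lemma Res.mul {i m : ℕ} {p q : A} {α β : R} (hp : Res u i m p α) (hq : Res u i m q β) :
    Res u i m (p * q) (α * β) where
  val := by
    have e : p * q - (α * β) • (1 : A) = p * (q - β • (1 : A)) + β • (p - α • (1 : A)) := by
      rw [mul_sub, mul_smul_comm, mul_one, smul_sub, smul_smul, mul_comm β α]
      abel
    rw [e]
    exact (hp.stab _ hq.val).add (hp.val.smul β)
  stab := fun t ht => by
    rw [mul_assoc]
    exact hp.stab _ (hq.stab _ ht)

lemma Res.cr (i m : ℕ) {j : ℕ} (hj : j < m) : Res u i m (cr z w u a (i + j)) z where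
  val := by
    have e : TW.cr z w u a (i + j) - z • (1 : A) = w • (u (i + j) * a (i + j)) := by
      rw [TW.cr]; abel
    rw [e]
    exact (J.cup hj _).smul w
  stab := fun t ht => by
    rw [TW.cr, add_mul, smul_mul_assoc, one_mul, smul_mul_assoc, mul_assoc]
    exact (ht.smul z).add ((J.cup hj _).smul w)

lemma Res.G (i m k : ℕ) (hk : k ≤ m) : Res u i m (G (TW.cr z w u a) i k) (z ^ (2 * k)) := by
  induction k with
  | zero =>
    have := Res.one (R := R) (u := u) i m
    simpa [TW.G] using this
  | succ k ih =>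
    have h1 := (Res.cr (z := z) (w := w) (u := u) (a := a) i m (j := k) (by omega)).mul
      ((ih (by omega)).mul (Res.cr (z := z) (w := w) (u := u) (a := a) i m (j := k) (by omega)))
    have e : z ^ (2 * (k + 1)) = z * (z ^ (2 * k) * z) := by ring
    rw [e]
    exact h1

lemma Res.F (i m n : ℕ) (hn : n ≤ m + 1) :
    Res u i m (F (TW.cr z w u a) i n) (z ^ (n * (n - 1))) := by
  induction n with
  | zero =>
    have := Res.one (R := R) (u := u) i m
    simpa [TW.F] using this
  | succ n ih =>
    have h1 := (Res.G (z := z) (w := w) (u := u) (a := a) i m n (by omega)).mul (ih (by omega))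
    have e : z ^ ((n + 1) * (n + 1 - 1)) = z ^ (2 * n) * z ^ (n * (n - 1)) := by
      rw [← pow_add]
      congr 1
      cases n with
      | zero => rfl
      | succ n => simp only [Nat.add_sub_cancel]; ring
    rw [e]
    exact h1

/-- The eigenvalues of the full twist on `n` strands. -/
def mu (z w : R) (n t : ℕ) : R := z ^ ((n - 2 * t) * (n - 2 * t - 1)) * w ^ (6 * t)

/-- The polynomial annihilating the full twist. -/
noncomputable def ann (z w : R) (n : ℕ) : R[X] :=
  ∏ t ∈ Finset.range (n / 2 + 1), (X - C (mu z w n t))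

lemma TL.aeval_cup (h : TL z w u a) (i n : ℕ) (j : ℕ) (hij : i ≤ j) (hj : j ≤ i + n)
    (L : Finset ℕ) (μ : ℕ → R) :
    aeval (F (TW.cr z w u a) i (n + 2)) (∏ t ∈ L, (X - C (w ^ 6 * μ t))) * u j =
      (w ^ 6) ^ L.card • (u j * aeval (F (TW.cr z w u a) i n) (∏ t ∈ L, (X - C (μ t)))) := by
  classical
  induction L using Finset.induction_on with
  | empty => simp
  | insert t L ht ih =>
    obtain ⟨d, hd⟩ : ∃ d, j + d = i + n := ⟨i + n - j, by omega⟩
    have hc := h.F_cup i n d j hd hij
    have e1 : ∀ (x : A) (c : R), aeval x (X - C c) = x - c • (1 : A) := by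
      intro x c
      simp [Algebra.algebraMap_eq_smul_one]
    rw [Finset.prod_insert ht, Finset.prod_insert ht, Finset.card_insert_of_notMem ht,
      mul_comm (X - C (w ^ 6 * μ t)), map_mul, mul_assoc, e1, map_mul]
    have e2 : (F (TW.cr z w u a) i (n + 2) - (w ^ 6 * μ t) • (1 : A)) * u j =
        (w ^ 6) • (u j * (F (TW.cr z w u a) i n - μ t • (1 : A))) := by
      rw [sub_mul, hc, smul_mul_assoc, one_mul, mul_sub, smul_sub, mul_smul_comm, mul_one,
        smul_smul]
    rw [e2, e1, mul_smul_comm, ← mul_assoc, ih, smul_mul_assoc, smul_smul]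
    have e3 : Commute (aeval (F (TW.cr z w u a) i n) (∏ t ∈ L, (X - C (μ t))))
        (F (TW.cr z w u a) i n - μ t • (1 : A)) := by
      rw [← e1]
      change _ * _ = _ * _
      rw [← map_mul, mul_comm, map_mul]
    rw [mul_assoc, e3.eq, pow_succ (w ^ 6) L.card, mul_comm (w ^ 6)]

theorem TL.ann_F (h : TL z w u a) (i n : ℕ) : aeval (F (TW.cr z w u a) i n) (ann z w n) = 0 := by
  induction n using Nat.strong_induction_on with
  | _ n ih =>
    rcases n with _ | _ | n
    · have : F (TW.cr z w u a) i 0 = 1 := rfl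
      simp [ann, mu, this]
    · have : F (TW.cr z w u a) i 1 = 1 := one_mul _
      simp [ann, mu, this]
    · have h0 := ih n (by omega)
      have hn : (n + 2) / 2 + 1 = (n / 2 + 1) + 1 := by omega
      have e0 : ann z w (n + 2) = (∏ t ∈ Finset.range (n / 2 + 1), (X - C (w ^ 6 * mu z w n t))) *
          (X - C (z ^ ((n + 2) * (n + 2 - 1)))) := by
        rw [ann, hn, Finset.prod_range_succ']
        congr 1
        · apply Finset.prod_congr rfl
          intro t _
          congr 2
          simp only [mu]
          have e1 : n + 2 - 2 * (t + 1) = n - 2 * t := by omega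
          rw [e1]
          ring
        · simp [mu]
      have hres := (Res.F (z := z) (w := w) (u := u) (a := a) i (n + 1) (n + 2) le_rfl).val
      obtain ⟨b, hb⟩ := hres
      rw [e0, map_mul]
      have e1 : aeval (F (TW.cr z w u a) i (n + 2)) (X - C (z ^ ((n + 2) * (n + 2 - 1)))) =
          F (TW.cr z w u a) i (n + 2) - z ^ ((n + 2) * (n + 2 - 1)) • (1 : A) := by
        rw [map_sub, aeval_X, aeval_C, Algebra.algebraMap_eq_smul_one]
      rw [e1, hb, Finset.mul_sum]
      apply Finset.sum_eq_zero
      intro j hj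
      rw [Finset.mem_range] at hj
      rw [← mul_assoc, h.aeval_cup i n (i + j) (by omega) (by omega)]
      have e2 : ∏ t ∈ Finset.range (n / 2 + 1), (X - C (mu z w n t)) = ann z w n := rfl
      rw [e2, h0, mul_zero, smul_zero, zero_mul]

end Pool.Agent.Helper57.TW
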