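import Pool.Agent.Helper57.TW.Braid
import Pool.Agent.Helper57.TW.Anti2

/-!
# Random braid words
-/

namespace Pool.Agent.Helper57.TW

open Pool.Agent.Helper2 LaurentPolynomial Finset

section

variable {n : ℕ}

lemma braidWord_append (w w' : List (Fin (n - 1) × Bool)) :
    braidWord (w ++ w') = braidWord w ++ braidWord w' := by
  simp [braidWord]

lemma braidWord_flatten (L : List (List (Fin (n - 1) × Bool))) :
    braidWord L.flatten = (L.map braidWord).flatten := by
  simp [braidWord, List.map_flatten]
  rfl

lemma braidWord_bw (w : List (Fin (n - 1) × Bool)) : BW n (braidWord w) := by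
  intro s hs
  rw [braidWord, List.mem_map] at hs
  obtain ⟨c, _, rfl⟩ := hs
  exact ⟨c.1, c.2, rfl, by have := c.1.isLt; omega⟩

lemma braidWord_inj : Function.Injective (braidWord (n := n)) := by
  apply List.map_injective_iff.2
  intro c c' h
  simp only [Slice.cross.injEq] at h
  exact Prod.ext (Fin.ext h.1) h.2

lemma exists_braidWord (γ : List Slice) (h : BW n γ) :
    ∃ w : List (Fin (n - 1) × Bool), braidWord w = γ := by
  induction γ with
  | nil => exact ⟨[], rfl⟩
  | cons s γ ih =>
    obtain ⟨w, hw⟩ := ih (fun s hs => h s (List.mem_cons_of_mem _ hs))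
    obtain ⟨j, p, rfl, hj⟩ := h s List.mem_cons_self
    refine ⟨(⟨j, by omega⟩, p) :: w, ?_⟩
    rw [← hw]
    rfl

/-- The slices of a block. -/
def enc {L : ℕ} (v : Fin L → Fin (n - 1) × Bool) : List Slice := braidWord (List.ofFn v)

lemma enc_inj {L : ℕ} : Function.Injective (enc (n := n) (L := L)) := by
  intro v v' h
  exact List.ofFn_injective (braidWord_inj h)

lemma exists_enc (L : ℕ) (γ : List Slice) (h : BW n γ) (hL : γ.length = L) :
    ∃ v : Fin L → Fin (n - 1) × Bool, enc v = γ := by
  obtain ⟨w, hw⟩ := exists_braidWord γ h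
  have hlen : w.length = L := by rw [← hL, ← hw]; simp [braidWord]
  subst hlen
  refine ⟨fun t => w.get t, ?_⟩
  rw [enc, List.ofFn_get]
  exact hw

lemma cups_dirs (m : ℕ) : dirsAbove ((List.range m).map fun i => Slice.cup i true) [] =
    some (List.replicate m true ++ List.replicate m false) := by
  induction m with
  | zero => rfl
  | succ m ih =>
    rw [List.range_succ, List.map_append, (dirsAbove_append _ _ [] _ ih).1]
    have h := dirs_cup (List.replicate m true) (List.replicate m false) m true (by simp)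
    simp only [List.map_cons, List.map_nil, dirsAbove, h, Option.bind_some]
    rw [List.replicate_succ']
    have : List.replicate (m + 1) false = false :: List.replicate m false := List.replicate_succ
    rw [this]
    simp

end

theorem random_braids (n N : ℕ) (hn : 2 ≤ n) :
    (({w : Fin N → Fin (n - 1) × Bool | IsKnotDiagram (braidClosure n (List.ofFn w)) ∧
      fPoly (braidClosure n (List.ofFn w)) = 1}.ncard : ℕ) : ℝ) ≤
      (2 * (n - 1)) ^ N *
        Real.sqrt (2 * (n * (n - 1)) * (2 * (n - 1)) ^ (n * (n - 1)) / (N + 1)) := by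
  classical
  set L := n * (n - 1) with hL
  have hLpos : 0 < L := Nat.mul_pos (by omega) (by omega)
  set M := N / L with hM
  set ρ := N % L with hρ
  have hN : N = M * L + ρ := by rw [hM, hρ, mul_comm]; exact (Nat.div_add_mod N L).symm
  have hMN : N + 1 ≤ (M + 1) * L := by
    have := Nat.mod_lt N hLpos
    rw [add_mul, one_mul]
    omega
  clear_value M ρ
  subst hN
  set α := Fin (n - 1) × Bool with hα
  have hcardα : Fintype.card α = 2 * (n - 1) := by
    change Fintype.card (Fin (n - 1) × Bool) = _
    rw [Fintype.card_prod, Fintype.card_fin, Fintype.card_bool, mul_comm]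
  set X := Fin L → α with hX
  have hcardX : Fintype.card X = (2 * (n - 1)) ^ L := by
    change Fintype.card (Fin L → α) = _
    rw [Fintype.card_fun, Fintype.card_fin, hcardα]
  -- the special letters
  obtain ⟨a, ha⟩ := exists_enc (n := n) L (fullTwist 0 n true) (fullTwist_bw n true n le_rfl)
    (fullTwist_length 0 true n)
  obtain ⟨b, hb⟩ := exists_enc (n := n) L (fullTwist 0 n false) (fullTwist_bw n false n le_rfl)
    (fullTwist_length 0 false n)
  have hne := fullTwist_ne 0 n hn
  have hab : a ≠ b := by
    rintro rfl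
    exact hne (ha.symm.trans hb)
  have hkap : ∀ v : X, sgw n (enc v) = kap a b v := by
    intro v
    unfold sgw kap
    have h1 : enc v = fullTwist 0 n true ↔ v = a :=
      ⟨fun h => enc_inj (h.trans ha.symm), fun h => by rw [h, ha]⟩
    have h2 : enc v = fullTwist 0 n false ↔ v = b :=
      ⟨fun h => enc_inj (h.trans hb.symm), fun h => by rw [h, hb]⟩
    simp only [h1, h2]
  have hfix : ∀ v : X, fixw n (enc (Equiv.swap a b v)) = fixw n (enc v) := by
    intro v
    by_cases h1 : v = a
    · subst h1
      rw [Equiv.swap_apply_left, ha, hb]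
      simp [fixw]
    · by_cases h2 : v = b
      · subst h2
        rw [Equiv.swap_apply_right, ha, hb]
        simp [fixw]
      · rw [Equiv.swap_apply_of_ne_of_ne h1 h2]
  -- the blocks
  let bs : (Fin M → X) → List (List Slice) := fun x => List.ofFn fun j => enc (x j)
  have hbs : ∀ x, ∀ y ∈ bs x, BW n y := by
    intro x y hy
    rw [List.mem_ofFn] at hy
    obtain ⟨j, rfl⟩ := hy
    exact braidWord_bw _
  have hsgs : ∀ x, sgs n (bs x) = ks a b x := by
    intro x
    rw [sgs, ks, List.map_ofFn, List.sum_ofFn]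
    exact Finset.sum_congr rfl fun j _ => hkap _
  have hrest : ∀ x u, rest n (bs (tog a b x u)) = rest n (bs x) := by
    intro x u
    rw [rest, rest, List.map_ofFn, List.map_ofFn]
    congr 2
    funext j
    simp only [Function.comp, tog]
    split_ifs
    · exact hfix _
    · rfl
  set Pn := (List.range n).map fun i => Slice.cup i true with hPn
  have hPd : dirsAbove Pn [] = some (List.replicate n true ++ List.replicate n false) :=
    cups_dirs n
  -- the bad words for a fixed remainder
  let Bad : (Fin ρ → α) → (Fin M → X) → Prop := fun r x =>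
    IsKnotDiagram (Pn ++ ((bs x).flatten ++ (braidWord (List.ofFn r) ++
      ((List.range n).reverse.map Slice.cap)))) ∧
    fPoly (Pn ++ ((bs x).flatten ++ (braidWord (List.ofFn r) ++
      ((List.range n).reverse.map Slice.cap)))) = 1
  have hstr : strength (List.replicate n true ++ List.replicate n false) 0 n = n := by
    have := strength_eq [] (List.replicate n true) (List.replicate n false) 0 n rfl (by simp)
    rw [List.nil_append] at this
    rw [this]
    simp [esum, eps]
  have hH : ∀ r x (u v w : Fin M → Bool), Bad r (tog a b x u) → Bad r (tog a b x v) →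
      Bad r (tog a b x w) → ks a b (tog a b x u) = ks a b (tog a b x v) ∨
      ks a b (tog a b x u) = ks a b (tog a b x w) ∨
      ks a b (tog a b x v) = ks a b (tog a b x w) := by
    intro r x u v w hu hv hw
    by_contra hcon
    push Not at hcon
    obtain ⟨h1, h2, h3⟩ := hcon
    have cu := collect Pn (braidWord (List.ofFn r) ++ ((List.range n).reverse.map Slice.cap)) n
      _ hPd (by omega) (bs (tog a b x u)) (hbs _) hu.1.1
    have cv := collect Pn (braidWord (List.ofFn r) ++ ((List.range n).reverse.map Slice.cap)) n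
      _ hPd (by omega) (bs (tog a b x v)) (hbs _) hv.1.1
    have cw := collect Pn (braidWord (List.ofFn r) ++ ((List.range n).reverse.map Slice.cap)) n
      _ hPd (by omega) (bs (tog a b x w)) (hbs _) hw.1.1
    rw [hrest, hsgs] at cu cv cw
    have hK : IsKnotDiagram ((Pn ++ rest n (bs x)) ++ (braidWord (List.ofFn r) ++
        ((List.range n).reverse.map Slice.cap))) :=
      ⟨cu.2.2.1, by rw [← cu.2.1]; exact hu.1.2⟩
    refine at_most_two (Pn ++ rest n (bs x)) (braidWord (List.ofFn r) ++
        ((List.range n).reverse.map Slice.cap)) _ cu.2.2.2 0 n (by simp) (by omega) hK ?_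
      _ _ _ h1 h2 h3 ?_ ?_ ?_
    · rw [hstr, Nat.abs_cast]
      exact_mod_cast hn
    · rw [← cu.1]; exact hu.2
    · rw [← cv.1]; exact hv.2
    · rw [← cw.1]; exact hw.2
  have hbound : ∀ r, ((univ.filter (Bad r)).card : ℝ) ≤ (Fintype.card X : ℝ) ^ M *
      Real.sqrt (2 * Fintype.card X / (M + 1)) := fun r => bad_final hab (Bad r) (hH r)
  -- decomposition
  set W : Set (Fin (M * L + ρ) → α) := {w | IsKnotDiagram (braidClosure n (List.ofFn w)) ∧
      fPoly (braidClosure n (List.ofFn w)) = 1} with hW
  let xw : (Fin (M * L + ρ) → α) → (Fin M → X) := fun w j t =>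
    (fun i : Fin (M * L) => w (Fin.castAdd ρ i)) ⟨(j : ℕ) * L + t, by
      have hj := j.isLt
      have ht := t.isLt
      calc (j : ℕ) * L + t < j * L + L := by omega
        _ = (j + 1) * L := by ring
        _ ≤ M * L := Nat.mul_le_mul_right _ hj⟩
  let rw' : (Fin (M * L + ρ) → α) → (Fin ρ → α) := fun w t => w (Fin.natAdd (M * L) t)
  have hlist : ∀ w : Fin (M * L + ρ) → α, List.ofFn w =
      (List.ofFn fun j => List.ofFn (xw w j)).flatten ++ List.ofFn (rw' w) := by
    intro w
    rw [List.ofFn_add, List.ofFn_mul]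
    rfl
  have hclos : ∀ w, braidClosure n (List.ofFn w) = Pn ++ ((bs (xw w)).flatten ++
      (braidWord (List.ofFn (rw' w)) ++ ((List.range n).reverse.map Slice.cap))) := by
    intro w
    rw [braidClosure, hlist, braidWord_append, braidWord_flatten, List.map_ofFn,
      List.append_assoc]
    rfl
  have hcard : W.ncard = (univ.filter (fun w => w ∈ W)).card := by
    rw [← Set.ncard_coe_finset]
    congr 1
    ext w
    simp
  rw [hcard]
  have hsplit : (univ.filter (fun w => w ∈ W)).card ≤
      ∑ r : Fin ρ → α, (univ.filter (Bad r)).card := by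
    rw [Finset.card_eq_sum_card_fiberwise (f := rw') (t := univ) (fun _ _ => Finset.mem_coe.2
      (Finset.mem_univ _))]
    apply Finset.sum_le_sum
    intro r _
    apply Finset.card_le_card_of_injOn xw
    · intro w hw
      rw [Finset.mem_coe, Finset.mem_filter, Finset.mem_filter] at hw
      rw [Finset.mem_coe, Finset.mem_filter]
      refine ⟨Finset.mem_univ _, ?_⟩
      have h1 := hw.1.2
      rw [hW, Set.mem_ofPred_eq, hclos w, hw.2] at h1
      exact h1
    · intro w hw w' hw' hww
      rw [Finset.mem_coe, Finset.mem_filter] at hw hw'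
      apply List.ofFn_injective
      rw [hlist w, hlist w', hww, hw.2, hw'.2]
  have h1 : ((univ.filter (fun w => w ∈ W)).card : ℝ) ≤
      (Fintype.card α : ℝ) ^ ρ * ((Fintype.card X : ℝ) ^ M *
        Real.sqrt (2 * Fintype.card X / (M + 1))) := by
    calc ((univ.filter (fun w => w ∈ W)).card : ℝ)
        ≤ ((∑ r : Fin ρ → α, (univ.filter (Bad r)).card : ℕ) : ℝ) := by exact_mod_cast hsplit
      _ = ∑ r : Fin ρ → α, ((univ.filter (Bad r)).card : ℝ) := by push_cast; rfl
      _ ≤ ∑ r : Fin ρ → α, ((Fintype.card X : ℝ) ^ M *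
          Real.sqrt (2 * Fintype.card X / (M + 1))) := Finset.sum_le_sum fun r _ => hbound r
      _ = _ := by
          rw [Finset.sum_const, Finset.card_univ, Fintype.card_fun, Fintype.card_fin,
            nsmul_eq_mul]
          push_cast
          rfl
  refine h1.trans ?_
  rw [hcardα, hcardX]
  have hn1 : ((n - 1 : ℕ) : ℝ) = (n : ℝ) - 1 := by
    rw [Nat.cast_sub (by omega)]; norm_num
  push_cast
  rw [hn1]
  have hn0 : (0 : ℝ) ≤ (n : ℝ) - 1 := by
    rw [← hn1]; positivity
  have hLr : (L : ℝ) = n * ((n : ℝ) - 1) := by rw [hL]; push_cast; rw [hn1]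
  have h2 : (2 * ((n : ℝ) - 1)) ^ ρ * (((2 * ((n : ℝ) - 1)) ^ L) ^ M *
      Real.sqrt (2 * (2 * ((n : ℝ) - 1)) ^ L / (M + 1))) =
      (2 * ((n : ℝ) - 1)) ^ (M * L + ρ) *
        Real.sqrt (2 * (2 * ((n : ℝ) - 1)) ^ L / (M + 1)) := by
    rw [← pow_mul, pow_add, mul_comm L M]; ring
  rw [h2]
  apply mul_le_mul_of_nonneg_left _ (by positivity)
  apply Real.sqrt_le_sqrt
  have h3 : (((M * L + ρ : ℕ) : ℝ) + 1) ≤ ((M : ℝ) + 1) * L := by exact_mod_cast hMN
  have h4 : (0 : ℝ) < ((M * L + ρ : ℕ) : ℝ) + 1 := by positivity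
  have h5 : (0 : ℝ) < (M : ℝ) + 1 := by positivity
  push_cast at h3 h4
  rw [div_le_div_iff₀ h5 h4, ← hLr]
  have h6 : (0 : ℝ) ≤ 2 * (2 * ((n : ℝ) - 1)) ^ L := by positivity
  nlinarith [mul_le_mul_of_nonneg_left h3 h6]

end Pool.Agent.Helper57.TW
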