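import Pool.Agent.Helper57.TW.Family

/-!
# Twisting strands of a knot diagram

Let `D` be a knot diagram, cut by horizontal lines into elementary pieces, and choose `r` places
(heights) of `D`, and at the `j`-th place a group of `n_j ≥ 1` adjacent strands, with arbitrary
directions; let `l_j` be the number of upward strands minus the number of downward strands of
the group.  For `k ∈ ℤ^r` let `D(k)` be the diagram with `k_j` full twists of the group
inserted at the `j`-th place, for all `j`.

Then every `D(k)` is a knot diagram, and with `N_j = 2` if `|l_j| ≥ 2` and `N_j = ⌊n_j / 2⌋` if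
`|l_j| ≤ 1` one of the following holds:

* `f(D(k)) = 1` for all `k`, and `|l_j| ≤ 1` for all `j`;
* for all finite sets `S_1, ..., S_r` of integers, at most `∑_j N_j ∏_{i ≠ j} |S_i|` elements
  `k` of the box `∏_j S_j` satisfy `f(D(k)) = 1`.

So for `r = 1` at most `N_1` of the diagrams `D(k)`, `k ∈ ℤ`, have `f = 1`, or all.
-/

namespace Pool.Agent.Helper57.TW.RetiredTwistFamilies

open Pool.Agent.Helper2 Pool.Agent.Helper57.TW

/-- Full twists at several places of a knot diagram: the f-polynomial is one for all of the
diagrams, and then `|l_j| ≤ 1` for all `j`, or only for few of them. -/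
theorem result (r : ℕ) (B : Fin r → Place) (Q : List Slice) (hB : Fits r B [])
    (hK : IsKnotDiagram (family Q r B (fun _ => 0))) :
    (∀ k, IsKnotDiagram (family Q r B k)) ∧
    (((∀ k, fPoly (family Q r B k) = 1) ∧ ∀ j, |(B j).l| ≤ 1) ∨
      ∀ (S : Fin r → Finset ℤ) (C : Finset (Fin r → ℤ)),
        (∀ k ∈ C, (∀ j, k j ∈ S j) ∧ fPoly (family Q r B k) = 1) →
        C.card ≤ ∑ j, (B j).bound * ∏ i ∈ Finset.univ.erase j, (S i).card) :=
  family_main r B Q hB hK

end Pool.Agent.Helper57.TW.RetiredTwistFamilies
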