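import Mathlib

/-!
# A trace identity for the Casimir element
-/

namespace Pool.Agent.Helper57.TW

section

variable {A : Type*} [Ring A] {e f h c : A}

lemma eh_pow (he : h * e = e * h + 2 * e) (k : ℕ) : e * h ^ k = (h - 2) ^ k * e := by
  have h1 : SemiconjBy e h (h - 2) := by
    change e * h = (h - 2) * e
    rw [sub_mul, he]
    abel
  exact (h1.pow_right k)

lemma cas_comm_h (he : h * e = e * h + 2 * e) (hf : h * f = f * h - 2 * f)
    (hc : c = h * h + 2 * h + 4 * (f * e)) : c * h = h * c := by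
  have h1 : f * e * h = h * (f * e) := by
    have h2 : e * h = h * e - 2 * e := by rw [he]; abel
    have h3 : f * h = h * f + 2 * f := by rw [hf]; abel
    rw [mul_assoc, h2, mul_sub, ← mul_assoc, h3, add_mul, ← mul_assoc f 2 e,
      show f * 2 = 2 * f by rw [mul_two, two_mul], mul_assoc h f e, mul_assoc 2 f e]
    abel
  have h4 : (4 : A) * (f * e) * h = h * (4 * (f * e)) := by
    have h6 : (4 : A) * h = h * 4 := (Commute.ofNat_left 4 h).eq
    calc (4 : A) * (f * e) * h = 4 * (f * e * h) := mul_assoc _ _ _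
      _ = 4 * (h * (f * e)) := by rw [h1]
      _ = 4 * h * (f * e) := (mul_assoc _ _ _).symm
      _ = h * (4 * (f * e)) := by rw [h6, mul_assoc]
  have h5 : (2 : A) * h = h * 2 := (Commute.ofNat_left 2 h).eq
  rw [hc, add_mul, add_mul, mul_add, mul_add, h4, mul_assoc h h h, h5, mul_assoc h 2 h, h5]

lemma cas_comm_e (he : h * e = e * h + 2 * e) (hef : e * f = f * e + h)
    (hc : c = h * h + 2 * h + 4 * (f * e)) : c * e = e * c := by
  have h2 : e * h = h * e - 2 * e := by rw [he]; abel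
  have h3 : (2 : A) * e = e * 2 := (Commute.ofNat_left 2 e).eq
  have h4 : (4 : A) * e = e * 4 := (Commute.ofNat_left 4 e).eq
  have h5 : (2 : A) * h = h * 2 := (Commute.ofNat_left 2 h).eq
  have e1 : e * (h * h) = h * h * e - 4 * (h * e) + 4 * e := by
    rw [← mul_assoc, h2, sub_mul, mul_assoc h e h, h2, mul_assoc 2 e h, h2, mul_sub, mul_sub]
    have : h * (2 * e) = 2 * (h * e) := by rw [← mul_assoc, ← h5, mul_assoc]
    rw [this]
    have h6 : (4 : A) = 2 + 2 := by norm_num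
    rw [h6, add_mul, add_mul, mul_assoc]
    have h7 : (2 : A) * (2 * e) = 2 * e + 2 * e := by rw [two_mul]
    rw [h7]
    abel
  have e2 : e * (2 * h) = 2 * (h * e) - 4 * e := by
    rw [← mul_assoc, ← h3, mul_assoc, h2, mul_sub]
    have h6 : (4 : A) = 2 * 2 := by norm_num
    rw [h6, mul_assoc]
  have e3 : e * (4 * (f * e)) = 4 * (f * e) * e + 4 * (h * e) := by
    rw [← mul_assoc, ← h4, mul_assoc, ← mul_assoc e f e, hef, add_mul, mul_add, mul_assoc 4 (f * e) e]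
  rw [hc, add_mul, add_mul, mul_add, mul_add, e1, e2, e3, mul_assoc 2 h e]
  have h6 : (4 : A) = 2 + 2 := by norm_num
  rw [h6]
  simp only [add_mul]
  abel

end

/-- The value of a trace on the square of a shifted Casimir element. -/
theorem trace_id {A : Type*} [Ring A] [Algebra ℚ A] (φ : A →ₗ[ℚ] ℚ) {e f h c : A}
    (he : h * e = e * h + 2 * e) (hf : h * f = f * h - 2 * f) (hef : e * f = f * e + h)
    (hc : c = h * h + 2 * h + 4 * (f * e)) (l : ℚ)
    (hφ : ∀ j k : ℕ, φ (e * (c ^ j * (h ^ k * f))) = φ (c ^ j * (h ^ k * f) * e))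
    (h2 : φ (h ^ 2) = l ^ 2 * φ 1) (h4 : φ (h ^ 4) = l ^ 4 * φ 1) :
    φ ((c - (3 * l ^ 2) • (1 : A)) * (c - (3 * l ^ 2) • (1 : A))) =
      (4 * l ^ 2 - 4 * l ^ 4) * φ 1 := by
  have cch : Commute c h := cas_comm_h he hf hc
  have cce : Commute c e := cas_comm_e he hef hc
  have hfe : (4 : A) * (f * e) = c - h ^ 2 - 2 * h := by
    rw [hc, pow_two]; abel
  have hef4 : (4 : A) * (e * f) = c - h ^ 2 + 2 * h := by
    rw [hef, mul_add, hfe]
    have : (4 : A) * h = 2 * h + 2 * h := by rw [← add_mul]; norm_num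
    rw [this]
    abel
  -- the main relation
  have key : ∀ j k : ℕ, φ (c ^ j * ((h - 2) ^ k * (c - h ^ 2 + 2 * h))) =
      φ (c ^ j * (h ^ k * (c - h ^ 2 - 2 * h))) := by
    intro j k
    have e1 : c ^ j * ((h - 2) ^ k * (c - h ^ 2 + 2 * h)) =
        (4 : ℚ) • (e * (c ^ j * (h ^ k * f))) := by
      rw [← hef4, ← mul_assoc e, (cce.symm.pow_right j).eq, mul_assoc (c ^ j), ← mul_assoc e,
        eh_pow he, mul_assoc ((h - 2) ^ k)]
      have : (4 : A) * (e * f) = (4 : ℚ) • (e * f) := by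
        rw [Algebra.smul_def, map_ofNat]
      rw [this, mul_smul_comm, mul_smul_comm]
    have e2 : c ^ j * (h ^ k * (c - h ^ 2 - 2 * h)) =
        (4 : ℚ) • (c ^ j * (h ^ k * f) * e) := by
      rw [← hfe]
      have : (4 : A) * (f * e) = (4 : ℚ) • (f * e) := by
        rw [Algebra.smul_def, map_ofNat]
      rw [this, mul_smul_comm, mul_smul_comm]
      simp only [mul_assoc]
    rw [e1, e2, map_smul, map_smul, hφ]
  have k00 := key 0 0
  have k01 := key 0 1
  have k02 := key 0 2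
  have k03 := key 0 3
  have k10 := key 1 0
  have k11 := key 1 1
  have hch : c * h = h * c := cch.eq
  -- expansions
  have hm2 : h - 2 = h - (2 : ℚ) • (1 : A) := by
    rw [Algebra.smul_def, map_ofNat, mul_one]
  have h2h : (2 : A) * h = (2 : ℚ) • h := by
    rw [Algebra.smul_def, map_ofNat]
  simp only [pow_zero, one_mul, pow_one, h2h, hm2] at k00 k01 k02 k03 k10 k11
  have x01 : (h - (2 : ℚ) • (1 : A)) * (c - h ^ 2 + (2 : ℚ) • h) =
      h * c - h ^ 3 + (4 : ℚ) • h ^ 2 - (2 : ℚ) • c - (4 : ℚ) • h := by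
    simp only [sub_mul, mul_sub, mul_add, smul_mul_assoc, mul_smul_comm, one_mul,
      smul_sub, pow_succ, pow_zero, mul_assoc, smul_smul]
    module
  have y01 : h * (c - h ^ 2 - (2 : ℚ) • h) = h * c - h ^ 3 - (2 : ℚ) • h ^ 2 := by
    simp only [mul_sub, mul_smul_comm, pow_succ, pow_zero, one_mul, mul_assoc]
  have x02 : (h - (2 : ℚ) • (1 : A)) ^ 2 * (c - h ^ 2 + (2 : ℚ) • h) =
      h ^ 2 * c - h ^ 4 + (6 : ℚ) • h ^ 3 - (4 : ℚ) • (h * c) - (12 : ℚ) • h ^ 2 +
        (4 : ℚ) • c + (8 : ℚ) • h := by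
    rw [pow_two, mul_assoc, x01]
    simp only [sub_mul, mul_sub, mul_add, smul_mul_assoc, mul_smul_comm, one_mul,
      smul_sub, pow_succ, pow_zero, mul_assoc, smul_smul]
    module
  have y02 : h ^ 2 * (c - h ^ 2 - (2 : ℚ) • h) = h ^ 2 * c - h ^ 4 - (2 : ℚ) • h ^ 3 := by
    simp only [mul_sub, mul_smul_comm, pow_succ, pow_zero, one_mul, mul_assoc]
  have x03 : (h - (2 : ℚ) • (1 : A)) ^ 3 * (c - h ^ 2 + (2 : ℚ) • h) =
      h ^ 3 * c - h ^ 5 + (8 : ℚ) • h ^ 4 - (6 : ℚ) • (h ^ 2 * c) - (24 : ℚ) • h ^ 3 +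
        (12 : ℚ) • (h * c) + (32 : ℚ) • h ^ 2 - (8 : ℚ) • c - (16 : ℚ) • h := by
    have : (h - (2 : ℚ) • (1 : A)) ^ 3 = (h - (2 : ℚ) • (1 : A)) * (h - (2 : ℚ) • (1 : A)) ^ 2 :=
      pow_succ' _ _
    rw [this, mul_assoc, x02]
    simp only [sub_mul, mul_sub, mul_add, smul_mul_assoc, mul_smul_comm, one_mul,
      smul_sub, pow_succ, pow_zero, mul_assoc, smul_smul]
    module
  have y03 : h ^ 3 * (c - h ^ 2 - (2 : ℚ) • h) = h ^ 3 * c - h ^ 5 - (2 : ℚ) • h ^ 4 := by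
    simp only [mul_sub, mul_smul_comm, pow_succ, pow_zero, one_mul, mul_assoc]
  have x10 : c * (c - h ^ 2 + (2 : ℚ) • h) = c * c - h ^ 2 * c + (2 : ℚ) • (h * c) := by
    rw [mul_add, mul_sub, (cch.pow_right 2).eq, mul_smul_comm, hch]
  have y10 : c * (c - h ^ 2 - (2 : ℚ) • h) = c * c - h ^ 2 * c - (2 : ℚ) • (h * c) := by
    rw [mul_sub, mul_sub, (cch.pow_right 2).eq, mul_smul_comm, hch]
  have x11 : c * ((h - (2 : ℚ) • (1 : A)) * (c - h ^ 2 + (2 : ℚ) • h)) =
      c * (h * c) - c * h ^ 3 + (4 : ℚ) • (h ^ 2 * c) - (2 : ℚ) • (c * c) -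
        (4 : ℚ) • (h * c) := by
    rw [x01, mul_sub, mul_sub, mul_add, mul_sub, mul_smul_comm, mul_smul_comm, mul_smul_comm,
      (cch.pow_right 2).eq, hch]
  have y11 : c * (h * (c - h ^ 2 - (2 : ℚ) • h)) =
      c * (h * c) - c * h ^ 3 - (2 : ℚ) • (h ^ 2 * c) := by
    rw [y01, mul_sub, mul_sub, mul_smul_comm, (cch.pow_right 2).eq]
  rw [x01, y01] at k01
  rw [x02, y02] at k02
  rw [x03, y03] at k03
  rw [x10, y10] at k10
  rw [x11, y11] at k11
  simp only [map_sub, map_add, map_smul, smul_eq_mul] at k00 k01 k02 k03 k10 k11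
  have hfin : (c - (3 * l ^ 2) • (1 : A)) * (c - (3 * l ^ 2) • (1 : A)) =
      c * c - (6 * l ^ 2) • c + (9 * l ^ 4) • (1 : A) := by
    simp only [sub_mul, mul_sub, smul_mul_assoc, mul_smul_comm, one_mul, mul_one]
    module
  rw [hfin, map_add, map_sub, map_smul, map_smul, smul_eq_mul, smul_eq_mul]
  have a1 : φ h = 0 := by linarith
  have a2 : φ c = 3 * φ (h ^ 2) := by linarith
  have a3 : φ (h * c) = 0 := by linarith
  have a4 : φ (h ^ 3) = 0 := by linarith
  have a5 : φ (h ^ 2 * c) = 5 / 3 * φ (h ^ 4) + 4 / 3 * φ (h ^ 2) := by linarith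
  have a6 : φ (c * c) = 5 * φ (h ^ 4) + 4 * φ (h ^ 2) := by linarith
  rw [a6, a2, h2, h4]
  ring

end Pool.Agent.Helper57.TW
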