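import Pool.Agent.Helper57.TW.TwoState
import Pool.Agent.Helper57.TW.TraceId
import Pool.Agent.Helper57.TW.Base

/-!
# The second order term
-/

namespace Pool.Agent.Helper57.TW

open Pool.Agent.Helper2 LaurentPolynomial

/-- Endomorphisms of the state space. -/
abbrev EE (R : Type) [CommRing R] := Module.End R ((ℕ → Bool) → R)

/-- Parity. -/
lemma strength_par (o : List Bool) (i n : ℕ) (hin : i + n ≤ o.length) :
    ∃ c : ℤ, strength o i n ^ 2 - n = 2 * c := by
  obtain ⟨pre, mid, rest, h0, h1, h2⟩ := split3 o i n hin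
  have h3 : strength o i n = esum mid := by rw [h0, strength_eq _ _ _ _ _ h1 h2]
  have h4 : ∀ L : List Bool, ∃ c : ℤ, esum L - L.length = 2 * c := by
    intro L
    induction L with
    | nil => exact ⟨0, by simp [esum]⟩
    | cons b L ih =>
      obtain ⟨c, hc⟩ := ih
      cases b
      · refine ⟨c - 1, ?_⟩
        simp only [esum, List.map_cons, List.sum_cons, eps, List.length_cons] at hc ⊢
        push_cast
        linarith
      · refine ⟨c, ?_⟩
        simp only [esum, List.map_cons, List.sum_cons, eps, List.length_cons] at hc ⊢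
        push_cast
        linarith
  obtain ⟨c, hc⟩ := h4 mid
  rw [← h3, h2] at hc
  obtain ⟨d, hd⟩ := Int.even_mul_pred_self (strength o i n)
  exact ⟨c + d, by nlinarith⟩

theorem twist_formula {R : Type} [CommRing R] (z : Rˣ) (P Q : List Slice) (o : List Bool)
    (hP : dirsAbove P [] = some o) (i n : ℕ)
    (hin : i + n ≤ o.length) (hD : IsDiagram (P ++ Q)) (hne : 1 ≤ n) (s : ℕ → Bool) (k : ℤ) :
      ev z loopVal * ev z (fPoly (P ++ (twists i n k ++ Q))) =
        ((-1) ^ (writhe (P ++ Q)).natAbs * ((z ^ (-3 * writhe (P ++ Q)) : Rˣ) : R)) *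
        (((z ^ (-3 * (strength o i n ^ 2 - n))) ^ k : Rˣ) *
          (VO z).run Q (((fu z i n ^ k : (Module.End R ((ℕ → Bool) → R))ˣ) :
            Module.End R ((ℕ → Bool) → R)) ((VO z).run P (fun _ => 1))) s) := by
  obtain ⟨c, hc⟩ := strength_par o i n hin
  set l := strength o i n with hl
  have hPne : P ≠ [] := by
    rintro rfl
    simp only [dirsAbove, Option.some.injEq] at hP
    subst hP
    simp at hin
    omega
  set w0 := writhe (P ++ Q) with hw0
  obtain ⟨d1, d2⟩ := twist_dirs P Q o hP i n hin k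
  have hok : Ok (P ++ (twists i n k ++ Q)) 0 0 := by
    apply ok_of_dirs _ [] []
    rw [d1]
    exact hD
  have hbr := congrFun (run_bracket z (P ++ (twists i n k ++ Q)) hok (by simp [hPne])) s
  simp only [Pi.smul_apply, smul_eq_mul, mul_one] at hbr
  rw [Ops.run_append, Ops.run_append, run_twists] at hbr
  have hf : ev z (fPoly (P ++ (twists i n k ++ Q))) = (-1) ^ w0.natAbs *
      ((z ^ (-3 * w0) : Rˣ) * ((z ^ (-3 * (l ^ 2 - n))) ^ k : Rˣ)) *
        ev z (bracket (P ++ (twists i n k ++ Q))) := by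
    rw [fPoly, map_mul, map_mul, map_pow, map_neg, map_one, ev_T, d2, ← hl]
    have h1 : ((-1 : R)) ^ (w0 + k * (l ^ 2 - n)).natAbs = (-1) ^ w0.natAbs := by
      rw [hc]
      have h2 : (w0 + k * (2 * c)).natAbs % 2 = w0.natAbs % 2 := by
        have : (w0 + k * (2 * c)) = w0 + 2 * (k * c) := by ring
        rw [this]
        omega
      rw [← Nat.div_add_mod (w0 + k * (2 * c)).natAbs 2, ← Nat.div_add_mod w0.natAbs 2, h2,
        pow_add, pow_mul, pow_add, pow_mul]
      norm_num
    rw [h1, ← Units.val_mul, ← zpow_mul, ← zpow_add]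
    congr 4
    ring
  rw [hf, hbr]
  ring

/-! ### Invariance at `z = 1` -/

theorem phi_comm (P Q : List Slice) (o : List Bool) (hP : dirsAbove P [] = some o) (i n : ℕ)
    (hin : i + n ≤ o.length) (hD : IsDiagram (P ++ Q)) (s : ℕ → Bool)
    (Y : Module.End ℚ ((ℕ → Bool) → ℚ)) (hY1 : Commute Y (Tot mE 0 i))
    (hY2 : Commute Y (Tot mE (i + n) (o.length - (i + n)))) :
    (VO (1 : ℚˣ)).run Q ((Tot mE i n * Y : EE ℚ) ((VO (1 : ℚˣ)).run P (fun _ => 1))) s =
    (VO (1 : ℚˣ)).run Q ((Y * Tot mE i n : EE ℚ) ((VO (1 : ℚˣ)).run P (fun _ => 1))) s := by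
  have hQ : dirsAbove Q o = some [] := by
    rw [← (dirsAbove_append P Q [] o hP).1]
    exact hD
  have hokP := ok_of_dirs P [] o hP
  have hokQ := ok_of_dirs Q o [] hQ
  have hm : (mE true true + mE false false : ℚ) = 0 := by simp [mE]
  set v := (VO (1 : ℚˣ)).run P (fun _ => 1) with hv
  have h1 : Tot mE 0 o.length v = 0 := by
    have := run_Tot (R := ℚ) mE hm P 0 o.length (fun _ => 1) hokP
    rw [hv, ← this, Tot_zero]
    have h0 : ((0 : Module.End ℚ ((ℕ → Bool) → ℚ)) fun _ => 1) = 0 := rfl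
    rw [h0]
    have := (VM (1 : ℚˣ)).run_smul 1 P 0 (fun _ => 1)
    rw [zero_smul, zero_smul] at this
    exact this
  have h2 : ∀ ψ, (VO (1 : ℚˣ)).run Q (Tot mE 0 o.length ψ) = 0 := by
    intro ψ
    have := run_Tot (R := ℚ) mE hm Q o.length 0 ψ hokQ
    rw [this, Tot_zero]
    rfl
  have hsplit : (Tot mE 0 o.length : Module.End ℚ ((ℕ → Bool) → ℚ)) =
      Tot mE i n + (Tot mE 0 i + Tot mE (i + n) (o.length - (i + n))) := by
    obtain ⟨k, hk⟩ : ∃ k, o.length = i + n + k := ⟨o.length - (i + n), by omega⟩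
    rw [hk, Nat.add_sub_cancel_left, Tot_add, Tot_add]
    simp only [Nat.zero_add]
    abel
  have hc : Commute Y (Tot mE 0 i + Tot mE (i + n) (o.length - (i + n))) := hY1.add_right hY2
  have e1 : Tot mE i n * Y = Tot mE 0 o.length * Y -
      Y * (Tot mE 0 i + Tot mE (i + n) (o.length - (i + n))) := by
    rw [hsplit, add_mul, ← hc.eq]; abel
  have e2 : Y * Tot mE i n = Y * Tot mE 0 o.length -
      Y * (Tot mE 0 i + Tot mE (i + n) (o.length - (i + n))) := by
    rw [hsplit, mul_add]; abel
  have hsub : ∀ φ ψ : (ℕ → Bool) → ℚ, (VO (1 : ℚˣ)).run Q (φ - ψ) =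
      (VO (1 : ℚˣ)).run Q φ - (VO (1 : ℚˣ)).run Q ψ := by
    intro φ ψ
    have h3 := (VM (1 : ℚˣ)).run_add 1 Q φ ((-1 : ℚ) • ψ)
    have h4 := (VM (1 : ℚˣ)).run_smul 1 Q (-1) ψ
    rw [h4] at h3
    rw [sub_eq_add_neg, sub_eq_add_neg]
    have h5 : (-1 : ℚ) • ψ = -ψ := by simp
    have h6 : (-1 : ℚ) • ((VM (1 : ℚˣ)).ops ((VM (1 : ℚˣ)).X 1)).run Q ψ =
      -((VM (1 : ℚˣ)).ops ((VM (1 : ℚˣ)).X 1)).run Q ψ := by simp
    rw [h5, h6] at h3
    exact h3
  rw [e1, e2, LinearMap.sub_apply, LinearMap.sub_apply, hsub, hsub, Module.End.mul_apply,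
    Module.End.mul_apply _ (Tot mE 0 o.length), h1, h2, map_zero]
  have h7 : (VO (1 : ℚˣ)).run Q 0 = 0 := by
    have := hsub 0 0
    simpa using this
  rw [h7]

theorem phi_value (P Q : List Slice) (o : List Bool) (hP : dirsAbove P [] = some o) (i n : ℕ)
    (hin : i + n ≤ o.length) (hn : 1 ≤ n) (hK : IsKnotDiagram (P ++ Q)) (s : ℕ → Bool) :
    (VO (1 : ℚˣ)).run Q (((Cas i n - (3 * (strength o i n : ℚ) ^ 2) • (1 : EE ℚ)) *
      (Cas i n - (3 * (strength o i n : ℚ) ^ 2) • (1 : EE ℚ)) : EE ℚ)
        ((VO (1 : ℚˣ)).run P (fun _ => 1))) s =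
    (4 * (strength o i n : ℚ) ^ 2 - 4 * (strength o i n : ℚ) ^ 4) *
      (VO (1 : ℚˣ)).run Q ((VO (1 : ℚˣ)).run P (fun _ => 1)) s := by
  set v := (VO (1 : ℚˣ)).run P (fun _ => 1) with hv
  let φ : Module.End ℚ ((ℕ → Bool) → ℚ) →ₗ[ℚ] ℚ :=
    { toFun := fun Y => (VO (1 : ℚˣ)).run Q (Y v) s
      map_add' := by
        intro Y Y'
        have := (VM (1 : ℚˣ)).run_add 1 Q (Y v) (Y' v)
        exact congrFun this s
      map_smul' := by
        intro c Y
        have := (VM (1 : ℚˣ)).run_smul 1 Q c (Y v)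
        exact congrFun this s }
  have two : ∀ X : Module.End ℚ ((ℕ → Bool) → ℚ), (2 : ℚ) • X = 2 * X := by
    intro X; rw [Algebra.smul_def, map_ofNat]
  have four : ∀ X : Module.End ℚ ((ℕ → Bool) → ℚ), (4 : ℚ) • X = 4 * X := by
    intro X; rw [Algebra.smul_def, map_ofNat]
  have hH : ∀ k : ℕ, ∀ ψ : (ℕ → Bool) → ℚ, ((Tot mH i n) ^ k) ψ =
      Dg (fun t => (∑ b ∈ Finset.range n, eta (t (i + b))) ^ k) ψ := by
    have h1 : ∀ ψ : (ℕ → Bool) → ℚ, Tot mH i n ψ =
        Dg (fun t => ∑ b ∈ Finset.range n, eta (t (i + b))) ψ := by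
      intro ψ
      funext t
      rw [Dg_apply, Tot, LinearMap.sum_apply, Finset.sum_apply, Finset.sum_mul]
      exact Finset.sum_congr rfl fun b _ => St_H_apply _ _ _
    intro k
    induction k with
    | zero =>
      intro ψ
      funext t
      simp [Dg_apply]
    | succ k ih =>
      intro ψ
      rw [pow_succ', Module.End.mul_apply, ih, h1]
      funext t
      rw [Dg_apply, Dg_apply, Dg_apply, pow_succ']
      ring
  have hstr : ∑ b ∈ Finset.range n, (eta ((app o s) (i + b)) : ℚ) = (strength o i n : ℚ) ∧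
      ∑ b ∈ Finset.range n, (eta ((app (o.map not) s) (i + b)) : ℚ) =
        -(strength o i n : ℚ) := by
    have hs1 : ∀ (L : List Bool), i + n ≤ L.length →
        ∑ b ∈ Finset.range n, (eta ((app L s) (i + b)) : ℚ) = (strength L i n : ℚ) := by
      intro L hL
      rw [strength]
      have h2 : ((L.drop i).take n).map (fun b => if b then (1 : ℤ) else -1) =
          (List.range n).map (fun b => if app L s (i + b) then (1 : ℤ) else -1) := by
        apply List.ext_getElem
        · simp; omega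
        · intro m hm1 hm2
          simp only [List.getElem_map, List.getElem_take, List.getElem_drop, List.getElem_range]
          rw [app_get L s (i + m) (by simp at hm2; omega)]
      rw [h2]
      have h3 : ∀ m : ℕ, ((List.range m).map
          (fun b => if app L s (i + b) then (1 : ℤ) else -1)).sum =
          ∑ b ∈ Finset.range m, (if app L s (i + b) then (1 : ℤ) else -1) := by
        intro m
        induction m with
        | zero => rfl
        | succ m ih => rw [List.range_succ, List.map_append, List.sum_append, ih,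
            Finset.sum_range_succ]; simp
      rw [h3]
      push_cast
      apply Finset.sum_congr rfl
      intro b _
      simp [eta]
    refine ⟨hs1 o hin, ?_⟩
    rw [hs1 _ (by simpa using hin)]
    have h4 : strength (o.map not) i n = - strength o i n := by
      obtain ⟨pre, mid, rest, h0, h1, h2⟩ := split3 o i n hin
      have h5 : ∀ L : List Bool, esum (L.map not) = - esum L := by
        intro L
        induction L with
        | nil => simp [esum]
        | cons b L ih =>
          simp only [esum, List.map_cons, List.sum_cons] at ih ⊢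
          rw [ih]
          cases b <;> simp [eps] <;> ring
      rw [h0, strength_eq _ _ _ _ _ h1 h2, List.map_append, List.map_append,
        strength_eq _ _ _ _ _ (by simpa using h1) (by simpa using h2), h5]
    rw [h4]
    push_cast
    ring
  have hpow : ∀ k : ℕ, Even k → φ ((Tot mH i n) ^ k) = (strength o i n : ℚ) ^ k * φ 1 := by
    intro k hk
    have hd := two_state P Q o hP hK (by omega) s
      (fun t => (∑ b ∈ Finset.range n, eta (t (i + b))) ^ k - (strength o i n : ℚ) ^ k)
      ((n : ℚ) ^ k + |(strength o i n : ℚ) ^ k|) ?_ ?_ ?_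
    · have e1 : Dg (fun t => (∑ b ∈ Finset.range n, eta (t (i + b))) ^ k -
          (strength o i n : ℚ) ^ k) v =
          ((Tot mH i n) ^ k - ((strength o i n : ℚ) ^ k) • (1 : EE ℚ) : EE ℚ) v := by
        rw [LinearMap.sub_apply, hH k v]
        funext t
        simp only [Dg_apply, Pi.sub_apply, LinearMap.smul_apply, Pi.smul_apply, smul_eq_mul,
          Module.End.one_apply]
        ring
      have e2 : φ ((Tot mH i n) ^ k - ((strength o i n : ℚ) ^ k) • (1 : EE ℚ)) = 0 := by
        change (VO (1 : ℚˣ)).run Q (((Tot mH i n) ^ k - ((strength o i n : ℚ) ^ k) •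
          (1 : EE ℚ) : EE ℚ) v) s = 0
        rw [← e1]
        exact hd
      rw [map_sub, map_smul, smul_eq_mul, sub_eq_zero] at e2
      exact e2
    · intro t
      refine (abs_sub _ _).trans ?_
      gcongr
      rw [abs_pow]
      gcongr
      refine (Finset.abs_sum_le_sum_abs _ _).trans ?_
      calc ∑ b ∈ Finset.range n, |(eta (t (i + b)) : ℚ)| = ∑ b ∈ Finset.range n, (1 : ℚ) := by
            apply Finset.sum_congr rfl
            intro b _
            cases t (i + b) <;> simp [eta]
        _ = n := by simp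
        _ ≤ n := le_rfl
    · rw [hstr.1, sub_self]
    · rw [hstr.2, hk.neg_pow, sub_self]
  have hcomm : ∀ (m m' : Bool → Bool → ℚ) , Commute (Tot m i n) (Tot m' 0 i) ∧
      Commute (Tot m i n) (Tot m' (i + n) (o.length - (i + n))) := by
    intro m m'
    exact ⟨Tot_Tot _ _ _ _ _ _ (by omega), Tot_Tot _ _ _ _ _ _ (by omega)⟩
  have hCas : (Cas i n : Module.End ℚ ((ℕ → Bool) → ℚ)) =
      Tot mH i n * Tot mH i n + 2 * Tot mH i n + 4 * (Tot mF i n * Tot mE i n) := by
    rw [Cas, two, four]
  have hCcomm : ∀ (X : Module.End ℚ ((ℕ → Bool) → ℚ)), Commute (Tot mH i n) X →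
      Commute (Tot mE i n) X → Commute (Tot mF i n) X → Commute (Cas i n) X := by
    intro X h1 h2 h3
    rw [hCas]
    exact ((h1.mul_left h1).add_left ((Commute.ofNat_left 2 X).mul_left h1)).add_left
      ((Commute.ofNat_left 4 X).mul_left (h3.mul_left h2))
  have key := trace_id φ (e := Tot mE i n) (f := Tot mF i n) (h := Tot mH i n) (c := Cas i n)
    (by rw [tot_HE, two]) (by rw [tot_HF, two]) (tot_EF i n) hCas (strength o i n : ℚ)
    (by
      intro j k
      have hY : ∀ X : Module.End ℚ ((ℕ → Bool) → ℚ), Commute (Tot mH i n) X →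
          Commute (Tot mE i n) X → Commute (Tot mF i n) X →
          Commute (Cas i n ^ j * (Tot mH i n ^ k * Tot mF i n)) X := by
        intro X h1 h2 h3
        exact ((hCcomm X h1 h2 h3).pow_left j).mul_left ((h1.pow_left k).mul_left h3)
      exact phi_comm P Q o hP i n hin hK.1 s _
        (hY _ (hcomm mH mE).1 (hcomm mE mE).1 (hcomm mF mE).1)
        (hY _ (hcomm mH mE).2 (hcomm mE mE).2 (hcomm mF mE).2))
    (hpow 2 (by decide)) (hpow 4 (by decide))
  exact key

end Pool.Agent.Helper57.TW
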