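import Pool.Agent.Helper2.Models
import Pool.Agent.Helper57.TW.MinPoly

/-!
# The vertex model on infinitely many strands
-/

namespace Pool.Agent.Helper57.TW

open Pool.Agent.Helper2 (Model)

/-- Delete the entries `i` and `i + 1` of a sequence. -/
def del (i : ℕ) (s : ℕ → Bool) : ℕ → Bool := fun k => if k < i then s k else s (k + 2)

/-- Insert two entries at the positions `i` and `i + 1`. -/
def ins (i : ℕ) (x y : Bool) (s : ℕ → Bool) : ℕ → Bool := fun k =>
  if k < i then s k else if k = i then x else if k = i + 1 then y else s (k - 2)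

lemma del_ins (i : ℕ) (x y : Bool) (s : ℕ → Bool) : del i (ins i x y s) = s := by
  funext k
  by_cases h : k < i
  · simp [del, ins, h]
  · have h1 : ¬ k + 2 < i := by omega
    have h2 : k + 2 ≠ i := by omega
    have h3 : k + 2 ≠ i + 1 := by omega
    simp only [del, ins, if_neg h, if_neg h1, if_neg h2, if_neg h3, Nat.add_sub_cancel]

lemma del_ins_far (i k : ℕ) (x y : Bool) (s : ℕ → Bool) :
    del i (ins (i + k + 2) x y s) = ins (i + k) x y (del i s) := by
  funext m
  simp only [del, ins]
  by_cases h : m < i
  · have h1 : m < i + k + 2 := by omega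
    have h2 : m < i + k := by omega
    simp [h, h1, h2]
  · by_cases h1 : m < i + k
    · have h2 : m + 2 < i + k + 2 := by omega
      simp [h, h1, h2]
    · by_cases h2 : m = i + k
      · subst h2
        simp
      · by_cases h3 : m = i + k + 1
        · subst h3
          have : ¬ i + k + 1 < i := by omega
          simp [this]
        · have h4 : ¬ m + 2 < i + k + 2 := by omega
          have h5 : ¬ m + 2 = i + k + 2 := by omega
          have h6 : ¬ m + 2 = i + k + 2 + 1 := by omega
          have h7 : ¬ m - 2 < i := by omega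
          have h8 : m + 2 - 2 = m - 2 + 2 := by omega
          simp only [h, h1, h2, h3, h4, h5, h6, h7, if_false, h8]

lemma del_ins_far' (i k : ℕ) (x y : Bool) (s : ℕ → Bool) :
    del (i + k + 2) (ins i x y s) = ins i x y (del (i + k) s) := by
  funext m
  simp only [del, ins]
  by_cases h : m < i
  · have h1 : m < i + k + 2 := by omega
    have h2 : m < i + k := by omega
    simp [h, h1, h2]
  · by_cases h1 : m = i
    · subst h1
      have h9 : m < m + k + 2 := by omega
      simp [h9]
    · by_cases h2 : m = i + 1
      · subst h2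
        simp
      · by_cases h3 : m < i + k + 2
        · have h4 : m - 2 < i + k := by omega
          simp only [h, h1, h2, h3, h4, if_false, if_true]
        · have h4 : ¬ m - 2 < i + k := by omega
          have h5 : ¬ m + 2 < i := by omega
          have h6 : ¬ m + 2 = i := by omega
          have h7 : ¬ m + 2 = i + 1 := by omega
          have h8 : m + 2 - 2 = m - 2 + 2 := by omega
          simp only [h, h1, h2, h3, h4, h5, h6, h7, if_false, h8]

lemma del_del (i k : ℕ) (s : ℕ → Bool) : del i (del (i + k + 2) s) = del (i + k) (del i s) := by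
  funext m
  simp only [del]
  by_cases h : m < i
  · have h1 : m < i + k + 2 := by omega
    have h2 : m < i + k := by omega
    simp [h, h1, h2]
  · by_cases h1 : m < i + k
    · have h2 : m + 2 < i + k + 2 := by omega
      simp [h, h1, h2]
    · have h2 : ¬ m + 2 < i + k + 2 := by omega
      have h3 : ¬ m + 2 < i := by omega
      simp [h, h1, h2, h3]

lemma ins_ins (i k : ℕ) (x y x' y' : Bool) (s : ℕ → Bool) :
    ins i x y (ins (i + k) x' y' s) = ins (i + k + 2) x' y' (ins i x y s) := by
  funext m
  simp only [ins]
  by_cases h : m < i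
  · have h1 : m < i + k + 2 := by omega
    have h2 : m < i + k := by omega
    simp [h, h1, h2]
  · by_cases h1 : m = i
    · subst h1
      have h9 : m < m + k + 2 := by omega
      simp [h9]
    · by_cases h2 : m = i + 1
      · subst h2
        simp
      · by_cases h3 : m < i + k + 2
        · have h4 : m - 2 < i + k := by omega
          simp only [h, h1, h2, h3, h4, if_false, if_true]
        · have h4 : ¬ m - 2 < i + k := by omega
          by_cases h5 : m = i + k + 2
          · subst h5
            simp [h, h1, h2, h3]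
          · by_cases h6 : m = i + k + 3
            · subst h6
              simp [h, h1, h2]
            · have h7 : ¬ m - 2 = i + k := by omega
              have h8 : ¬ m - 2 = i + k + 1 := by omega
              have h9 : ¬ m = i + k + 2 + 1 := by omega
              have h10 : ¬ m - 2 < i := by omega
              have h11 : ¬ m - 2 = i := by omega
              have h12 : ¬ m - 2 = i + 1 := by omega
              simp only [h, h1, h2, h3, h4, h5, h7, h8, h9, if_false]
              by_cases h13 : m - 2 = i
              · exact absurd h13 h11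
              · by_cases h14 : m - 2 = i + 1
                · exact absurd h14 h12
                · simp only [h10, h11, h12, if_false]

variable {R : Type} [CommRing R]

/-- The weights of a cup. -/
def cupW (w : R) : Bool → Bool → R
  | true, false => 1
  | false, true => -(w * w)
  | _, _ => 0

/-- The weights of a cap. -/
def capW (z : R) : Bool → Bool → R
  | true, false => -(z * z)
  | false, true => 1
  | _, _ => 0

/-- The cup. -/
def sCup (w : R) (i : ℕ) : ((ℕ → Bool) → R) →ₗ[R] ((ℕ → Bool) → R) where
  toFun ψ := fun s => cupW w (s i) (s (i + 1)) * ψ (del i s)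
  map_add' φ ψ := by funext s; simp only [Pi.add_apply]; ring
  map_smul' c ψ := by funext s; simp only [Pi.smul_apply, smul_eq_mul, RingHom.id_apply]; ring

/-- The cap. -/
def sCap (z : R) (i : ℕ) : ((ℕ → Bool) → R) →ₗ[R] ((ℕ → Bool) → R) where
  toFun ψ := fun s => -(z * z) * ψ (ins i true false s) + ψ (ins i false true s)
  map_add' φ ψ := by funext s; simp only [Pi.add_apply]; ring
  map_smul' c ψ := by funext s; simp only [Pi.smul_apply, smul_eq_mul, RingHom.id_apply]; ring

lemma sCup_apply (w : R) (i : ℕ) (ψ : (ℕ → Bool) → R) (s : ℕ → Bool) :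
    sCup w i ψ s = cupW w (s i) (s (i + 1)) * ψ (del i s) := rfl

lemma sCap_apply (z : R) (i : ℕ) (ψ : (ℕ → Bool) → R) (s : ℕ → Bool) :
    sCap z i ψ s = -(z * z) * ψ (ins i true false s) + ψ (ins i false true s) := rfl

lemma ins_at (i : ℕ) (x y : Bool) (s : ℕ → Bool) : ins i x y s i = x := by simp [ins]

lemma ins_at1 (i : ℕ) (x y : Bool) (s : ℕ → Bool) : ins i x y s (i + 1) = y := by simp [ins]

lemma ins_lt (i : ℕ) (x y : Bool) (s : ℕ → Bool) {k : ℕ} (h : k < i) : ins i x y s k = s k := by
  simp [ins, h]

lemma ins_ge (i : ℕ) (x y : Bool) (s : ℕ → Bool) {k : ℕ} (h : i ≤ k) :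
    ins i x y s (k + 2) = s k := by
  have h1 : ¬ k + 2 < i := by omega
  have h2 : ¬ k + 2 = i := by omega
  have h3 : ¬ k + 2 = i + 1 := by omega
  simp [ins, h1, h2, h3]

lemma del_lt (i : ℕ) (s : ℕ → Bool) {k : ℕ} (h : k < i) : del i s k = s k := by
  simp [del, h]

lemma del_ge (i : ℕ) (s : ℕ → Bool) {k : ℕ} (h : i ≤ k) : del i s k = s (k + 2) := by
  have h1 : ¬ k < i := by omega
  simp [del, h1]

/-- Replace the entry `i`. -/
lemma del_ins_one (i : ℕ) (x y : Bool) (s : ℕ → Bool) (h : s i = y) :
    del i (ins (i + 1) x y s) = s := by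
  funext k
  rcases Nat.lt_trichotomy k i with h1 | h1 | h1
  · rw [del_lt i _ h1, ins_lt _ _ _ _ (by omega)]
  · subst h1
    rw [del_ge k _ le_rfl, ins_at1, h]
  · rw [del_ge i _ (by omega), ins_ge _ _ _ _ (by omega)]

lemma del1_ins (i : ℕ) (x y : Bool) (s : ℕ → Bool) (h : s i = x) :
    del (i + 1) (ins i x y s) = s := by
  funext k
  rcases Nat.lt_trichotomy k i with h1 | h1 | h1
  · rw [del_lt _ _ (by omega), ins_lt _ _ _ _ h1]
  · subst h1
    rw [del_lt _ _ (by omega), ins_at, h]
  · rw [del_ge _ _ (by omega), ins_ge _ _ _ _ (by omega)]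

/-- The vertex model satisfies the planar relations. -/
theorem sTL {z w : R} (hzw : z * w = 1) :
    TL (A := Module.End R ((ℕ → Bool) → R)) z w (sCup w) (sCap z) where
  zw := hzw
  r1 := by
    intro i
    ext ψ s
    change sCap z i (sCup w i ψ) s = (-(z * z + w * w)) * ψ s
    rw [sCap_apply, sCup_apply, sCup_apply, del_ins, del_ins, ins_at, ins_at1, ins_at, ins_at1]
    simp only [cupW]
    ring
  r2 := by
    intro i
    ext ψ s
    change sCap z (i + 1) (sCup w i ψ) s = ψ s
    rw [sCap_apply, sCup_apply, sCup_apply, ins_at, ins_at, ins_lt _ _ _ _ (Nat.lt_succ_self i),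
      ins_lt _ _ _ _ (Nat.lt_succ_self i)]
    cases h : s i
    · rw [del_ins_one i true false s h]
      simp only [cupW]
      linear_combination (ψ s) * (z * w + 1) * hzw
    · rw [del_ins_one i false true s h]
      simp only [cupW]
      ring
  r3 := by
    intro i
    ext ψ s
    change sCap z i (sCup w (i + 1) ψ) s = ψ s
    rw [sCap_apply, sCup_apply, sCup_apply, ins_at1, ins_at1, ins_ge _ _ _ _ (le_refl i),
      ins_ge _ _ _ _ (le_refl i)]
    cases h : s i
    · rw [del1_ins i false true s h]
      simp only [cupW]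
      ring
    · rw [del1_ins i true false s h]
      simp only [cupW]
      linear_combination (ψ s) * (z * w + 1) * hzw
  r4 := by
    intro i k
    ext ψ s
    change sCap z (i + k + 2) (sCup w i ψ) s = sCup w i (sCap z (i + k) ψ) s
    rw [sCap_apply, sCup_apply, sCup_apply, sCup_apply, sCap_apply, del_ins_far, del_ins_far,
      ins_lt _ _ _ _ (show i < i + k + 2 by omega),
      ins_lt _ _ _ _ (show i + 1 < i + k + 2 by omega),
      ins_lt _ _ _ _ (show i < i + k + 2 by omega),
      ins_lt _ _ _ _ (show i + 1 < i + k + 2 by omega)]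
    ring
  r5 := by
    intro i k
    ext ψ s
    change sCap z i (sCup w (i + k + 2) ψ) s = sCup w (i + k) (sCap z i ψ) s
    have h1 : i + k + 2 + 1 = i + k + 1 + 2 := by ring
    rw [sCap_apply, sCup_apply, sCup_apply, sCup_apply, sCap_apply, del_ins_far', del_ins_far', h1,
      ins_ge _ _ _ _ (show i ≤ i + k by omega), ins_ge _ _ _ _ (show i ≤ i + k + 1 by omega),
      ins_ge _ _ _ _ (show i ≤ i + k by omega), ins_ge _ _ _ _ (show i ≤ i + k + 1 by omega)]
    ring
  r6 := by
    intro i k
    ext ψ s
    change sCup w (i + k + 2) (sCup w i ψ) s = sCup w i (sCup w (i + k) ψ) s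
    have h1 : i + k + 2 + 1 = i + k + 1 + 2 := by ring
    rw [sCup_apply, sCup_apply, sCup_apply, sCup_apply, del_del,
      del_lt _ _ (show i < i + k + 2 by omega), del_lt _ _ (show i + 1 < i + k + 2 by omega),
      del_ge _ _ (show i ≤ i + k by omega), del_ge _ _ (show i ≤ i + k + 1 by omega), h1]
    ring
  r7 := by
    intro i k
    ext ψ s
    change sCap z (i + k) (sCap z i ψ) s = sCap z i (sCap z (i + k + 2) ψ) s
    rw [sCap_apply, sCap_apply, sCap_apply, sCap_apply, sCap_apply, sCap_apply, ins_ins, ins_ins,
      ins_ins, ins_ins]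
    ring

/-- The vertex model. -/
noncomputable def sModel {z w : R} (hzw : z * w = 1) : Model R ((ℕ → Bool) → R) where
  Supp := fun _ _ => True
  δ := -(z * z + w * w)
  init := fun _ => 1
  cup := sCup w
  cap := sCap z
  supp_init := trivial
  supp_cup := fun _ _ _ _ _ => trivial
  supp_cap := fun _ _ _ _ _ => trivial
  rel1 := fun _ i ψ _ _ => by
    have := LinearMap.congr_fun ((sTL hzw).r1 i) ψ
    exact this
  rel2 := fun _ i ψ _ _ => LinearMap.congr_fun ((sTL hzw).r2 i) ψ
  rel3 := fun _ i ψ _ _ => LinearMap.congr_fun ((sTL hzw).r3 i) ψ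
  rel4 := fun _ i k ψ _ _ => LinearMap.congr_fun ((sTL hzw).r4 i k) ψ
  rel5 := fun _ i k ψ _ _ => LinearMap.congr_fun ((sTL hzw).r5 i k) ψ

end Pool.Agent.Helper57.TW
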