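import Pool.Agent.Helper57.TW.First

/-!
# Spin operators
-/

namespace Pool.Agent.Helper57.TW

open Function (update)

variable {R : Type} [CommRing R]

/-- The operator given by a two by two matrix acting on the entry `a`. -/
def St (m : Bool → Bool → R) (a : ℕ) : Module.End R ((ℕ → Bool) → R) where
  toFun ψ := fun s => m (s a) true * ψ (update s a true) + m (s a) false * ψ (update s a false)
  map_add' φ ψ := by funext s; simp only [Pi.add_apply]; ring
  map_smul' c ψ := by funext s; simp only [Pi.smul_apply, smul_eq_mul, RingHom.id_apply]; ring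

lemma St_apply (m : Bool → Bool → R) (a : ℕ) (ψ : (ℕ → Bool) → R) (s : ℕ → Bool) :
    St m a ψ s = m (s a) true * ψ (update s a true) + m (s a) false * ψ (update s a false) := rfl

/-- The matrix product. -/
def mm (m m' : Bool → Bool → R) : Bool → Bool → R := fun x y =>
  m x true * m' true y + m x false * m' false y

lemma St_mul (m m' : Bool → Bool → R) (a : ℕ) : St m a * St m' a = St (mm m m') a := by
  ext ψ s
  change St m a (St m' a ψ) s = St (mm m m') a ψ s
  simp only [St_apply, Function.update_self, Function.update_idem, mm]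
  ring

lemma St_comm (m m' : Bool → Bool → R) {a b : ℕ} (h : a ≠ b) : Commute (St m a) (St m' b) := by
  change St m a * St m' b = St m' b * St m a
  ext ψ s
  change St m a (St m' b ψ) s = St m' b (St m a ψ) s
  simp only [St_apply, Function.update_of_ne h, Function.update_of_ne (Ne.symm h),
    Function.update_comm h]
  ring

/-- The raising matrix. -/
def mE : Bool → Bool → R
  | true, false => 1
  | _, _ => 0

/-- The lowering matrix. -/
def mF : Bool → Bool → R
  | false, true => 1
  | _, _ => 0

/-- The weight matrix. -/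
def mH : Bool → Bool → R
  | true, true => 1
  | false, false => -1
  | _, _ => 0

lemma St_add (m m' : Bool → Bool → R) (a : ℕ) :
    St (fun x y => m x y + m' x y) a = St m a + St m' a := by
  ext ψ s
  change St (fun x y => m x y + m' x y) a ψ s = St m a ψ s + St m' a ψ s
  simp only [St_apply]
  ring

lemma St_smul (c : R) (m : Bool → Bool → R) (a : ℕ) :
    St (fun x y => c * m x y) a = c • St m a := by
  ext ψ s
  change St (fun x y => c * m x y) a ψ s = c * St m a ψ s
  simp only [St_apply]
  ring

/-- The identity matrix. -/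
def mI : Bool → Bool → R := fun x y => if x = y then 1 else 0

lemma St_one (a : ℕ) : (St mI a : Module.End R ((ℕ → Bool) → R)) = 1 := by
  ext ψ s
  change St mI a ψ s = ψ s
  rw [St_apply]
  cases h : s a
  · have : update s a false = s := by rw [← h]; exact Function.update_eq_self a s
    simp [mI, this]
  · have : update s a true = s := by rw [← h]; exact Function.update_eq_self a s
    simp [mI, this]

lemma site_EF (a : ℕ) : (St mE a * St mF a : Module.End R ((ℕ → Bool) → R)) =
    St mF a * St mE a + St mH a := by
  rw [St_mul, St_mul, ← St_add]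
  congr 1
  funext x y
  cases x <;> cases y <;> simp [mm, mE, mF, mH]

lemma site_HE (a : ℕ) : (St mH a * St mE a : Module.End R ((ℕ → Bool) → R)) =
    St mE a * St mH a + (2 : R) • St mE a := by
  rw [St_mul, St_mul, ← St_smul, ← St_add]
  congr 1
  funext x y
  cases x <;> cases y <;> simp [mm, mE, mH] <;> ring

lemma site_HF (a : ℕ) : (St mH a * St mF a : Module.End R ((ℕ → Bool) → R)) =
    St mF a * St mH a - (2 : R) • St mF a := by
  rw [eq_sub_iff_add_eq, St_mul, St_mul, ← St_smul, ← St_add]
  congr 1
  funext x y
  cases x <;> cases y <;> simp [mm, mF, mH] <;> ring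

lemma site_cas (a : ℕ) : (St mH a * St mH a + (2 : R) • St mH a + (4 : R) • (St mF a * St mE a) :
    Module.End R ((ℕ → Bool) → R)) = (3 : R) • 1 := by
  rw [← St_one a, St_mul, St_mul, ← St_smul, ← St_smul, ← St_smul, ← St_add, ← St_add]
  congr 1
  funext x y
  cases x <;> cases y <;> simp [mm, mE, mF, mH, mI] <;> ring

lemma St_H_apply (a : ℕ) (ψ : (ℕ → Bool) → R) (s : ℕ → Bool) :
    St mH a ψ s = eta (s a) * ψ s := by
  rw [St_apply]
  cases h : s a
  · have : update s a false = s := by rw [← h]; exact Function.update_eq_self a s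
    simp [mH, this, eta]
  · have : update s a true = s := by rw [← h]; exact Function.update_eq_self a s
    simp [mH, this, eta]

lemma Sw_St {a b : ℕ} (h : a ≠ b) : (2 : R) • (Sw a b : Module.End R ((ℕ → Bool) → R)) =
    1 + St mH a * St mH b + (2 : R) • (St mE a * St mF b) + (2 : R) • (St mF a * St mE b) := by
  ext ψ s
  change (2 : R) * ψ (s ∘ Equiv.swap a b) = ψ s + St mH a (St mH b ψ) s +
    (2 : R) * St mE a (St mF b ψ) s + (2 : R) * St mF a (St mE b ψ) s
  rw [St_H_apply, St_H_apply]
  simp only [St_apply, Function.update_of_ne h.symm]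
  have hsw : s ∘ Equiv.swap a b = update (update s a (s b)) b (s a) := by
    funext k
    simp only [Function.comp]
    by_cases h1 : k = a
    · subst h1
      rw [Equiv.swap_apply_left, Function.update_of_ne h, Function.update_self]
    · by_cases h2 : k = b
      · subst h2
        rw [Equiv.swap_apply_right, Function.update_self]
      · rw [Equiv.swap_apply_of_ne_of_ne h1 h2, Function.update_of_ne h2,
          Function.update_of_ne h1]
  have hself : update (update s a (s a)) b (s b) = s := by
    rw [Function.update_eq_self, Function.update_eq_self]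
  rw [hsw]
  cases ha : s a <;> cases hb : s b <;> rw [ha, hb] at hself
  · rw [hself]
    simp [mE, mF, eta]
    ring
  · simp [mE, mF, eta]
  · simp [mE, mF, eta]
  · rw [hself]
    simp [mE, mF, eta]
    ring

/-- The operator given by a matrix acting on the entries `i, …, i + n - 1`. -/
noncomputable def Tot (m : Bool → Bool → R) (i n : ℕ) : Module.End R ((ℕ → Bool) → R) :=
  ∑ b ∈ Finset.range n, St m (i + b)

lemma Tot_succ (m : Bool → Bool → R) (i n : ℕ) : Tot m i (n + 1) = Tot m i n + St m (i + n) := by
  rw [Tot, Tot, Finset.sum_range_succ]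

lemma Tot_zero (m : Bool → Bool → R) (i : ℕ) : Tot m i 0 = 0 := by
  rw [Tot, Finset.sum_range_zero]

lemma Tot_add (m : Bool → Bool → R) (i n k : ℕ) :
    Tot m i (n + k) = Tot m i n + Tot m (i + n) k := by
  induction k with
  | zero => rw [Tot_zero, add_zero, add_zero]
  | succ k ih => rw [← add_assoc, Tot_succ, ih, Tot_succ, add_assoc, add_assoc]

lemma Tot_St (m m' : Bool → Bool → R) (i n c : ℕ) (h : c < i ∨ i + n ≤ c) :
    Commute (Tot m i n) (St m' c) := by
  rw [Tot]
  apply Commute.sum_left
  intro b hb
  rw [Finset.mem_range] at hb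
  exact St_comm _ _ (by omega)

lemma Tot_Tot (m m' : Bool → Bool → R) (i n j k : ℕ) (h : j + k ≤ i ∨ i + n ≤ j) :
    Commute (Tot m i n) (Tot m' j k) := by
  rw [Tot, Tot]
  apply Commute.sum_left
  intro b hb
  apply Commute.sum_right
  intro c hc
  rw [Finset.mem_range] at hb hc
  exact St_comm _ _ (by omega)

lemma tot_EF (i n : ℕ) : (Tot mE i n * Tot mF i n : Module.End R ((ℕ → Bool) → R)) =
    Tot mF i n * Tot mE i n + Tot mH i n := by
  induction n with
  | zero => simp [Tot_zero]
  | succ n ih =>
    rw [Tot_succ, Tot_succ, Tot_succ]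
    have c1 := (Tot_St (R := R) mE mF i n (i + n) (by omega)).eq
    have c2 := (Tot_St (R := R) mF mE i n (i + n) (by omega)).eq
    have c3 := site_EF (R := R) (i + n)
    rw [mul_add, add_mul, add_mul, ih, c1, c3, mul_add, add_mul, add_mul, c2]
    abel

lemma tot_HE (i n : ℕ) : (Tot mH i n * Tot mE i n : Module.End R ((ℕ → Bool) → R)) =
    Tot mE i n * Tot mH i n + (2 : R) • Tot mE i n := by
  induction n with
  | zero => simp [Tot_zero]
  | succ n ih =>
    rw [Tot_succ, Tot_succ]
    have c1 := (Tot_St (R := R) mH mE i n (i + n) (by omega)).eq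
    have c2 := (Tot_St (R := R) mE mH i n (i + n) (by omega)).eq
    have c3 := site_HE (R := R) (i + n)
    rw [mul_add, add_mul, add_mul, ih, c1, c3, mul_add, add_mul, add_mul, c2, smul_add]
    abel

lemma tot_HF (i n : ℕ) : (Tot mH i n * Tot mF i n : Module.End R ((ℕ → Bool) → R)) =
    Tot mF i n * Tot mH i n - (2 : R) • Tot mF i n := by
  induction n with
  | zero => simp [Tot_zero]
  | succ n ih =>
    rw [Tot_succ, Tot_succ]
    have c1 := (Tot_St (R := R) mH mF i n (i + n) (by omega)).eq
    have c2 := (Tot_St (R := R) mF mH i n (i + n) (by omega)).eq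
    have c3 := site_HF (R := R) (i + n)
    rw [mul_add, add_mul, add_mul, ih, c1, c3, mul_add, add_mul, add_mul, c2, smul_add]
    abel

/-- Four times the Casimir operator. -/
noncomputable def Cas (i n : ℕ) : Module.End R ((ℕ → Bool) → R) :=
  Tot mH i n * Tot mH i n + (2 : R) • Tot mH i n + (4 : R) • (Tot mF i n * Tot mE i n)

lemma cas_eq (i n : ℕ) : (Cas i n : Module.End R ((ℕ → Bool) → R)) =
    (3 * n : R) • 1 + t1 i n := by
  induction n with
  | zero => simp [Cas, t1, Tot_zero]
  | succ n ih =>
    have h1 : (Cas i (n + 1) : Module.End R ((ℕ → Bool) → R)) = Cas i n + (3 : R) • 1 +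
        ((2 : R) • (Tot mH i n * St mH (i + n)) + (4 : R) • (Tot mF i n * St mE (i + n)) +
          (4 : R) • (Tot mE i n * St mF (i + n))) := by
      have c1 := (Tot_St (R := R) mE mF i n (i + n) (by omega)).eq
      have c2 := (Tot_St (R := R) mH mH i n (i + n) (by omega)).eq
      rw [← site_cas (R := R) (i + n), Cas, Cas, Tot_succ, Tot_succ, Tot_succ]
      simp only [mul_add, add_mul, smul_add, c1, ← c2]
      module
    have h2 : ((2 : R) • (Tot mH i n * St mH (i + n)) + (4 : R) • (Tot mF i n * St mE (i + n)) +
          (4 : R) • (Tot mE i n * St mF (i + n)) : Module.End R ((ℕ → Bool) → R)) = g1 i n := by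
      rw [g1, Tot, Tot, Tot, Finset.sum_mul, Finset.sum_mul, Finset.sum_mul, Finset.smul_sum,
        Finset.smul_sum, Finset.smul_sum, ← Finset.sum_add_distrib, ← Finset.sum_add_distrib]
      apply Finset.sum_congr rfl
      intro b hb
      rw [Finset.mem_range] at hb
      have h3 := Sw_St (R := R) (a := i + b) (b := i + n) (by omega)
      have h4 : (4 : R) • (Sw (i + b) (i + n) : Module.End R ((ℕ → Bool) → R)) =
          (2 : R) • ((2 : R) • Sw (i + b) (i + n)) := by
        rw [smul_smul]; norm_num
      rw [h4, h3]
      module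
    have h5 : (t1 i (n + 1) : Module.End R ((ℕ → Bool) → R)) = t1 i n + g1 i n := by
      rw [t1, t1, Finset.sum_range_succ]
    rw [h1, h2, h5, ih]
    push_cast
    module

end Pool.Agent.Helper57.TW
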