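import Pool.Agent.Helper57.TW.Alg

/-!
# The full twist in a Temperley-Lieb setting
-/

namespace Pool.Agent.Helper57.TW

variable {R A : Type*} [CommRing R] [Ring A] [Algebra R A] {z w : R} {u a : ℕ → A}

/-- The strand number `i + k` goes around the `k` strands to its left. -/
def G (x : ℕ → A) (i : ℕ) : ℕ → A
  | 0 => 1
  | k + 1 => x (i + k) * (G x i k * x (i + k))

/-- The full twist of the `n` strands `i, …, i + n - 1`. -/
def F (x : ℕ → A) (i : ℕ) : ℕ → A
  | 0 => 1
  | n + 1 => G x i n * F x i n

section basic

variable (h : TL z w u a)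
include h

lemma TL.far_xu (i k : ℕ) : cr z w u a (i + k + 2) * u i = u i * cr z w u a (i + k) := by
  simp only [cr, add_mul, mul_add, smul_mul_assoc, mul_smul_comm, one_mul, mul_one]
  rw [mul_assoc, h.r4, ← mul_assoc, h.r6, mul_assoc]

lemma TL.far_ux (i k : ℕ) : cr z w u a i * u (i + k + 2) = u (i + k + 2) * cr z w u a i := by
  simp only [cr, add_mul, mul_add, smul_mul_assoc, mul_smul_comm, one_mul, mul_one]
  rw [mul_assoc, h.r5, ← mul_assoc, ← mul_assoc, h.r6]

lemma TL.far_ax (i k : ℕ) : a i * cr z w u a (i + k + 2) = cr z w u a (i + k) * a i := by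
  simp only [cr, add_mul, mul_add, smul_mul_assoc, mul_smul_comm, one_mul, mul_one]
  rw [← mul_assoc, h.r5, mul_assoc, ← h.r7, mul_assoc]

lemma TL.far_xx (i k : ℕ) :
    cr z w u a i * cr z w u a (i + k + 2) = cr z w u a (i + k + 2) * cr z w u a i := by
  have e1 : cr z w u a i * cr z w u a (i + k + 2) =
      z • cr z w u a (i + k + 2) + w • (u i * (a i * cr z w u a (i + k + 2))) := by
    conv_lhs => rw [cr.eq_def z w u a i]
    simp only [add_mul, smul_mul_assoc, one_mul, mul_assoc]
  have e2 : cr z w u a (i + k + 2) * cr z w u a i =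
      z • cr z w u a (i + k + 2) + w • (cr z w u a (i + k + 2) * u i * a i) := by
    conv_lhs => rw [cr.eq_def z w u a i]
    simp only [mul_add, mul_smul_comm, mul_one, mul_assoc]
  rw [e1, e2, h.far_ax, h.far_xu, mul_assoc]

lemma TL.comm_far {i j : ℕ} (hij : i + 2 ≤ j) : Commute (cr z w u a j) (cr z w u a i) := by
  obtain ⟨k, rfl⟩ : ∃ k, j = i + k + 2 := ⟨j - i - 2, by omega⟩
  exact (h.far_xx i k).symm

lemma TL.G_far (i k : ℕ) : ∀ j, i + k + 1 ≤ j → Commute (cr z w u a j) (G (cr z w u a) i k) := by
  induction k with
  | zero => intro j _; exact Commute.one_right _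
  | succ k ih =>
    intro j hj
    have h1 := h.comm_far (i := i + k) (j := j) (by omega)
    exact h1.mul_right ((ih j (by omega)).mul_right h1)

lemma TL.F_far (i n : ℕ) : ∀ j, i + n ≤ j → Commute (cr z w u a j) (F (cr z w u a) i n) := by
  induction n with
  | zero => intro j _; exact Commute.one_right _
  | succ n ih =>
    intro j hj
    exact (h.G_far i n j (by omega)).mul_right (ih j (by omega))

lemma TL.G_u (i k : ℕ) : ∀ j, i + k + 1 ≤ j → Commute (u j) (G (cr z w u a) i k) := by
  induction k with
  | zero => intro j _; exact Commute.one_right _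
  | succ k ih =>
    intro j hj
    have h1 : Commute (u j) (cr z w u a (i + k)) := by
      obtain ⟨m, rfl⟩ : ∃ m, j = i + k + m + 2 := ⟨j - (i + k) - 2, by omega⟩
      exact (h.far_ux (i + k) m).symm
    exact h1.mul_right ((ih j (by omega)).mul_right h1)

lemma TL.F_u (i n : ℕ) : ∀ j, i + n ≤ j → Commute (u j) (F (cr z w u a) i n) := by
  induction n with
  | zero => intro j _; exact Commute.one_right _
  | succ n ih =>
    intro j hj
    exact (h.G_u i n j (by omega)).mul_right (ih j (by omega))

lemma TL.G_comm (i k : ℕ) : ∀ j, i ≤ j → j + 2 ≤ i + k →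
    Commute (cr z w u a j) (G (cr z w u a) i k) := by
  induction k with
  | zero => intro j h1 h2; omega
  | succ k ih =>
    intro j h1 h2
    rcases Nat.lt_or_ge (j + 1) (i + k) with hlt | hge
    · have h3 := (h.comm_far (i := j) (j := i + k) (by omega)).symm
      exact h3.mul_right ((ih j h1 (by omega)).mul_right h3)
    · obtain ⟨m, rfl⟩ : ∃ m, k = m + 1 := ⟨k - 1, by omega⟩
      obtain rfl : j = i + m := by omega
      have hb := h.braid (i + m)
      have hG : Commute (cr z w u a (i + m + 1)) (G (cr z w u a) i m) := h.G_far i m _ (by omega)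
      change cr z w u a (i + m) * (cr z w u a (i + m + 1) * (cr z w u a (i + m) *
        (G (cr z w u a) i m * cr z w u a (i + m)) * cr z w u a (i + m + 1))) =
        (cr z w u a (i + m + 1) * (cr z w u a (i + m) *
        (G (cr z w u a) i m * cr z w u a (i + m)) * cr z w u a (i + m + 1))) * cr z w u a (i + m)
      generalize cr z w u a (i + m) = p at *
      generalize cr z w u a (i + m + 1) = q at *
      generalize G (cr z w u a) i m = g at *
      calc p * (q * (p * (g * p) * q)) = (p * q * p) * g * (p * q) := by simp only [mul_assoc]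
        _ = q * p * (q * g) * (p * q) := by rw [hb]; simp only [mul_assoc]
        _ = q * p * g * (q * p * q) := by rw [hG.eq]; simp only [mul_assoc]
        _ = q * (p * (g * p) * q) * p := by rw [← hb]; simp only [mul_assoc]

lemma TL.G_G (i n : ℕ) : ∀ m, n ≤ m → Commute (G (cr z w u a) i n) (G (cr z w u a) i (m + 1)) := by
  induction n with
  | zero => intro m _; exact Commute.one_left _
  | succ n ih =>
    intro m hm
    have h1 := h.G_comm i (m + 1) (i + n) (by omega) (by omega)
    exact h1.mul_left ((ih m (by omega)).mul_left h1)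

lemma TL.F_G (i n : ℕ) : ∀ m, n ≤ m → Commute (F (cr z w u a) i n) (G (cr z w u a) i m) := by
  induction n with
  | zero => intro m _; exact Commute.one_left _
  | succ n ih =>
    intro m hm
    obtain ⟨m', rfl⟩ : ∃ m', m = m' + 1 := ⟨m - 1, by omega⟩
    exact (h.G_G i n m' (by omega)).mul_left (ih (m' + 1) (by omega))

lemma TL.F_comm (i n : ℕ) : ∀ j, i ≤ j → j + 2 ≤ i + n →
    Commute (cr z w u a j) (F (cr z w u a) i n) := by
  induction n with
  | zero => intro j h1 h2; omega
  | succ n ih =>
    intro j h1 h2
    rcases Nat.lt_or_ge (j + 1) (i + n) with hlt | hge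
    · exact (h.G_comm i n j h1 (by omega)).mul_right (ih j h1 (by omega))
    · obtain ⟨m, rfl⟩ : ∃ m, n = m + 1 := ⟨n - 1, by omega⟩
      obtain rfl : j = i + m := by omega
      have hF : Commute (cr z w u a (i + m)) (F (cr z w u a) i m) := h.F_far i m _ (by omega)
      have hG : Commute (G (cr z w u a) i m) (G (cr z w u a) i (m + 1)) := h.G_G i m m le_rfl
      have e : G (cr z w u a) i (m + 1) =
        cr z w u a (i + m) * (G (cr z w u a) i m * cr z w u a (i + m)) := rfl
      have key : Commute (cr z w u a (i + m)) (G (cr z w u a) i (m + 1) * G (cr z w u a) i m) := by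
        have hG' := hG.eq
        rw [e] at hG' ⊢
        generalize cr z w u a (i + m) = p at *
        generalize G (cr z w u a) i m = g at *
        change p * (p * (g * p) * g) = p * (g * p) * g * p
        calc p * (p * (g * p) * g) = p * (g * (p * (g * p))) := by rw [hG']
          _ = p * (g * p) * g * p := by simp only [mul_assoc]
      change Commute _ (G (cr z w u a) i (m + 1) * (G (cr z w u a) i m * F (cr z w u a) i m))
      rw [← mul_assoc]
      exact key.mul_right hF

lemma TL.yx (i : ℕ) : cr w z u a i * cr z w u a i = 1 := h.swap.inv i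

lemma TL.swap_u (i : ℕ) : cr z w u a i * u (i + 1) = cr w z u a (i + 1) * u i := by
  conv_rhs => rw [← h.cr1_cr_u i]
  rw [← mul_assoc, h.yx, one_mul]

/-- The strand going around `k` strands, followed by a clasp with a cup. -/
lemma TL.key (i k : ℕ) : G (cr z w u a) i k * (cr z w u a (i + k) *
    (G (cr z w u a) i k * u (i + k))) = (-(w * w * w)) • u (i + k) := by
  induction k with
  | zero =>
    change 1 * (cr z w u a (i + 0) * (1 * u (i + 0))) = _
    rw [one_mul, one_mul]
    exact h.cr_u _
  | succ k ih =>
    have hb := h.braid (i + k)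
    have hG : Commute (cr z w u a (i + k + 1)) (G (cr z w u a) i k) := h.G_far i k _ (by omega)
    have hG2 : Commute (cr w z u a (i + k + 1)) (G (cr z w u a) i k) := by
      have hxy := h.inv (i + k + 1)
      have hyx := h.yx (i + k + 1)
      have hG' := hG.eq
      generalize cr z w u a (i + k + 1) = p at *
      generalize cr w z u a (i + k + 1) = q at *
      generalize G (cr z w u a) i k = g at *
      change q * g = g * q
      calc q * g = q * (g * (p * q)) := by rw [hxy, mul_one]
        _ = q * (g * p) * q := by simp only [mul_assoc]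
        _ = (q * p) * g * q := by rw [← hG']; simp only [mul_assoc]
        _ = g * q := by rw [hyx, one_mul]
    have hxy := h.inv (i + k + 1)
    have hsw := h.swap_u (i + k)
    have hcc := h.cr_cr1_u (i + k)
    change cr z w u a (i + k) * (G (cr z w u a) i k * cr z w u a (i + k)) *
      (cr z w u a (i + k + 1) * (cr z w u a (i + k) * (G (cr z w u a) i k *
        cr z w u a (i + k)) * u (i + k + 1))) = (-(w * w * w)) • u (i + k + 1)
    have hG1 := hG.eq
    have hG3 := hG2.eq
    generalize cr z w u a (i + k) = x at *
    generalize cr z w u a (i + k + 1) = p at *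
    generalize cr w z u a (i + k + 1) = q at *
    generalize G (cr z w u a) i k = g at *
    generalize u (i + k) = c at *
    generalize u (i + k + 1) = d at *
    calc x * (g * x) * (p * (x * (g * x) * d)) = x * g * (x * p * x) * g * (x * d) := by
          simp only [mul_assoc]
      _ = x * g * (p * x * p) * g * (q * c) := by rw [hsw, hb]
      _ = x * g * (p * x * (p * (g * q)) * c) := by simp only [mul_assoc]
      _ = x * g * (p * x * (p * (q * g)) * c) := by rw [hG3]
      _ = x * (g * p) * x * (p * q) * g * c := by simp only [mul_assoc]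
      _ = x * (p * g) * x * g * c := by rw [hxy, hG1, mul_one]
      _ = x * (p * (g * (x * (g * c)))) := by simp only [mul_assoc]
      _ = (-(w * w * w)) • d := by rw [ih, mul_smul_comm, mul_smul_comm, hcc]

lemma TL.F_cup_last (i n : ℕ) : F (cr z w u a) i (n + 2) * u (i + n) =
    (w ^ 6) • (u (i + n) * F (cr z w u a) i n) := by
  have e : F (cr z w u a) i (n + 2) = cr z w u a (i + n) * (G (cr z w u a) i n *
    cr z w u a (i + n)) * (G (cr z w u a) i n * F (cr z w u a) i n) := rfl
  have hF : Commute (u (i + n)) (F (cr z w u a) i n) := h.F_u i n _ le_rfl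
  have hk := h.key i n
  rw [e, mul_assoc, mul_assoc (G (cr z w u a) i n), ← hF.eq]
  rw [← mul_assoc (G (cr z w u a) i n) (u (i + n))]
  have e2 : cr z w u a (i + n) * (G (cr z w u a) i n * cr z w u a (i + n)) *
      (G (cr z w u a) i n * u (i + n) * F (cr z w u a) i n) =
      cr z w u a (i + n) * ((G (cr z w u a) i n * (cr z w u a (i + n) *
      (G (cr z w u a) i n * u (i + n)))) * F (cr z w u a) i n) := by
    simp only [mul_assoc]
  rw [e2, hk, smul_mul_assoc, mul_smul_comm, ← mul_assoc, h.cr_u, smul_mul_assoc, smul_smul]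
  congr 1
  ring

lemma TL.F_cup (i n : ℕ) : ∀ d j, j + d = i + n → i ≤ j →
    F (cr z w u a) i (n + 2) * u j = (w ^ 6) • (u j * F (cr z w u a) i n) := by
  intro d
  induction d with
  | zero =>
    intro j hj _
    obtain rfl : j = i + n := by omega
    exact h.F_cup_last i n
  | succ d ih =>
    intro j hj hij
    have h1 := ih (j + 1) (by omega) (by omega)
    have c1 := (h.F_comm i (n + 2) j hij (by omega)).eq
    have c2 := (h.F_comm i (n + 2) (j + 1) (by omega) (by omega)).eq
    have hc := h.cr1_cr_u j
    calc F (cr z w u a) i (n + 2) * u j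
        = F (cr z w u a) i (n + 2) * (cr z w u a (j + 1) * (cr z w u a j * u (j + 1))) := by
          rw [hc]
      _ = (F (cr z w u a) i (n + 2) * cr z w u a (j + 1)) * (cr z w u a j * u (j + 1)) := by
          simp only [mul_assoc]
      _ = cr z w u a (j + 1) * ((F (cr z w u a) i (n + 2) * cr z w u a j) * u (j + 1)) := by
          rw [← c2]
          simp only [mul_assoc]
      _ = cr z w u a (j + 1) * (cr z w u a j * (F (cr z w u a) i (n + 2) * u (j + 1))) := by
          rw [← c1]
          simp only [mul_assoc]
      _ = (w ^ 6) • (cr z w u a (j + 1) * (cr z w u a j * u (j + 1)) * F (cr z w u a) i n) := by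
          rw [h1, mul_smul_comm, mul_smul_comm]
          simp only [mul_assoc]
      _ = (w ^ 6) • (u j * F (cr z w u a) i n) := by rw [hc]

end basic

end Pool.Agent.Helper57.TW
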