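import Pool.Agent.Helper57.TW.Second

/-!
# At most two members of a family with `|l| ≥ 2`
-/

namespace Pool.Agent.Helper57.TW

open Pool.Agent.Helper2 LaurentPolynomial

/-- A commutative ring with a small parameter `e`, its reduction `p` modulo `e`, and no integer
torsion. -/
structure Small (R : Type) [CommRing R] where
  e : R
  cube : e * e * e = 0
  p : R →+* ℚ
  pe : p e = 0
  sq : ∀ r, e * e * r = 0 → p r = 0
  div : ∀ (m : ℤ) (x : R), m ≠ 0 → (m : R) * x = 0 → x = 0

/-- Truncated polynomials. -/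
abbrev TR : Type := Polynomial ℚ ⧸ Ideal.span {(Polynomial.X ^ 3 : Polynomial ℚ)}

/-- The example. -/
noncomputable def smallTR : Small TR where
  e := Ideal.Quotient.mk _ Polynomial.X
  p := Ideal.Quotient.lift _ (Polynomial.constantCoeff) (by
    intro a ha
    rw [Ideal.mem_span_singleton] at ha
    obtain ⟨b, rfl⟩ := ha
    simp)
  cube := by
    rw [← map_mul, ← map_mul, Ideal.Quotient.eq_zero_iff_mem, Ideal.mem_span_singleton]
    exact ⟨1, by ring⟩
  pe := by
    rw [Ideal.Quotient.lift_mk]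
    simp
  sq := by
    intro r h
    obtain ⟨p, rfl⟩ := Ideal.Quotient.mk_surjective r
    rw [← map_mul, ← map_mul, Ideal.Quotient.eq_zero_iff_mem, Ideal.mem_span_singleton] at h
    obtain ⟨b, hb⟩ := h
    have h1 : p = Polynomial.X * b := by
      have h2 : (Polynomial.X * Polynomial.X : Polynomial ℚ) * p =
          (Polynomial.X * Polynomial.X) * (Polynomial.X * b) := by rw [hb]; ring
      exact mul_left_cancel₀ (mul_ne_zero Polynomial.X_ne_zero Polynomial.X_ne_zero) h2
    rw [Ideal.Quotient.lift_mk, h1]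
    simp
  div := by
    intro m x hm hx
    have hmq : (m : ℚ) ≠ 0 := by exact_mod_cast hm
    have e1 : (algebraMap ℚ TR (m : ℚ)⁻¹) * (m : TR) = 1 := by
      have e2 : (m : TR) = algebraMap ℚ TR (m : ℚ) := by simp
      rw [e2, ← map_mul, inv_mul_cancel₀ hmq, map_one]
    calc x = (algebraMap ℚ TR (m : ℚ)⁻¹) * ((m : TR) * x) := by rw [← mul_assoc, e1, one_mul]
      _ = 0 := by rw [hx, mul_zero]

variable {R : Type} [CommRing R] (S : Small R)

/-- The unit `1 + ε`. -/
def Small.z : Rˣ where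
  val := 1 + S.e
  inv := 1 - S.e + S.e * S.e
  val_inv := by linear_combination S.cube
  inv_val := by linear_combination S.cube

lemma Small.z_pow (m : ℤ) : ∃ r : R, ((S.z ^ m : Rˣ) : R) = 1 + (m : R) * S.e + S.e * S.e * r := by
  have hc := S.cube
  induction m using Int.induction_on with
  | zero => exact ⟨0, by simp⟩
  | succ k ih =>
    obtain ⟨r, hr⟩ := ih
    refine ⟨(k : R) + r, ?_⟩
    rw [zpow_add_one, Units.val_mul, hr]
    have : (S.z : R) = 1 + S.e := rfl
    rw [this]
    push_cast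
    linear_combination r * hc
  | pred k ih =>
    obtain ⟨r, hr⟩ := ih
    refine ⟨r + k + 1, ?_⟩
    rw [zpow_sub_one, Units.val_mul, hr]
    have : ((S.z⁻¹ : Rˣ) : R) = 1 - S.e + S.e * S.e := rfl
    rw [this]
    push_cast
    linear_combination (-(k : R) - r + S.e * r) * hc

/-- Base change of operators. -/
lemma run_tp (w : List Slice) : ∀ (ψ : (ℕ → Bool) → R) (s : ℕ → Bool),
    S.p ((VO S.z).run w ψ s) = (VO (1 : ℚˣ)).run w (fun t => S.p (ψ t)) s := by
  have hz : S.p (S.z : R) = 1 := by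
    have : (S.z : R) = 1 + S.e := rfl
    rw [this, map_add, map_one, S.pe, add_zero]
  have hw : S.p ((S.z⁻¹ : Rˣ) : R) = 1 := by
    have : ((S.z⁻¹ : Rˣ) : R) = 1 - S.e + S.e * S.e := rfl
    rw [this, map_add, map_sub, map_one, map_mul, S.pe]
    ring
  have hcup : ∀ i (ψ : (ℕ → Bool) → R), (fun t => S.p (sCup ((S.z⁻¹ : Rˣ) : R) i ψ t)) =
      sCup (1 : ℚ) i (fun t => S.p (ψ t)) := by
    intro i ψ
    funext t
    rw [sCup_apply, sCup_apply, map_mul]
    congr 1
    cases t i <;> cases t (i + 1) <;> simp [cupW, hw]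
  have hcap : ∀ i (ψ : (ℕ → Bool) → R), (fun t => S.p (sCap (S.z : R) i ψ t)) =
      sCap (1 : ℚ) i (fun t => S.p (ψ t)) := by
    intro i ψ
    funext t
    rw [sCap_apply, sCap_apply, map_add, map_mul, map_neg, map_mul, hz]
  induction w with
  | nil => intro ψ s; rfl
  | cons a w ih =>
    intro ψ s
    rw [Ops.run, Ops.run, ih]
    suffices h : (fun t => S.p ((VO S.z).act a ψ t)) = (VO (1 : ℚˣ)).act a fun t => S.p (ψ t) by
      rw [h]
    cases a with
    | cup i u =>
      change (fun t => S.p (sCup ((S.z⁻¹ : Rˣ) : R) i ψ t)) =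
        sCup (((1 : ℚˣ)⁻¹ : ℚˣ) : ℚ) i (fun t => S.p (ψ t))
      rw [hcup, inv_one, Units.val_one]
    | cap i =>
      change (fun t => S.p (sCap (S.z : R) i ψ t)) = sCap ((1 : ℚˣ) : ℚ) i (fun t => S.p (ψ t))
      rw [hcap, Units.val_one]
    | cross i p =>
      rw [act_cross, act_cross, xs_one]
      have e1 : (xs S.z p i) ψ = (if p then (S.z : R) else ((S.z⁻¹ : Rˣ) : R)) • ψ +
          (if p then ((S.z⁻¹ : Rˣ) : R) else (S.z : R)) •
            (sCup ((S.z⁻¹ : Rˣ) : R) i (sCap (S.z : R) i ψ)) := by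
        cases p <;> rfl
      funext t
      rw [e1]
      have e2 : ∀ (x y : R) (f g : (ℕ → Bool) → R), (x • f + y • g) t = x * f t + y * g t :=
        fun _ _ _ _ => rfl
      have h1 := congrFun (hcup i (sCap (S.z : R) i ψ)) t
      rw [hcap i ψ] at h1
      rw [e2, map_add, map_mul, map_mul, h1]
      have e3 : ((1 + sCup 1 i * sCap 1 i : EE ℚ) fun t => S.p (ψ t)) t =
          S.p (ψ t) + sCup (1 : ℚ) i (sCap 1 i fun t => S.p (ψ t)) t := rfl
      rw [e3]
      cases p <;> simp [hz, hw]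

lemma St_tp (m : Bool → Bool → R) (m' : Bool → Bool → ℚ) (hm : ∀ x y, S.p (m x y) = m' x y)
    (a : ℕ) (ψ : (ℕ → Bool) → R) :
    (fun t => S.p (St m a ψ t)) = St m' a (fun t => S.p (ψ t)) := by
  funext t
  rw [St_apply, St_apply, map_add, map_mul, map_mul, hm, hm]

lemma Tot_tp (m : Bool → Bool → R) (m' : Bool → Bool → ℚ) (hm : ∀ x y, S.p (m x y) = m' x y)
    (i n : ℕ) (ψ : (ℕ → Bool) → R) :
    (fun t => S.p (Tot m i n ψ t)) = Tot m' i n (fun t => S.p (ψ t)) := by
  induction n with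
  | zero =>
    rw [Tot_zero, Tot_zero]
    funext t
    change S.p 0 = 0
    exact map_zero _
  | succ n ih =>
    rw [Tot_succ, Tot_succ]
    funext t
    have h1 := congrFun ih t
    have h2 := congrFun (St_tp S m m' hm (i + n) ψ) t
    change S.p (Tot m i n ψ t + St m (i + n) ψ t) =
      Tot m' i n (fun t => S.p (ψ t)) t + St m' (i + n) (fun t => S.p (ψ t)) t
    rw [map_add, h1, h2]

lemma Cas_tp (i n : ℕ) (ψ : (ℕ → Bool) → R) :
    (fun t => S.p (Cas i n ψ t)) = Cas i n (fun t => S.p (ψ t)) := by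
  have hE := Tot_tp S mE mE (by intro x y; cases x <;> cases y <;> simp [mE]) i n
  have hF := Tot_tp S mF mF (by intro x y; cases x <;> cases y <;> simp [mF]) i n
  have hH := Tot_tp S mH mH (by intro x y; cases x <;> cases y <;> simp [mH]) i n
  funext t
  have e1 : ∀ {R : Type} [CommRing R] (ψ : (ℕ → Bool) → R), Cas i n ψ t =
      Tot mH i n (Tot mH i n ψ) t + 2 * Tot mH i n ψ t + 4 * Tot mF i n (Tot mE i n ψ) t := by
    intro R _ ψ
    rfl
  have t2 : S.p 2 = 2 := map_ofNat S.p 2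
  have t4 : S.p 4 = 4 := map_ofNat S.p 4
  rw [e1, e1, map_add, map_add, map_mul, map_mul, ← hH, ← hE, ← hF, ← hH, t2, t4]

end Pool.Agent.Helper57.TW
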