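import Pool.Agent.Helper57.TW.Inv
import Pool.Agent.Helper2.OrRun

/-!
# For a knot only two colourings contribute at `z = 1`
-/

namespace Pool.Agent.Helper57.TW

open Pool.Agent.Helper2

/-- Put a list in front of a sequence. -/
def app : List Bool → (ℕ → Bool) → ℕ → Bool
  | [], s => s
  | b :: c, s => fun k => Nat.casesOn k b (app c s)

lemma app_ins (p : List Bool) : ∀ (x y : Bool) (r : List Bool) (s : ℕ → Bool),
    app (p ++ x :: y :: r) s = ins p.length x y (app (p ++ r) s) := by
  induction p with
  | nil =>
    intro x y r s
    funext k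
    rcases k with _ | _ | k
    · simp [app, ins]
    · simp [app, ins]
    · simp [app, ins]
  | cons b p ih =>
    intro x y r s
    funext k
    rcases k with _ | k
    · simp [app, ins]
    · have := congrFun (ih x y r s) k
      simp only [List.cons_append, app, List.length_cons] at this ⊢
      change app (p ++ x :: y :: r) s k = _
      rw [this]
      simp only [ins]
      by_cases h1 : k < p.length
      · simp [h1]
      · have h1' : ¬ k + 1 < p.length + 1 := by omega
        by_cases h2 : k = p.length
        · subst h2; simp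
        · have h2' : ¬ k + 1 = p.length + 1 := by omega
          by_cases h3 : k = p.length + 1
          · subst h3; simp
          · have h3' : ¬ k + 1 = p.length + 1 + 1 := by omega
            obtain ⟨m, rfl⟩ : ∃ m, k = m + 2 := ⟨k - 2, by omega⟩
            have h4 : m + 2 + 1 - 2 = m + 1 := by omega
            simp only [h1, h2, h3, h1', h2', h3', if_false, Nat.add_sub_cancel, h4]

lemma app_get (L : List Bool) : ∀ (s : ℕ → Bool) (k : ℕ) (h : k < L.length),
    app L s k = L[k] := by
  induction L with
  | nil => intro s k h; simp at h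
  | cons b L ih =>
    intro s k h
    rcases k with _ | k
    · rfl
    · exact ih s k (by simpa using h)

section dominate

variable (M : ℚ) (s : ℕ → Bool)

/-- Domination of a state of the vertex model by a state of the colouring model. -/
def Dom (o : List Bool) (φ : (ℕ → Bool) → ℚ) (ψ : List Bool → ℤ) : Prop :=
  ∀ c, c.length = o.length → |φ (app c s)| ≤ M * (ψ (rel o c) : ℚ)

variable {M s}

lemma Dom.cup {o : List Bool} {φ : (ℕ → Bool) → ℚ} {ψ : List Bool → ℤ} (h : Dom M s o φ ψ)
    (i : ℕ) (u : Bool) (hi : i ≤ o.length) :
    Dom M s (o.take i ++ u :: (!u) :: o.drop i) (sCup 1 i φ) (lift eCup0 i ψ) := by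
  intro c hc
  obtain ⟨pre, post, rfl, rfl⟩ := split_list o i hi
  simp only [List.take_left', List.drop_left'] at hc ⊢
  obtain ⟨p, r, rfl, hp⟩ := split_list c pre.length (by simp at hc; omega)
  rcases r with _ | ⟨x, _ | ⟨y, r⟩⟩
  · simp at hc; omega
  · simp at hc; omega
  have hlen : (rel pre p).length = p.length := by rw [rel_length _ _ hp, hp]
  have e1 : sCup (1 : ℚ) pre.length φ (app (p ++ x :: y :: r) s) =
      cupW 1 x y * φ (app (p ++ r) s) := by
    rw [app_ins, ← hp, sCup_apply, ins_at, ins_at1, del_ins]
  have e2 : rel (pre ++ u :: (!u) :: post) (p ++ x :: y :: r) =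
      rel pre p ++ (xor u x) :: (xor (!u) y) :: rel post r := by
    rw [rel_append _ _ _ _ hp.symm]
    rfl
  rw [e1, e2, ← hp, ← hlen, lift_append]
  have e3 := h (p ++ r) (by simp at hc ⊢; omega)
  rw [rel_append _ _ _ _ hp.symm] at e3
  simp only [eCup0]
  cases u <;> cases x <;> cases y <;> simp [cupW, e3]

lemma Dom.cap {o : List Bool} {φ : (ℕ → Bool) → ℚ} {ψ : List Bool → ℤ}
    (pre post : List Bool) (a b : Bool) (hab : a ≠ b) (ho : o = pre ++ a :: b :: post)
    (h : Dom M s o φ ψ) :
    Dom M s (pre ++ post) (sCap 1 pre.length φ) (lift eCap0 pre.length ψ) := by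
  subst ho
  intro c hc
  obtain ⟨p, r, rfl, hp⟩ := split_list c pre.length (by simp at hc; omega)
  have hlen : (rel pre p).length = p.length := by rw [rel_length _ _ hp, hp]
  have e1 : sCap (1 : ℚ) pre.length φ (app (p ++ r) s) =
      -φ (app (p ++ true :: false :: r) s) + φ (app (p ++ false :: true :: r) s) := by
    rw [app_ins, app_ins, ← hp, sCap_apply]
    ring
  rw [e1, rel_append _ _ _ _ hp.symm, ← hp, ← hlen, lift_append]
  have e2 := h (p ++ true :: false :: r) (by simp at hc ⊢; omega)
  have e3 := h (p ++ false :: true :: r) (by simp at hc ⊢; omega)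
  rw [rel_append _ _ _ _ hp.symm] at e2 e3
  have e4 : ∀ x y : Bool, rel (a :: b :: post) (x :: y :: r) =
      (xor a x) :: (xor b y) :: rel post r := fun x y => rfl
  rw [e4] at e2 e3
  simp only [eCap0]
  have e5 : |-φ (app (p ++ true :: false :: r) s) + φ (app (p ++ false :: true :: r) s)| ≤
      |φ (app (p ++ true :: false :: r) s)| + |φ (app (p ++ false :: true :: r) s)| := by
    refine (abs_add_le _ _).trans ?_
    rw [abs_neg]
  refine e5.trans ?_
  push_cast
  cases a <;> cases b
  · exact absurd rfl hab
  · simp only [Bool.false_xor, Bool.true_xor, Bool.not_true, Bool.not_false] at e2 e3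
    rw [mul_add]
    exact add_le_add e2 e3
  · simp only [Bool.false_xor, Bool.true_xor, Bool.not_true, Bool.not_false] at e2 e3
    rw [mul_add, add_comm]
    exact add_le_add e3 e2
  · exact absurd rfl hab

lemma xs_swap (p : Bool) (j : ℕ) : (xs (1 : ℚˣ) p j : Module.End ℚ ((ℕ → Bool) → ℚ)) =
    Sw j (j + 1) := by
  have h := cr_first (R := ℚ) (ε := 0) (z := 1) (w := 1) (by simp) (by simp) (by simp) j
  have h2 : (xs (1 : ℚˣ) p j : Module.End ℚ ((ℕ → Bool) → ℚ)) =
      cr (1 : ℚ) (1 : ℚ) (sCup (1 : ℚ)) (sCap (1 : ℚ)) j := by
    cases p <;> simp [xs]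
  rw [h2, h, zero_smul, zero_mul, zero_smul, add_zero, add_zero]

lemma Dom.cross {o : List Bool} {φ : (ℕ → Bool) → ℚ} {ψ : List Bool → ℤ}
    (pre post : List Bool) (a b : Bool) (ho : o = pre ++ a :: b :: post)
    (h : Dom M s o φ ψ) (q : Bool) :
    Dom M s (pre ++ b :: a :: post) (xs (1 : ℚˣ) q pre.length φ) (lift eX0 pre.length ψ) := by
  subst ho
  intro c hc
  obtain ⟨p, r, rfl, hp⟩ := split_list c pre.length (by simp at hc; omega)
  rcases r with _ | ⟨x, _ | ⟨y, r⟩⟩
  · simp at hc; omega
  · simp at hc; omega
  have hlen : (rel pre p).length = p.length := by rw [rel_length _ _ hp, hp]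
  have e1 : xs (1 : ℚˣ) q pre.length φ (app (p ++ x :: y :: r) s) =
      φ (app (p ++ y :: x :: r) s) := by
    rw [xs_swap, Sw_apply, app_ins, app_ins, ← hp, swap_ins]
  have e2 := h (p ++ y :: x :: r) (by simp at hc ⊢; omega)
  rw [e1, rel_append _ _ _ _ hp.symm, ← hp, ← hlen, lift_append]
  rw [rel_append _ _ _ _ hp.symm] at e2
  exact e2

lemma Dom.run (w : List Slice) : ∀ (o o' : List Bool) (φ : (ℕ → Bool) → ℚ)
    (ψ : List Bool → ℤ), dirsAbove w o = some o' → Dom M s o φ ψ →
    Dom M s o' ((VO (1 : ℚˣ)).run w φ) (colOps.run w ψ) := by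
  induction w with
  | nil =>
    intro o o' φ ψ h hc
    simp only [dirsAbove, Option.some.injEq] at h
    subst h
    exact hc
  | cons t w ih =>
    intro o o' φ ψ h hc
    cases t with
    | cup i u =>
      simp only [dirsAbove, Slice.dirs] at h
      split_ifs at h with hi
      · simp only [Option.bind_some] at h
        have e1 : (VO (1 : ℚˣ)).act (.cup i u) φ = sCup 1 i φ := by
          change sCup (((1 : ℚˣ)⁻¹ : ℚˣ) : ℚ) i φ = _
          rw [inv_one, Units.val_one]
        rw [Ops.run, e1]
        exact ih _ _ _ _ h (hc.cup i u hi)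
      · simp at h
    | cap i =>
      simp only [dirsAbove, Slice.dirs] at h
      rcases hd : o.drop i with _ | ⟨a, _ | ⟨b, r⟩⟩
      · simp [hd] at h
      · simp [hd] at h
      · simp only [hd] at h
        split_ifs at h with hab
        · simp at h
        · simp only [Option.bind_some] at h
          have hl : (o.drop i).length = r.length + 2 := by simp [hd]
          rw [List.length_drop] at hl
          have ho : o = o.take i ++ a :: b :: r := by rw [← hd, List.take_append_drop]
          have hi : (o.take i).length = i := by rw [List.length_take]; omega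
          have := hc.cap (o.take i) r a b hab ho
          rw [hi] at this
          have e1 : (VO (1 : ℚˣ)).act (.cap i) φ = sCap 1 i φ := by
            change sCap (((1 : ℚˣ)) : ℚ) i φ = _
            rw [Units.val_one]
          rw [Ops.run, e1]
          exact ih _ _ _ _ h this
    | cross i p =>
      simp only [dirsAbove, Slice.dirs] at h
      rcases hd : o.drop i with _ | ⟨a, _ | ⟨b, r⟩⟩
      · simp [hd] at h
      · simp [hd] at h
      · simp only [hd, Option.bind_some] at h
        have hl : (o.drop i).length = r.length + 2 := by simp [hd]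
        rw [List.length_drop] at hl
        have ho : o = o.take i ++ a :: b :: r := by rw [← hd, List.take_append_drop]
        have hi : (o.take i).length = i := by rw [List.length_take]; omega
        have := hc.cross (o.take i) r a b ho p
        rw [hi] at this
        rw [Ops.run, act_cross]
        exact ih _ _ _ _ h this

end dominate

/-- One sided lower bound. -/
def LB1 (b : Bool) (n : ℕ) (ψ : List Bool → ℤ) : Prop :=
  ∀ x, x.length = n → (if mono b x then 1 else 0) ≤ ψ x

lemma LB1.run (b : Bool) (w : List Slice) : ∀ (n m : ℕ) (ψ : List Bool → ℤ), Ok w n m →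
    LB1 b n ψ → LB1 b m (colOps.run w ψ) := by
  induction w with
  | nil => intro n m ψ h hψ; simp only [Ok] at h; subst h; exact hψ
  | cons s w ih =>
    intro n m ψ h hψ
    cases s with
    | cup i u =>
      refine ih _ _ _ h.2 ?_
      intro x hx
      obtain ⟨p, r, rfl, rfl⟩ := split_list x i (by have := h.1; omega)
      change _ ≤ lift eCup0 p.length ψ _
      rw [lift_append]
      rcases r with _ | ⟨a, _ | ⟨c, r⟩⟩
      · simp at hx; have := h.1; omega
      · simp at hx; have := h.1; omega
      have h1 := hψ (p ++ r) (by simp at hx ⊢; omega)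
      simp only [eCup0, mono_append, mono_cons] at h1 ⊢
      by_cases hac : a = c
      · subst hac
        rw [if_pos rfl]
        by_cases h2 : mono b p ∧ mono b r
        · rw [if_pos h2] at h1
          split_ifs
          · exact h1
          · omega
        · rw [if_neg h2] at h1
          rw [if_neg (by tauto)]
          exact h1
      · rw [if_neg hac, if_neg]
        rintro ⟨_, h3, h4, _⟩
        exact hac (h3.trans h4.symm)
    | cap i =>
      obtain ⟨k, rfl⟩ : ∃ k, n = k + 2 := ⟨n - 2, by have := h.1; omega⟩
      refine ih _ _ _ h.2 ?_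
      intro x hx
      have hx' : x.length = k := hx
      obtain ⟨p, r, rfl, rfl⟩ := split_list x i (by have := h.1; omega)
      change _ ≤ lift eCap0 p.length ψ _
      rw [lift_append]
      have h1 := hψ (p ++ true :: true :: r) (by simp at hx' ⊢; omega)
      have h2 := hψ (p ++ false :: false :: r) (by simp at hx' ⊢; omega)
      simp only [eCap0, mono_append, mono_cons] at h1 h2 ⊢
      by_cases h3 : mono b p ∧ mono b r
      · cases b <;> simp [h3] at h1 h2 ⊢ <;> omega
      · rw [if_neg (by tauto)] at h1
        rw [if_neg (by tauto)] at h2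
        rw [if_neg h3]
        omega
    | cross i p =>
      refine ih _ _ _ h.2 ?_
      intro x hx
      obtain ⟨p', r, rfl, rfl⟩ := split_list x i (by have := h.1; omega)
      change _ ≤ lift eX0 p'.length ψ _
      rw [lift_append]
      rcases r with _ | ⟨a, _ | ⟨c, r⟩⟩
      · simp at hx; have := h.1; omega
      · simp at hx; have := h.1; omega
      have h1 := hψ (p' ++ c :: a :: r) (by simp at hx ⊢; omega)
      simp only [eX0, mono_append, mono_cons] at h1 ⊢
      by_cases h2 : mono b p' ∧ a = b ∧ c = b ∧ mono b r
      · rw [if_pos h2]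
        rw [if_pos (by tauto)] at h1
        exact h1
      · rw [if_neg h2]
        rw [if_neg (by tauto)] at h1
        exact h1

lemma mono_iff (b : Bool) (x : List Bool) : mono b x ↔ x = List.replicate x.length b := by
  rw [List.eq_replicate_iff]
  exact ⟨fun h => ⟨rfl, h⟩, fun h => h.2⟩

lemma rel_true (o : List Bool) : ∀ c, c.length = o.length →
    rel o c = List.replicate o.length true → c = o.map not := by
  induction o with
  | nil => intro c hc _; exact List.length_eq_zero_iff.1 hc
  | cons a o ih =>
    intro c hc h
    rcases c with _ | ⟨b, c⟩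
    · simp at hc
    · have e : rel (a :: o) (b :: c) = (xor a b) :: rel o c := rfl
      rw [e, List.length_cons, List.replicate_succ, List.cons.injEq] at h
      rw [ih c (by simpa using hc) h.2, List.map_cons]
      congr 1
      cases a <;> cases b <;> simp at h ⊢

lemma rel_false (o : List Bool) : ∀ c, c.length = o.length →
    rel o c = List.replicate o.length false → c = o := by
  induction o with
  | nil => intro c hc _; exact List.length_eq_zero_iff.1 hc
  | cons a o ih =>
    intro c hc h
    rcases c with _ | ⟨b, c⟩
    · simp at hc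
    · have e : rel (a :: o) (b :: c) = (xor a b) :: rel o c := rfl
      rw [e, List.length_cons, List.replicate_succ, List.cons.injEq] at h
      rw [ih c (by simpa using hc) h.2]
      congr 1
      cases a <;> cases b <;> simp at h ⊢

theorem two_state (P Q : List Slice) (o : List Bool) (hP : dirsAbove P [] = some o)
    (hK : IsKnotDiagram (P ++ Q)) (ho : 1 ≤ o.length) (s : ℕ → Bool) (d : (ℕ → Bool) → ℚ)
    (B : ℚ) (hB : ∀ s', |d s'| ≤ B) (h1 : d (app o s) = 0) (h2 : d (app (o.map not) s) = 0) :
    (VO (1 : ℚˣ)).run Q (Dg d ((VO (1 : ℚˣ)).run P (fun _ => 1))) s = 0 := by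
  obtain ⟨hD, hC⟩ := hK
  have hQ : dirsAbove Q o = some [] := by
    rw [← (dirsAbove_append P Q [] o hP).1]
    exact hD
  have hok := ok_of_dirs P [] o hP
  have hokQ := ok_of_dirs Q o [] hQ
  have hPne : P ≠ [] := by
    rintro rfl
    simp only [dirsAbove, Option.some.injEq] at hP
    subst hP
    simp at ho
  have hB0 : 0 ≤ B := (abs_nonneg _).trans (hB s)
  set colP := colOps.run P eInit with hcolP
  have hd0 : Dom 1 s [] (fun _ => 1) eInit := by
    intro c hc
    obtain rfl := List.length_eq_zero_iff.1 hc
    simp [eInit, rel]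
  have hdP : Dom 1 s o ((VO (1 : ℚˣ)).run P (fun _ => 1)) colP := hd0.run P [] o _ _ hP
  have hLB : LB o.length colP := by
    obtain ⟨u, w, rfl, hw⟩ := first_slice P o.length hok hPne
    exact LB.run w 2 o.length _ hw LB.first
  set T := List.replicate o.length true with hT
  set Fl := List.replicate o.length false with hF
  have hTF : T ≠ Fl := by
    intro h
    have := congrArg (fun L : List Bool => L.head?) h
    obtain ⟨k, hk⟩ : ∃ k, o.length = k + 1 := ⟨o.length - 1, by omega⟩
    rw [hT, hF, hk, List.replicate_succ, List.replicate_succ] at this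
    simp at this
  set ψT : List Bool → ℤ := fun x => if x = T then colP x else 0 with hψT
  set ψF : List Bool → ℤ := fun x => if x = Fl then colP x else 0 with hψF
  have hone : ∀ b, LB1 b o.length
      (fun x => if x = List.replicate o.length b then colP x else 0) := by
    intro b x hx
    simp only
    have h3 := hLB x hx
    have h4 := lb_nonneg x
    by_cases h5 : mono b x
    · rw [if_pos h5, if_pos (by rw [← hx]; exact (mono_iff b x).1 h5)]
      have h6 : 1 ≤ lb x := by
        unfold lb
        cases b
        · rw [if_pos h5]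
          split_ifs <;> simp
        · rw [if_pos h5]
          split_ifs <;> simp
      omega
    · rw [if_neg h5]
      split_ifs <;> omega
  have hcT : 1 ≤ colOps.run Q ψT [] := by
    have := (hone true).run true Q o.length 0 _ hokQ [] rfl
    simpa [mono] using this
  have hcF : 1 ≤ colOps.run Q ψF [] := by
    have := (hone false).run false Q o.length 0 _ hokQ [] rfl
    simpa [mono] using this
  have hall : colOps.run Q colP [] = 2 := by
    have h3 := colour_curves (P ++ Q) (ok_of_dirs (P ++ Q) [] [] hD)
    rw [Ops.run_append, hC] at h3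
    exact h3
  have hlin : Lin2 (colOps.run Q) := run_lin colOps (by
    intro s
    cases s with
    | cup i u => exact eCup0_lin.lift i
    | cap i => exact eCap0_lin.lift i
    | cross i p => exact eX0_lin.lift i) Q
  have hrest : colOps.run Q (fun x => colP x - ψT x - ψF x) [] ≤ 0 := by
    have e1 : (fun x => colP x - ψT x - ψF x) =
        fun x => 1 * (fun x => 1 * colP x + (-1) * ψT x) x + (-1) * ψF x := by
      funext x; ring
    rw [e1, hlin, hlin]
    simp only
    omega
  have hdd : Dom B s o (Dg d ((VO (1 : ℚˣ)).run P (fun _ => 1)))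
      (fun x => colP x - ψT x - ψF x) := by
    intro c hc
    have h3 := hdP c hc
    rw [Dg_apply, abs_mul]
    by_cases hxT : rel o c = T
    · have h4 := rel_true o c hc hxT
      rw [h4, h2, abs_zero, zero_mul, ← h4, hxT]
      have h5 : (colP T - ψT T - ψF T : ℤ) = 0 := by
        simp only [hψT, hψF, if_true, if_neg hTF]
        ring
      beta_reduce
      rw [h5]
      simp
    · by_cases hxF : rel o c = Fl
      · have h4 := rel_false o c hc hxF
        rw [h4, h1, abs_zero, zero_mul, ← h4]
        rw [h4] at hxF ⊢
        rw [hxF]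
        have h5 : (colP Fl - ψT Fl - ψF Fl : ℤ) = 0 := by
          simp only [hψT, hψF, if_true, if_neg (Ne.symm hTF)]
          ring
        beta_reduce
        rw [h5]
        simp
      · have h5 : (colP (rel o c) - ψT (rel o c) - ψF (rel o c) : ℤ) = colP (rel o c) := by
          simp only [hψT, hψF, if_neg hxT, if_neg hxF]
          ring
        beta_reduce
        rw [h5]
        rw [one_mul] at h3
        exact mul_le_mul (hB _) h3 (abs_nonneg _) hB0
  have hfin := hdd.run Q o [] _ _ hQ [] rfl
  have h6 : rel [] [] = [] := rfl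
  rw [h6] at hfin
  have h7 : app [] s = s := rfl
  rw [h7] at hfin
  have h8 : B * ((colOps.run Q (fun x => colP x - ψT x - ψF x) [] : ℤ) : ℚ) ≤ 0 := by
    apply mul_nonpos_of_nonneg_of_nonpos hB0
    exact_mod_cast hrest
  exact abs_eq_zero.1 (le_antisymm (hfin.trans h8) (abs_nonneg _))

end Pool.Agent.Helper57.TW
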